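import Pool.Agent.V7H9.FR.Cst

set_option autoImplicit false

/-!
# The final forms
-/

namespace Pool.Agent.V7H9.FR

open Finset Filter Topology MeasureTheory
open Pool.Agent.TH498.AR (psi3)
open Pool.Agent.V7H9.AL (image_eff)
open Pool.Agent.Results.MP_1ea25c_nt.AlmostAllTriples (triples rad3)

/-- the products of the bad primes are almost always distinct -/
theorem Rm_image : ∃ C ν : ℝ, 0 < C ∧ 0 < ν ∧ ν ≤ 1 / 3 ∧ ∀ (T : Set (ℕ × ℕ)) (X : ℝ), 1 ≤ X →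
    (∀ p ∈ T, IsT p ∧ (Rm p : ℝ) ≤ X) →
    |((Rm '' T).ncard : ℝ) - T.ncard| ≤ C * X ^ (2 / 3 - ν) := by
  obtain ⟨C, ν, hC, hν, hν1, h⟩ := image_eff
  refine ⟨3 * C, ν, by positivity, hν, hν1, fun T X hX hT => ?_⟩
  have hX0 : 0 < X := by linarith
  have hTfin : T.Finite := by
    refine (fam_finite false X).subset fun p hp => ?_
    exact ⟨⟨(hT p hp).1, fun h => by cases h⟩, (hT p hp).2⟩
  obtain ⟨T1, hT1⟩ : ∃ T1 : Set (ℕ × ℕ), T1 = {p | p ∈ T ∧ v2 (psi3 ∅ p) = 3} := ⟨_, rfl⟩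
  obtain ⟨T2, hT2⟩ : ∃ T2 : Set (ℕ × ℕ), T2 = {p | p ∈ T ∧ v2 (psi3 ∅ p) ≠ 3} := ⟨_, rfl⟩
  have hU : T = T1 ∪ T2 := by
    ext p
    rw [hT1, hT2, Set.mem_union, Set.mem_ofPred_eq, Set.mem_ofPred_eq]
    tauto
  have f1 : T1.Finite := hTfin.subset fun p hp => by rw [hT1] at hp; exact hp.1
  have f2 : T2.Finite := hTfin.subset fun p hp => by rw [hT2] at hp; exact hp.1
  have hd : Disjoint T1 T2 := by
    rw [Set.disjoint_left]
    intro p hp hq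
    rw [hT1] at hp
    rw [hT2] at hq
    exact hq.2 hp.2
  have c0 : (T.ncard : ℝ) = T1.ncard + T2.ncard := by
    rw [hU]
    exact_mod_cast Set.ncard_union_eq hd f1 f2
  -- the images
  have i1 : ∀ p ∈ T1, 2 * Rm p = rad3 p := by
    intro p hp
    rw [hT1] at hp
    exact (Rm_val (hT p hp.1).1).1 hp.2
  have i2 : ∀ p ∈ T2, Rm p = rad3 p := by
    intro p hp
    rw [hT2] at hp
    exact (Rm_val (hT p hp.1).1).2 hp.2
  have e1 : (Rm '' T1).ncard = (rad3 '' T1).ncard := by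
    have : rad3 '' T1 = (fun n => 2 * n) '' (Rm '' T1) := by
      rw [Set.image_image]
      exact Set.image_congr fun p hp => (i1 p hp).symm
    have inj : Function.Injective (fun n : ℕ => 2 * n) := fun a b hab =>
      Nat.eq_of_mul_eq_mul_left (by norm_num) hab
    rw [this, Set.ncard_image_of_injective (Rm '' T1) inj]
  have e2 : Rm '' T2 = rad3 '' T2 := Set.image_congr fun p hp => i2 p hp
  have hdi : Disjoint (Rm '' T1) (Rm '' T2) := by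
    rw [Set.disjoint_left]
    rintro n ⟨p, hp, rfl⟩ ⟨q, hq, hpq⟩
    have hpT : IsT p := by
      rw [hT1] at hp
      exact (hT p hp.1).1
    have hqT : IsT q := by
      rw [hT2] at hq
      exact (hT q hq.1).1
    have k1 := i1 p hp
    have k2 := i2 q hq
    have k3 : 2 ∣ Rm p := by
      rw [← hpq, k2]
      exact two_dvd_rad hqT
    have k4 : 4 ∣ rad3 p := by
      obtain ⟨c, hc⟩ := k3
      exact ⟨c, by rw [← k1, hc]; ring⟩
    have k5 := v2_rad hpT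
    have k6 : 2 ^ 2 ∣ rad3 p := by norm_num; exact k4
    have k7 := (Nat.prime_two.pow_dvd_iff_le_factorization (rad3_pos' p).ne').1 k6
    unfold v2 at k5
    omega
  have c1 : ((Rm '' T).ncard : ℝ) = (rad3 '' T1).ncard + (rad3 '' T2).ncard := by
    rw [hU, Set.image_union, Set.ncard_union_eq hdi (f1.image _) (f2.image _), e1, e2]
    push_cast
    rfl
  have s1 : T1 ⊆ triples (2 * X) := by
    intro p hp
    have k1 : (2 : ℝ) * Rm p = rad3 p := by exact_mod_cast i1 p hp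
    rw [hT1] at hp
    obtain ⟨⟨a1, a2, a3⟩, a4⟩ := hT p hp.1
    exact ⟨a1, a2, a3, by rw [← k1]; linarith⟩
  have s2 : T2 ⊆ triples X := by
    intro p hp
    have k1 := i2 p hp
    rw [hT2] at hp
    obtain ⟨⟨a1, a2, a3⟩, a4⟩ := hT p hp.1
    exact ⟨a1, a2, a3, by rw [← k1]; exact a4⟩
  have h1 := h (2 * X) T1 (by linarith) s1
  have h2 := h X T2 hX s2
  have e3 : (2 * X) ^ (2 / 3 - ν) ≤ 2 * X ^ (2 / 3 - ν) := by
    rw [Real.mul_rpow (by norm_num) hX0.le]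
    refine mul_le_mul_of_nonneg_right ?_ (by positivity)
    calc (2 : ℝ) ^ (2 / 3 - ν) ≤ 2 ^ (1 : ℝ) :=
          Real.rpow_le_rpow_of_exponent_le (by norm_num) (by linarith)
      _ = 2 := Real.rpow_one 2
  have e4 := mul_le_mul_of_nonneg_left e3 hC.le
  obtain ⟨a1, a2⟩ := abs_le.1 h1
  obtain ⟨a3, a4⟩ := abs_le.1 h2
  rw [c0, c1, abs_le]
  constructor <;> linarith

/-- the conductors of the semistable violators -/
def CndV (φ : ℝ → ℝ) (X : ℝ) : Set ℕ :=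
  {N | (N : ℝ) ≤ X ∧ ∃ (E : WeierstrassCurve ℚ) (τ : UpperHalfPlane), E.Δ ≠ 0 ∧ FullTwo E ∧
    (∀ q : ℕ, q.Prime → SemiAt q E) ∧ badProd E = N ∧ IsPer (E.c₄ ^ 3 / E.Δ) τ ∧
    1 / 6 * Real.log (badProd E : ℝ) + φ (badProd E : ℝ) ≤ ht (E.c₄ ^ 3 / E.Δ) τ}

lemma CndV_eq (φ : ℝ → ℝ) (X : ℝ) :
    CndV φ X = Rm '' {p | Fam true p ∧ (Rm p : ℝ) ≤ X ∧ φ (Rm p : ℝ) ≤ val p} := by
  ext N
  constructor
  · rintro ⟨h0, E, τ, h1, h2, h3, rfl, h4, h5⟩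
    obtain ⟨p, hp, hj⟩ := fam_of (s := true) h1 h2 fun _ => h3
    have e := Rm_semi hp.1 h1 h2 hj h3
    refine ⟨p, ⟨hp, by rw [← e]; exact h0, ?_⟩, e.symm⟩
    rw [hj] at h4 h5
    unfold ht at h5
    rw [(per_arch hp.1 h4).2, e] at h5
    unfold val
    linarith
  · rintro ⟨p, ⟨hp, h5, h6⟩, rfl⟩
    obtain ⟨E, h1, h2, h3, h4, h5'⟩ := ex_fam hp
    obtain ⟨τ, hτ, -⟩ := per_ex hp.1
    refine ⟨h5, E, τ, h1, h2, h3 rfl, h5', by rw [h4]; exact hτ, ?_⟩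
    unfold ht
    rw [h4, (per_arch hp.1 hτ).2, h5']
    unfold val at h6
    linarith

/-- the main term -/
noncomputable def Mt (s : Bool) (φ : ℝ → ℝ) (X : ℝ) : ℝ :=
  ∫ u in (1 : ℝ)..(X ^ ((2 : ℝ) / 3)), Gs s (φ (u ^ ((3 : ℝ) / 2)))

/-- **All the counts** -/
theorem all_eff : ∃ C ν : ℝ, 0 < C ∧ 0 < ν ∧ ν ≤ 1 / 12 ∧ ∀ X : ℝ, 1 ≤ X →
    (∀ s : Bool, |((Inv s X).ncard : ℝ) - ks s * X ^ ((2 : ℝ) / 3)| ≤ C * X ^ (2 / 3 - 2 * ν)) ∧
    |((Cnd X).ncard : ℝ) - ks true * X ^ ((2 : ℝ) / 3)| ≤ C * X ^ (2 / 3 - 2 * ν) ∧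
    ∀ φ : ℝ → ℝ, MonotoneOn φ (Set.Ici 1) →
      (∀ s : Bool, |((Vio s φ X).ncard : ℝ) - Mt s φ X| ≤ C * X ^ (2 / 3 - 2 * ν)) ∧
      |((CndV φ X).ncard : ℝ) - Mt true φ X| ≤ C * X ^ (2 / 3 - 2 * ν) := by
  obtain ⟨C1, ν1, hC1, hν1, hν1', h1⟩ := tot_eff
  obtain ⟨C2, ν2, hC2, hν2, hν2', h2⟩ := law_eff'
  obtain ⟨C3, ν3, hC3, hν3, hν3', h3⟩ := Rm_image
  obtain ⟨M, hM⟩ : ∃ M : ℝ, M = ks true + ks false := ⟨_, rfl⟩
  have hM0 : 0 < M := by rw [hM]; linarith [ks_pos true, ks_pos false]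
  have hks : ∀ s, ks s ≤ M := by
    intro s
    rw [hM]
    cases s
    · linarith [ks_pos true]
    · linarith [ks_pos false]
  obtain ⟨ν, hν⟩ : ∃ ν : ℝ, ν = min (min ν1 ν2) ν3 / 4 := ⟨_, rfl⟩
  have hν0 : 0 < ν := by rw [hν]; have := lt_min (lt_min hν1 hν2) hν3; positivity
  have n1 : 4 * ν ≤ ν1 := by
    rw [hν]
    linarith [(min_le_left (min ν1 ν2) ν3).trans (min_le_left ν1 ν2)]
  have n2 : 4 * ν ≤ ν2 := by
    rw [hν]
    linarith [(min_le_left (min ν1 ν2) ν3).trans (min_le_right ν1 ν2)]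
  have n3 : 4 * ν ≤ ν3 := by
    rw [hν]
    linarith [min_le_right (min ν1 ν2) ν3]
  obtain ⟨C, hC⟩ : ∃ C : ℝ, C = C1 + (2 * M + 4 * C2) + C3 := ⟨_, rfl⟩
  refine ⟨C, ν, by rw [hC]; positivity, hν0, by linarith, fun X hX => ?_⟩
  have hX0 : 0 < X := by linarith
  have hpw : ∀ a : ℝ, 2 * ν ≤ a → X ^ (2 / 3 - a) ≤ X ^ (2 / 3 - 2 * ν) := fun a ha =>
    Real.rpow_le_rpow_of_exponent_le hX (by linarith)
  have p1 := mul_le_mul_of_nonneg_left (hpw ν1 (by linarith)) hC1.le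
  have p3 := mul_le_mul_of_nonneg_left (hpw ν3 (by linarith)) hC3.le
  have p2 := mul_le_mul_of_nonneg_left (hpw (ν2 / 2) (by linarith))
    (by positivity : 0 ≤ 2 * M + 4 * C2)
  have q1 : 0 ≤ C1 * X ^ (2 / 3 - 2 * ν) := by positivity
  have q2 : 0 ≤ (2 * M + 4 * C2) * X ^ (2 / 3 - 2 * ν) := by positivity
  have q3 : 0 ≤ C3 * X ^ (2 / 3 - 2 * ν) := by positivity
  have eC : C * X ^ (2 / 3 - 2 * ν) = C1 * X ^ (2 / 3 - 2 * ν) +
      (2 * M + 4 * C2) * X ^ (2 / 3 - 2 * ν) + C3 * X ^ (2 / 3 - 2 * ν) := by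
    rw [hC]
    ring
  have hmv := fun (s : Bool) => mv_final (S := {p | Fam s p}) (R := fun p => (Rm p : ℝ)) (v := val)
    (fun p _ => by exact_mod_cast Rm_pos p) (fun Y => (fam_finite s Y).subset fun p hp => hp)
    (Gs_anti s) (Gs_nonneg s) hM0 (fun z => (Gs_le s z).trans (hks s)) hC2 hν2 (by linarith)
    (fun z X Y hX hY hYX => h2 s z X Y hX hY hYX)
  refine ⟨fun s => ?_, ?_, fun φ hφ => ⟨fun s => ?_, ?_⟩⟩
  · rw [Inv_eq, ((jF_injOn s).mono fun p hp => hp.1).ncard_image]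
    have := h1 s X hX
    linarith
  · rw [Cnd_eq]
    have k1 := h1 true X hX
    have k2 := h3 {p | Fam true p ∧ (Rm p : ℝ) ≤ X} X hX fun p hp => ⟨hp.1.1, hp.2⟩
    obtain ⟨a1, a2⟩ := abs_le.1 k1
    obtain ⟨a3, a4⟩ := abs_le.1 k2
    rw [abs_le]
    constructor <;> linarith
  · rw [Vio_eq s hφ, ((jF_injOn s).mono fun p hp => hp.1).ncard_image]
    have k1 := hmv s φ hφ X hX
    have k2 : |(({p | Fam s p ∧ (Rm p : ℝ) ≤ X ∧ φ (Rm p : ℝ) ≤ val p} : Set (ℕ × ℕ)).ncard : ℝ) -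
      Mt s φ X| ≤ (2 * M + 4 * C2) * X ^ (2 / 3 - ν2 / 2) := k1
    linarith
  · rw [CndV_eq]
    have k1 := hmv true φ hφ X hX
    have k2 : |(({p | Fam true p ∧ (Rm p : ℝ) ≤ X ∧ φ (Rm p : ℝ) ≤ val p} :
      Set (ℕ × ℕ)).ncard : ℝ) - Mt true φ X| ≤ (2 * M + 4 * C2) * X ^ (2 / 3 - ν2 / 2) := k1
    have k3 := h3 {p | Fam true p ∧ (Rm p : ℝ) ≤ X ∧ φ (Rm p : ℝ) ≤ val p} X hX
      fun p hp => ⟨hp.1.1, hp.2.1⟩
    obtain ⟨a1, a2⟩ := abs_le.1 k2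
    obtain ⟨a3, a4⟩ := abs_le.1 k3
    rw [abs_le]
    constructor <;> linarith

/-- the threshold of slope `1/6 + δ` -/
noncomputable def slo (δ c : ℝ) (t : ℝ) : ℝ := δ * Real.log t + c

lemma slo_mono {δ : ℝ} (hδ : 0 ≤ δ) (c : ℝ) : MonotoneOn (slo δ c) (Set.Ici 1) := by
  intro t ht t' _ h
  rw [Set.mem_Ici] at ht
  unfold slo
  have := Real.log_le_log (by linarith) h
  have := mul_le_mul_of_nonneg_left this hδ
  linarith

lemma Mt_anti {s : Bool} {δ c : ℝ} (hδ : 0 ≤ δ) {U : ℝ} (hU : 1 ≤ U) :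
    AntitoneOn (fun u : ℝ => Gs s (slo δ c (u ^ ((3 : ℝ) / 2)))) (Set.uIcc 1 U) := by
  intro u hu v hv huv
  rw [Set.uIcc_of_le hU] at hu hv
  refine Gs_anti s (slo_mono hδ c ?_ ?_ ?_)
  · exact Set.mem_Ici.2 (Real.one_le_rpow hu.1 (by norm_num))
  · exact Set.mem_Ici.2 (Real.one_le_rpow hv.1 (by norm_num))
  · exact Real.rpow_le_rpow (by linarith [hu.1]) huv (by norm_num)

/-- lower bound for the main term -/
theorem Mt_low (s : Bool) {ε : ℝ} (hε : 0 < ε) {δ : ℝ} (hδ : 0 ≤ δ) (c : ℝ) : ∃ b : ℝ, 0 < b ∧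
    ∀ X : ℝ, 2 ≤ X → b * X ^ (2 / 3 - (2 + ε) * δ) ≤ Mt s (slo δ c) X := by
  obtain ⟨a, ha, h⟩ := Gs_low s hε
  refine ⟨1 / 3 * (a * Real.exp (-((2 + ε) * |c|))), by positivity, fun X hX => ?_⟩
  have hX0 : 0 < X := by linarith
  have hX1 : 1 ≤ X := by linarith
  obtain ⟨U, hU⟩ : ∃ U : ℝ, U = X ^ ((2 : ℝ) / 3) := ⟨_, rfl⟩
  have hU0 : 0 < U := by rw [hU]; positivity
  have hU1 : 3 / 2 ≤ U := by
    have h1 : (3 / 2 : ℝ) ^ 3 ≤ U ^ 3 := by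
      have : U ^ 3 = X ^ 2 := by
        rw [hU, ← Real.rpow_natCast, ← Real.rpow_mul hX0.le]
        norm_num
      rw [this]
      nlinarith
    exact le_of_pow_le_pow_left₀ (by norm_num) hU0.le h1
  have hUX : U ^ ((3 : ℝ) / 2) = X := by
    rw [hU, ← Real.rpow_mul hX0.le]
    norm_num
  -- the smallest value
  obtain ⟨B, hB⟩ : ∃ B : ℝ, B = a * Real.exp (-((2 + ε) * |c|)) * X ^ (-((2 + ε) * δ)) := ⟨_, rfl⟩
  have hlogX : 0 ≤ Real.log X := Real.log_nonneg hX1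
  have h1 : B ≤ Gs s (slo δ c X) := by
    have h2 : slo δ c X ≤ δ * Real.log X + |c| := by
      unfold slo
      linarith [le_abs_self c]
    have h3 : 0 ≤ δ * Real.log X + |c| := by positivity
    refine le_trans ?_ (Gs_anti s h2)
    refine le_trans (le_of_eq ?_) (h _ h3)
    rw [hB, Real.rpow_def_of_pos hX0, mul_assoc, ← Real.exp_add]
    congr 2
    ring
  have h2 : ∫ _u in (1 : ℝ)..U, B ≤ ∫ u in (1 : ℝ)..U, Gs s (slo δ c (u ^ ((3 : ℝ) / 2))) := by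
    refine intervalIntegral.integral_mono_on (by linarith) intervalIntegrable_const
      (Mt_anti hδ (by linarith)).intervalIntegrable fun u hu => ?_
    refine h1.trans (Gs_anti s ?_)
    rw [← hUX]
    refine slo_mono hδ c (Set.mem_Ici.2 (Real.one_le_rpow hu.1 (by norm_num)))
      (Set.mem_Ici.2 (Real.one_le_rpow (by linarith) (by norm_num))) ?_
    exact Real.rpow_le_rpow (by linarith [hu.1]) hu.2 (by norm_num)
  rw [intervalIntegral.integral_const, smul_eq_mul] at h2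
  unfold Mt
  rw [← hU]
  refine le_trans ?_ h2
  have hB0 : 0 ≤ B := by rw [hB]; positivity
  have h3 : 1 / 3 * U * B ≤ (U - 1) * B := mul_le_mul_of_nonneg_right (by linarith) hB0
  refine le_trans (le_of_eq ?_) h3
  rw [hU, hB]
  have : X ^ (2 / 3 - (2 + ε) * δ) = X ^ ((2 : ℝ) / 3) * X ^ (-((2 + ε) * δ)) := by
    rw [← Real.rpow_add hX0]
    congr 1
  rw [this]
  ring

/-- upper bound for the main term -/
theorem Mt_up (s : Bool) {ε : ℝ} (hε : 0 < ε) (hε1 : ε ≤ 1) {δ : ℝ} (hδ : 0 ≤ δ) (hδ1 : δ ≤ 1 / 6)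
    (c : ℝ) : ∃ b : ℝ, 0 < b ∧ ∀ X : ℝ, 1 ≤ X →
      Mt s (slo δ c) X ≤ b * X ^ (2 / 3 - 2 * (1 - ε) * δ) := by
  obtain ⟨A, hA, h⟩ := Gs_up s hε hε1
  obtain ⟨r, hr⟩ : ∃ r : ℝ, r = -(3 * (1 - ε) * δ) := ⟨_, rfl⟩
  have hr1 : -1 < r := by
    rw [hr]
    nlinarith
  have hr0 : r ≤ 0 := by
    rw [hr]
    have : 0 ≤ 3 * (1 - ε) * δ := by
      have : 0 ≤ 1 - ε := by linarith
      positivity
    linarith
  have hr2 : 0 < r + 1 := by linarith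
  refine ⟨A * Real.exp (-(2 * (1 - ε) * c)) / (r + 1), by positivity, fun X hX => ?_⟩
  have hX0 : 0 < X := by linarith
  obtain ⟨U, hU⟩ : ∃ U : ℝ, U = X ^ ((2 : ℝ) / 3) := ⟨_, rfl⟩
  have hU1 : 1 ≤ U := by rw [hU]; exact Real.one_le_rpow hX (by norm_num)
  have hU0 : 0 < U := by linarith
  unfold Mt
  rw [← hU]
  have h1 : ∫ u in (1 : ℝ)..U, Gs s (slo δ c (u ^ ((3 : ℝ) / 2))) ≤
      ∫ u in (1 : ℝ)..U, A * Real.exp (-(2 * (1 - ε) * c)) * u ^ r := by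
    refine intervalIntegral.integral_mono_on hU1 (Mt_anti hδ hU1).intervalIntegrable
      ((intervalIntegral.intervalIntegrable_rpow' hr1).const_mul _) fun u hu => ?_
    have hu0 : 0 < u := by linarith [hu.1]
    refine (h _).trans (le_of_eq ?_)
    have e : -(2 * (1 - ε) * slo δ c (u ^ ((3 : ℝ) / 2))) =
        -(2 * (1 - ε) * c) + Real.log u * r := by
      unfold slo
      rw [Real.log_rpow hu0, hr]
      ring
    rw [e, Real.exp_add, Real.rpow_def_of_pos hu0]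
    ring
  refine h1.trans ?_
  rw [intervalIntegral.integral_const_mul, integral_rpow (Or.inl hr1), Real.one_rpow]
  have h2 : U ^ (r + 1) = X ^ (2 / 3 - 2 * (1 - ε) * δ) := by
    rw [hU, ← Real.rpow_mul hX0.le]
    congr 1
    rw [hr]
    ring
  rw [h2]
  have h3 : 0 < A * Real.exp (-(2 * (1 - ε) * c)) := by positivity
  have h4 : A * Real.exp (-(2 * (1 - ε) * c)) * ((X ^ (2 / 3 - 2 * (1 - ε) * δ) - 1) / (r + 1)) ≤
      A * Real.exp (-(2 * (1 - ε) * c)) * (X ^ (2 / 3 - 2 * (1 - ε) * δ) / (r + 1)) := by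
    refine mul_le_mul_of_nonneg_left ?_ h3.le
    exact div_le_div_of_nonneg_right (by linarith) hr2.le
  refine h4.trans (le_of_eq ?_)
  ring

/-- **The asymptotic number of the violators.** -/
theorem ratio (s : Bool) {C ν : ℝ} {δ : ℝ} (hδ : 0 ≤ δ) (hδν : δ < ν) (c : ℝ)
    {f : ℝ → ℝ} (h : ∀ X : ℝ, 1 ≤ X → |f X - Mt s (slo δ c) X| ≤ C * X ^ (2 / 3 - 2 * ν)) :
    Tendsto (fun X : ℝ => f X / Mt s (slo δ c) X) atTop (𝓝 1) := by
  obtain ⟨ε, hε, hεν⟩ : ∃ ε : ℝ, 0 < ε ∧ (2 + ε) * δ < 2 * ν := by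
    refine ⟨(ν - δ) / (δ + 1), div_pos (by linarith) (by linarith), ?_⟩
    have h1 : (ν - δ) / (δ + 1) * δ ≤ ν - δ := by
      rw [div_mul_eq_mul_div, div_le_iff₀ (by linarith)]
      nlinarith
    nlinarith
  obtain ⟨b, hb, hm⟩ := Mt_low s hε hδ c
  have hC0 : 0 ≤ C := by
    have h1 := h 1 le_rfl
    rw [Real.one_rpow, mul_one] at h1
    exact (abs_nonneg _).trans h1
  have h1 : Tendsto (fun X : ℝ => C / b * X ^ (-(2 * ν - (2 + ε) * δ))) atTop (𝓝 0) := by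
    have := (tendsto_rpow_neg_atTop (by linarith : 0 < 2 * ν - (2 + ε) * δ)).const_mul (C / b)
    rwa [mul_zero] at this
  rw [tendsto_iff_dist_tendsto_zero]
  refine squeeze_zero' (Eventually.of_forall fun X => dist_nonneg) ?_ h1
  filter_upwards [eventually_ge_atTop 2] with X hX
  have hX0 : 0 < X := by linarith
  have h2 := h X (by linarith)
  have h3 := hm X hX
  obtain ⟨I, hI⟩ : ∃ I : ℝ, I = Mt s (slo δ c) X := ⟨_, rfl⟩
  rw [← hI] at h2 h3 ⊢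
  have h4 : 0 < b * X ^ (2 / 3 - (2 + ε) * δ) := by positivity
  have hI0 : 0 < I := lt_of_lt_of_le h4 h3
  have h5 : f X / I - 1 = (f X - I) / I := by
    field_simp
  rw [Real.dist_eq, h5, abs_div, abs_of_pos hI0, div_le_iff₀ hI0]
  refine h2.trans ?_
  have h6 : C / b * X ^ (-(2 * ν - (2 + ε) * δ)) * (b * X ^ (2 / 3 - (2 + ε) * δ)) ≤
      C / b * X ^ (-(2 * ν - (2 + ε) * δ)) * I :=
    mul_le_mul_of_nonneg_left h3 (by positivity)
  refine le_trans (le_of_eq ?_) h6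
  have h7 : X ^ (2 / 3 - 2 * ν) = X ^ (-(2 * ν - (2 + ε) * δ)) * X ^ (2 / 3 - (2 + ε) * δ) := by
    rw [← Real.rpow_add hX0]
    congr 1
    ring
  rw [h7]
  field_simp

/-- the law is complete below -/
lemma Gs_full : ∃ z0 : ℝ, ∀ (s : Bool) (z : ℝ), z ≤ z0 → Gs s z = ks s := by
  refine ⟨(Pool.Agent.R465.FH.ar 1 - 2 * Real.log 2) / 12, fun s z hz => ?_⟩
  unfold Gs ks
  refine tsum_congr fun w => ?_
  rcases Nat.eq_zero_or_pos w with hw | hw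
  · rw [hw, Pool.Agent.V7H9.AL.wgt_zero]
    ring
  · have hm : (1 / 2 : ℝ) ≤ mw w := by
      have h1 : 2 ^ v2 w ≤ w := Nat.le_of_dvd hw (Nat.ordProj_dvd w 2)
      have h2 : (2 : ℝ) ^ v2 w ≤ w := by exact_mod_cast h1
      unfold mw
      rw [le_div_iff₀ (by positivity)]
      have h3 : (2 : ℝ) ^ min 4 (v2 w + 1) ≤ 2 ^ (v2 w + 1) :=
        pow_le_pow_right₀ (by norm_num) (min_le_right _ _)
      have h4 : (2 : ℝ) ^ (v2 w + 1) = 2 * 2 ^ v2 w := by ring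
      split_ifs <;> linarith
    have h1 : thw z w = 1 / 2 := by
      refine Tx_half ?_
      have h2 : Real.log (1 / 2) ≤ Real.log (mw w) := Real.log_le_log (by norm_num) hm
      rw [one_div, Real.log_inv] at h2
      linarith
    rw [h1]

end Pool.Agent.V7H9.FR
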