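import Pool.Agent.R465.FH.Ax2

set_option autoImplicit false

/-!
# The archimedean term of the curves `y² = x (x - 1) (x - t)`, `0 < t ≤ 1/2`
-/

namespace Pool.Agent.V7H9.FR

open Filter Topology
open Pool.Agent.R465.FH (J ar J_mono J_one J_surj J_cont ar_mono ar_surj ar_cont dl dl_pos qq e6)

/-- the modular invariant of `y² = x (x - 1) (x - t)` -/
noncomputable def jl (t : ℝ) : ℝ := 256 * (1 - t + t ^ 2) ^ 3 / (t * (1 - t)) ^ 2

lemma jl_s {t : ℝ} : jl t = 256 * (1 - t * (1 - t)) ^ 3 / (t * (1 - t)) ^ 2 := by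
  unfold jl
  congr 3
  ring

lemma jl_lt {t t' : ℝ} (ht : 0 < t) (h : t < t') (h' : t' ≤ 1 / 2) : jl t' < jl t := by
  rw [jl_s, jl_s]
  have s0 : 0 < t * (1 - t) := mul_pos ht (by linarith)
  have s1 : t * (1 - t) < t' * (1 - t') := by nlinarith
  have s2 : t' * (1 - t') ≤ 1 / 4 := by nlinarith [sq_nonneg (t' - 1 / 2)]
  obtain ⟨s, hs⟩ : ∃ s : ℝ, s = t * (1 - t) := ⟨_, rfl⟩
  obtain ⟨r, hr⟩ : ∃ r : ℝ, r = t' * (1 - t') := ⟨_, rfl⟩
  rw [← hs] at s0 s1 ⊢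
  rw [← hr] at s1 s2 ⊢
  have hr0 : 0 < r := by linarith
  rw [div_lt_div_iff₀ (by positivity) (by positivity)]
  have h1 : (1 - r) ^ 3 ≤ (1 - s) ^ 3 := pow_le_pow_left₀ (by linarith) (by linarith) 3
  have h2 : s ^ 2 < r ^ 2 := pow_lt_pow_left₀ s1 s0.le (by norm_num)
  have h3 : 0 < (1 - s) ^ 3 := by
    have : 0 < 1 - s := by linarith
    positivity
  calc 256 * (1 - r) ^ 3 * s ^ 2 ≤ 256 * (1 - s) ^ 3 * s ^ 2 := by
        have : 0 < s ^ 2 := by positivity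
        nlinarith
    _ < 256 * (1 - s) ^ 3 * r ^ 2 := by
        refine mul_lt_mul_of_pos_left h2 (by positivity)

lemma jl_half : jl (1 / 2) = 1728 := by
  unfold jl
  norm_num

lemma jl_le_iff {t t' : ℝ} (ht : 0 < t) (ht1 : t ≤ 1 / 2) (ht' : 0 < t') (ht1' : t' ≤ 1 / 2) :
    jl t ≤ jl t' ↔ t' ≤ t := by
  constructor
  · intro h
    by_contra hc
    push Not at hc
    exact absurd (jl_lt ht hc ht1') (not_lt.2 h)
  · intro h
    rcases eq_or_lt_of_le h with h | h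
    · rw [h]
    · exact (jl_lt ht' h ht1).le

lemma jl_inj {t t' : ℝ} (ht : 0 < t) (ht1 : t ≤ 1 / 2) (ht' : 0 < t') (ht1' : t' ≤ 1 / 2)
    (h : jl t = jl t') : t = t' :=
  le_antisymm ((jl_le_iff ht' ht1' ht ht1).1 h.symm.le) ((jl_le_iff ht ht1 ht' ht1').1 h.le)

lemma jl_ge {t : ℝ} (ht : 0 < t) (ht1 : t ≤ 1 / 2) : 1728 ≤ jl t := by
  rw [← jl_half]
  exact (jl_le_iff (by norm_num) le_rfl ht ht1).2 ht1

lemma jl_cont : ContinuousOn jl (Set.Ioc 0 (1 / 2)) := by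
  unfold jl
  refine ContinuousOn.div (by fun_prop) (by fun_prop) fun t ht => ?_
  have : 0 < t * (1 - t) := mul_pos ht.1 (by linarith [ht.2])
  positivity

/-- lower bound near `0` -/
lemma jl_low {t : ℝ} (ht : 0 < t) (ht1 : t ≤ 1 / 2) : 108 / t ^ 2 ≤ jl t := by
  rw [jl_s, div_le_div_iff₀ (by positivity) (by
    have : 0 < t * (1 - t) := mul_pos ht (by linarith)
    positivity)]
  have s2 : t * (1 - t) ≤ 1 / 4 := by nlinarith [sq_nonneg (t - 1 / 2)]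
  have h1 : (27 : ℝ) / 64 ≤ (1 - t * (1 - t)) ^ 3 := by
    have : (3 / 4 : ℝ) ^ 3 ≤ (1 - t * (1 - t)) ^ 3 :=
      pow_le_pow_left₀ (by norm_num) (by linarith) 3
    norm_num at this
    exact this
  have h2 : (t * (1 - t)) ^ 2 ≤ t ^ 2 := by
    refine pow_le_pow_left₀ (mul_nonneg ht.le (by linarith)) ?_ 2
    nlinarith
  have h3 : 0 < t ^ 2 := by positivity
  nlinarith

lemma jl_up {t : ℝ} (ht : 0 < t) (ht1 : t ≤ 1 / 2) : jl t ≤ 1024 / t ^ 2 := by
  rw [jl_s, div_le_div_iff₀ (by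
    have : 0 < t * (1 - t) := mul_pos ht (by linarith)
    positivity) (by positivity)]
  have s0 : 0 < t * (1 - t) := mul_pos ht (by linarith)
  have h1 : (1 - t * (1 - t)) ^ 3 ≤ 1 := by
    refine pow_le_one₀ ?_ ?_
    · nlinarith [sq_nonneg (t - 1 / 2)]
    · linarith
  have h2 : t ^ 2 / 4 ≤ (t * (1 - t)) ^ 2 := by
    have h4 : t / 2 ≤ t * (1 - t) := by nlinarith
    have := pow_le_pow_left₀ (by positivity) h4 2
    calc t ^ 2 / 4 = (t / 2) ^ 2 := by ring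
      _ ≤ _ := this
  have h3 : 0 < t ^ 2 := by positivity
  nlinarith

lemma jl_surj {j : ℝ} (hj : 1728 ≤ j) : ∃ t : ℝ, 0 < t ∧ t ≤ 1 / 2 ∧ jl t = j := by
  -- a point where `jl` is large
  obtain ⟨t0, h0, h1, h2⟩ : ∃ t0 : ℝ, 0 < t0 ∧ t0 ≤ 1 / 2 ∧ j ≤ jl t0 := by
    refine ⟨1 / j, by positivity, ?_, ?_⟩
    · rw [div_le_div_iff₀ (by linarith) (by norm_num)]
      linarith
    · refine le_trans ?_ (jl_low (by positivity) ?_)
      · rw [one_div, inv_pow, div_inv_eq_mul]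
        nlinarith
      · rw [div_le_div_iff₀ (by linarith) (by norm_num)]
        linarith
  have hc : ContinuousOn jl (Set.Icc t0 (1 / 2)) :=
    jl_cont.mono fun x hx => ⟨lt_of_lt_of_le h0 hx.1, hx.2⟩
  obtain ⟨t, ht, h3⟩ := intermediate_value_Icc' h1 hc ⟨by rw [jl_half]; exact hj, h2⟩
  exact ⟨t, lt_of_lt_of_le h0 ht.1, ht.2, h3⟩

/-- the point on the axis -/
noncomputable def Yt (t : ℝ) : ℝ := by
  classical
  exact if h : ∃ y : ℝ, 1 ≤ y ∧ J y = jl t then h.choose else 1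

lemma Yt_spec {t : ℝ} (ht : 0 < t) (ht1 : t ≤ 1 / 2) : 1 ≤ Yt t ∧ J (Yt t) = jl t := by
  have h : ∃ y : ℝ, 1 ≤ y ∧ J y = jl t := J_surj (jl_ge ht ht1)
  unfold Yt
  rw [dif_pos h]
  exact h.choose_spec

lemma Yt_eq {t y : ℝ} (ht : 0 < t) (ht1 : t ≤ 1 / 2) (hy : 1 ≤ y) (h : J y = jl t) : y = Yt t := by
  obtain ⟨h1, h2⟩ := Yt_spec ht ht1
  exact J_mono.injOn hy h1 (h.trans h2.symm)

/-- the archimedean term -/
noncomputable def At (t : ℝ) : ℝ := ar (Yt t)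

/-- **The threshold** -/
lemma thr : ∃ T : ℝ → ℝ, (∀ x, 0 < T x ∧ T x ≤ 1 / 2) ∧
    (∀ x t : ℝ, 0 < t → t ≤ 1 / 2 → (x ≤ At t ↔ t ≤ T x)) ∧ (∀ x, x ≤ ar 1 → T x = 1 / 2) ∧
    (∀ x, ar 1 ≤ x → At (T x) = x) := by
  classical
  choose Y hY1 hY using fun a : ℝ => fun h : ar 1 ≤ a => ar_surj h
  have hJ : ∀ a : ℝ, ∀ h : ar 1 ≤ a, 1728 ≤ J (Y a h) := by
    intro a h
    rw [← J_one]
    exact J_mono.monotoneOn Set.self_mem_Ici (hY1 a h) (hY1 a h)
  choose U hU0 hU1 hU using fun a : ℝ => fun h : ar 1 ≤ a => jl_surj (hJ a h)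
  have hY1' : Y (ar 1) le_rfl = 1 :=
    ar_mono.injOn (hY1 _ _) Set.self_mem_Ici (hY _ _)
  refine ⟨fun a => if h : ar 1 ≤ a then U a h else 1 / 2, fun x => ?_, fun x t ht ht1 => ?_,
    fun x hx => ?_, fun x hx => ?_⟩
  · beta_reduce
    split_ifs with h
    · exact ⟨hU0 x h, hU1 x h⟩
    · norm_num
  · beta_reduce
    obtain ⟨h1, h2⟩ := Yt_spec ht ht1
    split_ifs with h
    · have e1 : x ≤ At t ↔ Y x h ≤ Yt t := by
        unfold At
        conv_lhs => rw [← hY x h]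
        exact ar_mono.le_iff_le (hY1 x h) h1
      have e2 : Y x h ≤ Yt t ↔ J (Y x h) ≤ J (Yt t) := (J_mono.le_iff_le (hY1 x h) h1).symm
      rw [e1, e2, ← hU x h, h2]
      exact jl_le_iff (hU0 x h) (hU1 x h) ht ht1
    · refine ⟨fun _ => ht1, fun _ => ?_⟩
      push Not at h
      exact h.le.trans (ar_mono.monotoneOn Set.self_mem_Ici h1 h1)
  · beta_reduce
    split_ifs with h
    · have hx1 : x = ar 1 := le_antisymm hx h
      subst hx1
      have h3 : jl (U (ar 1) h) = jl (1 / 2) := by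
        rw [hU, hY1', J_one, jl_half]
      exact jl_inj (hU0 _ h) (hU1 _ h) (by norm_num) le_rfl h3
    · rfl
  · beta_reduce
    rw [dif_pos hx]
    unfold At
    rw [← Yt_eq (hU0 x hx) (hU1 x hx) (hY1 x hx) (hU x hx).symm]
    exact hY x hx

lemma T_ex : ∃ T : ℝ → ℝ, (∀ x, 0 < T x ∧ T x ≤ 1 / 2) ∧
    (∀ x t : ℝ, 0 < t → t ≤ 1 / 2 → (x ≤ At t ↔ t ≤ T x)) ∧ (∀ x, x ≤ ar 1 → T x = 1 / 2) ∧
    (∀ x, ar 1 ≤ x → At (T x) = x) := thr

/-- the threshold: `x ≤ At t` iff `t ≤ Tx x` -/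
noncomputable def Tx : ℝ → ℝ := thr.choose

lemma Tx_pos (x : ℝ) : 0 < Tx x := (thr.choose_spec.1 x).1
lemma Tx_le (x : ℝ) : Tx x ≤ 1 / 2 := (thr.choose_spec.1 x).2
lemma Tx_iff {x t : ℝ} (ht : 0 < t) (ht1 : t ≤ 1 / 2) : x ≤ At t ↔ t ≤ Tx x :=
  thr.choose_spec.2.1 x t ht ht1
lemma Tx_half {x : ℝ} (h : x ≤ ar 1) : Tx x = 1 / 2 := thr.choose_spec.2.2.1 x h
lemma At_Tx {x : ℝ} (h : ar 1 ≤ x) : At (Tx x) = x := thr.choose_spec.2.2.2 x h

lemma Tx_anti {x x' : ℝ} (h : x ≤ x') : Tx x' ≤ Tx x :=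
  (Tx_iff (Tx_pos _) (Tx_le _)).1 (h.trans ((Tx_iff (Tx_pos _) (Tx_le _)).2 le_rfl))

lemma dl_top {y : ℝ} (hy : 1 ≤ y) : 6 * y ≤ -Real.log (dl y) + (Real.log (dl 1) + 6) := by
  have := Pool.Agent.R465.FH.dl_le le_rfl hy
  linarith

/-- the invariant is comparable with the inverse of the discriminant -/
lemma J_dl : ∃ C : ℝ, 0 < C ∧ ∀ y : ℝ, 1 ≤ y → |Real.log (J y) + Real.log (dl y)| ≤ C := by
  obtain ⟨c, hc⟩ : ∃ c : ℝ, c = min (e6 2 ^ 2) (1728 * dl 2) := ⟨_, rfl⟩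
  have he2 : 0 < e6 2 := lt_of_le_of_lt (Pool.Agent.R465.FH.e6_nonneg le_rfl)
    (Pool.Agent.R465.FH.e6_lt one_pos (by norm_num))
  have hd2 := dl_pos (show (0 : ℝ) < 2 by norm_num)
  have hc0 : 0 < c := by
    rw [hc]
    exact lt_min (by positivity) (by positivity)
  have hd1 := dl_pos one_pos
  obtain ⟨M, hM⟩ : ∃ M : ℝ, M = 1728 * dl 1 + 1 := ⟨_, rfl⟩
  have hM0 : 0 < M := by rw [hM]; positivity
  refine ⟨|Real.log c| + |Real.log M| + 1, by positivity, fun y hy => ?_⟩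
  have hd := dl_pos (show 0 < y by linarith)
  have hJ0 : 0 < J y := by
    have := Pool.Agent.R465.FH.J_mono.monotoneOn Set.self_mem_Ici hy hy
    rw [J_one] at this
    linarith
  have e6n := Pool.Agent.R465.FH.e6_nonneg hy
  have e61 : e6 y ≤ 1 := by
    unfold Pool.Agent.R465.FH.e6
    have : 0 ≤ Pool.Agent.R465.FH.S 5 (qq y) := by
      unfold Pool.Agent.R465.FH.S
      refine tsum_nonneg fun n => ?_
      have := Pool.Agent.R465.FH.qq_pos y
      positivity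
    linarith
  have h1 : J y * dl y ≤ M := by
    have h2 : J y * dl y = 1728 * dl y + e6 y ^ 2 := by
      unfold Pool.Agent.R465.FH.J
      field_simp
    have h3 := Pool.Agent.R465.FH.dl_le' le_rfl hy
    have h4 : e6 y ^ 2 ≤ 1 := pow_le_one₀ e6n e61
    rw [h2, hM]
    linarith
  have h2 : c ≤ J y * dl y := by
    rcases le_or_gt 2 y with h | h
    · have h3 : J y * dl y = 1728 * dl y + e6 y ^ 2 := by
        unfold Pool.Agent.R465.FH.J
        field_simp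
      have h4 : e6 2 ≤ e6 y := by
        rcases eq_or_lt_of_le h with h | h
        · rw [← h]
        · exact (Pool.Agent.R465.FH.e6_lt (by norm_num) h).le
      have h5 := pow_le_pow_left₀ he2.le h4 2
      have h6 : c ≤ e6 2 ^ 2 := by rw [hc]; exact min_le_left _ _
      rw [h3]
      linarith [mul_pos (show (0 : ℝ) < 1728 by norm_num) hd]
    · have h3 := Pool.Agent.R465.FH.dl_le' hy h.le
      have h4 := Pool.Agent.R465.FH.J_mono.monotoneOn Set.self_mem_Ici hy hy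
      rw [J_one] at h4
      have h5 : c ≤ 1728 * dl 2 := by rw [hc]; exact min_le_right _ _
      calc c ≤ 1728 * dl 2 := h5
        _ ≤ J y * dl y := mul_le_mul h4 h3 hd2.le hJ0.le
  have h3 : Real.log (J y) + Real.log (dl y) = Real.log (J y * dl y) :=
    (Real.log_mul hJ0.ne' hd.ne').symm
  have h4 := Real.log_le_log hc0 h2
  have h5 := Real.log_le_log (mul_pos hJ0 hd) h1
  rw [h3, abs_le]
  have g1 := neg_abs_le (Real.log c)
  have g2 := le_abs_self (Real.log M)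
  have g3 := abs_nonneg (Real.log c)
  have g4 := abs_nonneg (Real.log M)
  constructor <;> linarith

lemma At_up : ∃ C : ℝ, 0 < C ∧ ∀ t : ℝ, 0 < t → t ≤ 1 / 2 → At t ≤ -2 * Real.log t + C := by
  obtain ⟨C, hC, h⟩ := J_dl
  refine ⟨C + |Real.log 1024|, by positivity, fun t ht ht1 => ?_⟩
  obtain ⟨h1, h2⟩ := Yt_spec ht ht1
  have h3 := (abs_le.1 (h _ h1)).1
  have h4 : Real.log (jl t) ≤ Real.log 1024 - 2 * Real.log t := by
    have h5 := Real.log_le_log (by linarith [jl_ge ht ht1]) (jl_up ht ht1)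
    rw [Real.log_div (by norm_num) (by positivity), Real.log_pow] at h5
    push_cast at h5
    exact h5
  have h6 : 0 ≤ Real.log (Yt t) := Real.log_nonneg h1
  have h7 := le_abs_self (Real.log 1024)
  rw [h2] at h3
  unfold At Pool.Agent.R465.FH.ar
  linarith

lemma At_low {ε : ℝ} (hε : 0 < ε) (hε1 : ε < 1) : ∃ C : ℝ, 0 < C ∧ ∀ t : ℝ, 0 < t → t ≤ 1 / 2 →
    -2 * (1 - ε) * Real.log t - C ≤ At t := by
  obtain ⟨C, hC, h⟩ := J_dl
  -- `log y ≤ ε y + C'`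
  have hlog : ∀ y : ℝ, 0 < y → Real.log y ≤ ε * y + (-Real.log ε) := by
    intro y hy
    have h1 := Real.log_le_sub_one_of_pos (mul_pos hε hy)
    rw [Real.log_mul hε.ne' hy.ne'] at h1
    linarith
  refine ⟨C + |Real.log (dl 1) + 6| + 6 * |Real.log ε| + |Real.log 108|, by positivity,
    fun t ht ht1 => ?_⟩
  obtain ⟨h1, h2⟩ := Yt_spec ht ht1
  have h3 := (abs_le.1 (h _ h1)).2
  have h4 : Real.log 108 - 2 * Real.log t ≤ Real.log (jl t) := by
    have h5 := Real.log_le_log (by positivity) (jl_low ht ht1)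
    rw [Real.log_div (by norm_num) (by positivity), Real.log_pow] at h5
    push_cast at h5
    exact h5
  have h6 := hlog _ (show 0 < Yt t by linarith)
  have h7 := dl_top h1
  rw [h2] at h3
  have g1 := neg_abs_le (Real.log 108)
  have g2 := le_abs_self (Real.log (dl 1) + 6)
  have g3 := neg_abs_le (Real.log ε)
  have g4 := abs_nonneg (Real.log 108)
  have g5 := abs_nonneg (Real.log (dl 1) + 6)
  have g6 := abs_nonneg (Real.log ε)
  unfold At Pool.Agent.R465.FH.ar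
  obtain ⟨L, hL⟩ : ∃ L : ℝ, L = -Real.log (dl (Yt t)) := ⟨_, rfl⟩
  have e : Real.log (dl (Yt t)) = -L := by rw [hL]; ring
  rw [e] at h3
  rw [← hL] at h7
  rw [e]
  -- `L ≥ log jl - C`
  have k1 : Real.log (jl t) - C ≤ L := by linarith
  have k2 : -2 * Real.log t - |Real.log 108| - C ≤ L := by linarith
  have k3 : (1 - ε) * (-2 * Real.log t - |Real.log 108| - C) ≤ (1 - ε) * L :=
    mul_le_mul_of_nonneg_left k2 (by linarith)
  have k4 : 6 * Real.log (Yt t) ≤ ε * L + ε * |Real.log (dl 1) + 6| + 6 * |Real.log ε| := by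
    have : ε * (6 * Yt t) ≤ ε * (L + (Real.log (dl 1) + 6)) := mul_le_mul_of_nonneg_left h7 hε.le
    have h8 : ε * (Real.log (dl 1) + 6) ≤ ε * |Real.log (dl 1) + 6| :=
      mul_le_mul_of_nonneg_left g2 hε.le
    linarith
  have k5 : ε * |Real.log (dl 1) + 6| ≤ 1 * |Real.log (dl 1) + 6| :=
    mul_le_mul_of_nonneg_right hε1.le g5
  have k6 : 0 ≤ ε * (|Real.log 108| + C) := by positivity
  have k7 : 0 ≤ |Real.log (dl 1) + 6| := g5
  linarith

lemma Tx_up : ∃ C : ℝ, 0 < C ∧ ∀ x : ℝ, Tx x ≤ C * Real.exp (-(x / 2)) := by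
  obtain ⟨C, hC, h⟩ := At_up
  refine ⟨Real.exp (C / 2) + Real.exp (ar 1 / 2), by positivity, fun x => ?_⟩
  rw [add_mul]
  have p1 : 0 < Real.exp (C / 2) * Real.exp (-(x / 2)) := by positivity
  have p2 : 0 < Real.exp (ar 1 / 2) * Real.exp (-(x / 2)) := by positivity
  rcases le_or_gt (ar 1) x with hx | hx
  · have h1 := h (Tx x) (Tx_pos x) (Tx_le x)
    rw [At_Tx hx] at h1
    have h2 : Real.log (Tx x) ≤ C / 2 + -(x / 2) := by linarith
    have h3 := (Real.log_le_iff_le_exp (Tx_pos x)).1 h2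
    rw [Real.exp_add] at h3
    linarith
  · have h1 := Tx_le x
    have h2 : 1 ≤ Real.exp (ar 1 / 2) * Real.exp (-(x / 2)) := by
      rw [← Real.exp_add]
      exact Real.one_le_exp (by linarith)
    linarith

lemma Tx_low {ε : ℝ} (hε : 0 < ε) (hε1 : ε < 1) : ∃ c : ℝ, 0 < c ∧ ∀ x : ℝ, 0 ≤ x →
    c * Real.exp (-(x / (2 * (1 - ε)))) ≤ Tx x := by
  obtain ⟨C, hC, h⟩ := At_low hε hε1
  have hd : 0 < 2 * (1 - ε) := by linarith
  refine ⟨min (1 / 2) (Real.exp (-(C / (2 * (1 - ε))))), lt_min (by norm_num) (by positivity),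
    fun x hx0 => ?_⟩
  rcases le_or_gt (ar 1) x with hx | hx
  · have h1 := h (Tx x) (Tx_pos x) (Tx_le x)
    rw [At_Tx hx] at h1
    have h2 : -(C / (2 * (1 - ε))) + -(x / (2 * (1 - ε))) ≤ Real.log (Tx x) := by
      have e : -(C / (2 * (1 - ε))) + -(x / (2 * (1 - ε))) = -(C + x) / (2 * (1 - ε)) := by ring
      rw [e, div_le_iff₀ hd]
      linarith
    have h3 := (Real.le_log_iff_exp_le (Tx_pos x)).1 h2
    rw [Real.exp_add] at h3
    refine le_trans ?_ h3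
    exact mul_le_mul_of_nonneg_right (min_le_right _ _) (Real.exp_pos _).le
  · rw [Tx_half hx.le]
    have h1 : Real.exp (-(x / (2 * (1 - ε)))) ≤ 1 := by
      refine Real.exp_le_one_iff.2 ?_
      have : 0 ≤ x / (2 * (1 - ε)) := by positivity
      linarith
    calc min (1 / 2) (Real.exp (-(C / (2 * (1 - ε))))) * Real.exp (-(x / (2 * (1 - ε))))
        ≤ 1 / 2 * 1 := mul_le_mul (min_le_left _ _) h1 (Real.exp_pos _).le (by norm_num)
      _ = 1 / 2 := by norm_num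

end Pool.Agent.V7H9.FR
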