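import Pool.Agent.V7H9.FR.Ex

set_option autoImplicit false

/-!
# The invariants, the product of the bad primes and the heights
-/

namespace Pool.Agent.V7H9.FR

open WeierstrassCurve Finset
open Pool.Agent.TH498.AR (psi3)
open Pool.Agent.TH876.FH (jInv arch)
open Pool.Agent.R465.FH (J ar pt jInv_pt arch_pt)
open Pool.Agent.Results.MP_1ea25c_nt.AlmostAllTriples (triples rad3)

/-- the product of the bad primes -/
noncomputable def badProd (E : WeierstrassCurve ℚ) : ℕ :=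
  ∏ᶠ q ∈ {q : ℕ | q.Prime ∧ ¬ GoodAt q E}, q

lemma pn_le {q : ℕ} [Fact q.Prime] {x : ℚ} (h : ¬ q ∣ x.den) : padicNorm q x ≤ 1 := by
  have h1 : x = (x.num : ℚ) / (x.den : ℚ) := (Rat.num_div_den x).symm
  rw [h1, padicNorm.div, (padicNorm.nat_eq_one_iff _).2 h, div_one]
  exact padicNorm.of_int _

lemma bad_finite {E : WeierstrassCurve ℚ} (hE : E.Δ ≠ 0) :
    ({q : ℕ | q.Prime ∧ ¬ GoodAt q E} : Set ℕ).Finite := by
  obtain ⟨D, hD⟩ : ∃ D : ℕ, D = E.a₁.den * E.a₂.den * E.a₃.den * E.a₄.den * E.a₆.den *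
    (E.Δ.den * E.Δ.num.natAbs) := ⟨_, rfl⟩
  have hD0 : D ≠ 0 := by
    rw [hD]
    have h1 := E.a₁.den_pos.ne'
    have h2 := E.a₂.den_pos.ne'
    have h3 := E.a₃.den_pos.ne'
    have h4 := E.a₄.den_pos.ne'
    have h5 := E.a₆.den_pos.ne'
    have h6 := E.Δ.den_pos.ne'
    have h7 : E.Δ.num.natAbs ≠ 0 := by
      rw [Int.natAbs_ne_zero]
      exact Rat.num_ne_zero.2 hE
    exact mul_ne_zero (mul_ne_zero (mul_ne_zero (mul_ne_zero (mul_ne_zero h1 h2) h3) h4) h5)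
      (mul_ne_zero h6 h7)
  refine (D.primeFactors.finite_toSet).subset ?_
  rintro q ⟨hq, hb⟩
  rw [mem_coe, Nat.mem_primeFactors]
  refine ⟨hq, ?_, hD0⟩
  by_contra hcon
  apply hb
  have : Fact q.Prime := ⟨hq⟩
  rw [hD] at hcon
  simp only [hq.dvd_mul, not_or] at hcon
  obtain ⟨⟨⟨⟨⟨h1, h2⟩, h3⟩, h4⟩, h5⟩, h6, h7⟩ := hcon
  refine ⟨1, ?_, ?_⟩
  · rw [one_smul]
    exact ⟨pn_le h1, pn_le h2, pn_le h3, pn_le h4, pn_le h5⟩
  · rw [one_smul]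
    have e : E.Δ = (E.Δ.num : ℚ) / (E.Δ.den : ℚ) := (Rat.num_div_den _).symm
    rw [e, padicNorm.div, (padicNorm.nat_eq_one_iff _).2 h6, div_one]
    refine (padicNorm.int_eq_one_iff _).2 fun h => h7 ?_
    exact Int.natCast_dvd.1 h

/-- the product of the bad primes of the triple -/
def Rm (p : ℕ × ℕ) : ℕ :=
  ∏ q ∈ (tri p).primeFactors.filter (fun q => ¬ (q = 2 ∧ v2 (tri p) = 4)), q

lemma Rm_pos (p : ℕ × ℕ) : 0 < Rm p :=
  prod_pos fun _ hq => (Nat.prime_of_mem_primeFactors (mem_filter.1 hq).1).pos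

lemma mem_R {p : ℕ × ℕ} (hp : IsT p) {q : ℕ} :
    q ∈ (tri p).primeFactors.filter (fun q => ¬ (q = 2 ∧ v2 (tri p) = 4)) ↔
      q.Prime ∧ BadT p q := by
  rw [mem_filter, Nat.mem_primeFactors]
  unfold BadT
  have := (tri_pos hp).ne'
  tauto

lemma Rm_le {p : ℕ × ℕ} (hp : IsT p) {E : WeierstrassCurve ℚ} (hE : E.Δ ≠ 0) (h : FullTwo E)
    (hj : E.c₄ ^ 3 / E.Δ = jF p) : Rm p ≤ badProd E := by
  have hfin := bad_finite hE
  unfold badProd Rm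
  rw [finprod_mem_eq_finite_toFinset_prod _ hfin]
  refine prod_le_prod_of_subset_of_one_le' ?_ ?_
  · intro q hq
    rw [mem_R hp] at hq
    rw [Set.Finite.mem_toFinset]
    exact ⟨hq.1, bad_of hq.1 hp hq.2 h hj⟩
  · intro q hq _
    rw [Set.Finite.mem_toFinset] at hq
    exact hq.1.one_lt.le

lemma Rm_eq {p : ℕ × ℕ} (hp : IsT p) {E : WeierstrassCurve ℚ} (hE : E.Δ ≠ 0) (h : FullTwo E)
    (hj : E.c₄ ^ 3 / E.Δ = jF p) (hb : ∀ q : ℕ, q.Prime → ¬ GoodAt q E → BadT p q) :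
    badProd E = Rm p := by
  have hfin := bad_finite hE
  unfold badProd Rm
  rw [finprod_mem_eq_finite_toFinset_prod _ hfin]
  congr 1
  ext q
  rw [Set.Finite.mem_toFinset, mem_R hp]
  constructor
  · rintro ⟨h1, h2⟩
    exact ⟨h1, hb q h1 h2⟩
  · rintro ⟨h1, h2⟩
    exact ⟨h1, bad_of h1 hp h2 h hj⟩

/-- for semistable curves -/
lemma Rm_semi {p : ℕ × ℕ} (hp : IsT p) {E : WeierstrassCurve ℚ} (hE : E.Δ ≠ 0) (h : FullTwo E)
    (hj : E.c₄ ^ 3 / E.Δ = jF p) (hs : ∀ q : ℕ, q.Prime → SemiAt q E) : badProd E = Rm p := by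
  refine Rm_eq hp hE h hj fun q hq hbad => ?_
  have : Fact q.Prime := ⟨hq⟩
  obtain ⟨C, h1, h2⟩ := hs q hq
  have h3 : padicNorm q (C • E).Δ ≠ 1 := fun h3 => hbad ⟨C, h1, h3⟩
  have h4 : padicNorm q (C • E).c₄ = 1 := h2.resolve_left h3
  have h5 : padicNorm q (C • E).Δ < 1 := lt_of_le_of_ne (D_int h1) h3
  have h6 : (C • E).Δ ≠ 0 := by
    rw [variableChange_Δ]
    exact mul_ne_zero (pow_ne_zero _ (Units.ne_zero _)) hE
  have h7 : 0 < padicNorm q (C • E).Δ :=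
    lt_of_le_of_ne (padicNorm.nonneg _) (padicNorm.nonzero h6).symm
  have h8 : 1 < padicNorm q (jF p) := by
    rw [← hj, ← j_change E C, padicNorm.div, pn_pow, h4, one_pow, lt_div_iff₀ h7, one_mul]
    exact h5
  constructor
  · -- `q` divides `abc`
    by_contra hcon
    have e3 : padicNorm q (tri p : ℚ) = 1 := (padicNorm.nat_eq_one_iff _).2 hcon
    unfold jF at h8
    rw [padicNorm.div, padicNorm.mul, pn_pow, pn_pow, e3, one_pow, div_one] at h8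
    have k1 : padicNorm q (256 : ℚ) ≤ 1 := by
      have := pn_nat (q := q) 256
      exact_mod_cast this
    have k2 : padicNorm q (nor p : ℚ) ^ 3 ≤ 1 := pow_le_one₀ (padicNorm.nonneg _) (pn_nat _)
    have := mul_le_one₀ k1 (pow_nonneg (padicNorm.nonneg _) 3) k2
    linarith
  · rintro ⟨rfl, hv⟩
    rw [jF_two hp, hv] at h8
    norm_num at h8

/-- the two cases for the product of the bad primes -/
lemma Rm_val {p : ℕ × ℕ} (hp : IsT p) :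
    (v2 (psi3 ∅ p) = 3 → 2 * Rm p = rad3 p) ∧ (v2 (psi3 ∅ p) ≠ 3 → Rm p = rad3 p) := by
  have hr : rad3 p = ∏ q ∈ (tri p).primeFactors, q := rfl
  constructor
  · intro h
    have h4 : v2 (tri p) = 4 := by rw [v2_tri hp, h]
    have h2 : 2 ∈ (tri p).primeFactors :=
      Nat.mem_primeFactors.2 ⟨Nat.prime_two, two_dvd_tri p, (tri_pos hp).ne'⟩
    have e : (tri p).primeFactors.filter (fun q => ¬ (q = 2 ∧ v2 (tri p) = 4)) =
        (tri p).primeFactors.erase 2 := by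
      ext q
      rw [mem_filter, mem_erase]
      constructor
      · rintro ⟨a1, a2⟩
        exact ⟨fun h => a2 ⟨h, h4⟩, a1⟩
      · rintro ⟨a1, a2⟩
        exact ⟨a2, fun h => a1 h.1⟩
    unfold Rm
    rw [e, hr]
    exact mul_prod_erase (tri p).primeFactors (fun q : ℕ => q) h2
  · intro h
    have h4 : v2 (tri p) ≠ 4 := by
      rw [v2_tri hp]
      omega
    unfold Rm
    rw [hr, filter_true_of_mem]
    intro q _ h
    exact h4 h.2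

/-- `τ = i y`, `y ≥ 1`, is a period -/
def IsPer (j : ℚ) (τ : UpperHalfPlane) : Prop := τ.re = 0 ∧ 1 ≤ τ.im ∧ jInv τ = ((j : ℚ) : ℂ)

lemma pt_of {τ : UpperHalfPlane} (h0 : τ.re = 0) : τ = pt τ.im τ.im_pos := by
  apply UpperHalfPlane.ext
  apply Complex.ext
  · exact h0
  · rfl

lemma per_arch {p : ℕ × ℕ} (hp : IsT p) {τ : UpperHalfPlane} (h : IsPer (jF p) τ) :
    τ = pt (Yt (tt p)) (lt_of_lt_of_le one_pos (Yt_spec (tt_pos hp) (tt_le hp)).1) ∧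
      arch τ = At (tt p) := by
  obtain ⟨h0, h1, h2⟩ := h
  have h3 := pt_of h0
  rw [h3, jInv_pt] at h2
  have h4 : J τ.im = jl (tt p) := by
    rw [← jF_cast hp]
    have : ((jF p : ℚ) : ℂ) = (((jF p : ℚ) : ℝ) : ℂ) := by norm_cast
    rw [this] at h2
    exact_mod_cast h2
  have h5 := Yt_eq (tt_pos hp) (tt_le hp) h1 h4
  constructor
  · rw [h3]
    congr 1
  · rw [h3, arch_pt]
    unfold At
    rw [← h5]

lemma per_ex {p : ℕ × ℕ} (hp : IsT p) : ∃! τ, IsPer (jF p) τ := by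
  obtain ⟨h1, h2⟩ := Yt_spec (tt_pos hp) (tt_le hp)
  refine ⟨pt (Yt (tt p)) (lt_of_lt_of_le one_pos h1), ⟨rfl, h1, ?_⟩, fun τ h => (per_arch hp h).1⟩
  rw [jInv_pt, h2, ← jF_cast hp]
  norm_cast

/-- the height -/
noncomputable def ht (j : ℚ) (τ : UpperHalfPlane) : ℝ := (Real.log (j.den : ℝ) + arch τ) / 12

/-- the size of the height -/
noncomputable def val (p : ℕ × ℕ) : ℝ :=
  (Real.log ((jF p).den : ℝ) + At (tt p)) / 12 - 1 / 6 * Real.log (Rm p : ℝ)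

/-- the triples of the family, `s`: semistable -/
def Fam (s : Bool) (p : ℕ × ℕ) : Prop := IsT p ∧ (s = true → 4 ≤ v2 (tri p))

/-- the invariants -/
def Inv (s : Bool) (X : ℝ) : Set ℚ :=
  {j | ∃ E : WeierstrassCurve ℚ, E.Δ ≠ 0 ∧ FullTwo E ∧
    (s = true → ∀ q : ℕ, q.Prime → SemiAt q E) ∧ E.c₄ ^ 3 / E.Δ = j ∧ (badProd E : ℝ) ≤ X}

/-- the violators -/
def Vio (s : Bool) (φ : ℝ → ℝ) (X : ℝ) : Set ℚ :=
  {j | ∃ (E : WeierstrassCurve ℚ) (τ : UpperHalfPlane), E.Δ ≠ 0 ∧ FullTwo E ∧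
    (s = true → ∀ q : ℕ, q.Prime → SemiAt q E) ∧ E.c₄ ^ 3 / E.Δ = j ∧ (badProd E : ℝ) ≤ X ∧
    IsPer j τ ∧ 1 / 6 * Real.log (badProd E : ℝ) + φ (badProd E : ℝ) ≤ ht j τ}

lemma ex_fam {s : Bool} {p : ℕ × ℕ} (hp : Fam s p) : ∃ E : WeierstrassCurve ℚ, E.Δ ≠ 0 ∧
    FullTwo E ∧ (s = true → ∀ q : ℕ, q.Prime → SemiAt q E) ∧ E.c₄ ^ 3 / E.Δ = jF p ∧
    badProd E = Rm p := by
  obtain ⟨hT, hs⟩ := hp
  by_cases hv : 4 ≤ v2 (tri p)
  · obtain ⟨E, h1, h2, h3, h4, h5⟩ := ex_semi hT hv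
    exact ⟨E, h1, h2, fun _ => h4, h3, Rm_eq hT h1 h2 h3 h5⟩
  · obtain ⟨E, h1, h2, h3, h4⟩ := ex_frey hT
    refine ⟨E, h1, h2, fun h => absurd (hs h) hv, h3, Rm_eq hT h1 h2 h3 fun q hq hb => ?_⟩
    exact ⟨h4 q hq hb, fun h => hv (by omega)⟩

lemma fam_of {s : Bool} {E : WeierstrassCurve ℚ} (h1 : E.Δ ≠ 0) (h2 : FullTwo E)
    (h3 : s = true → ∀ q : ℕ, q.Prime → SemiAt q E) :
    ∃ p, Fam s p ∧ E.c₄ ^ 3 / E.Δ = jF p := by
  obtain ⟨p, hp, hj⟩ := ex_tri h1 h2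
  exact ⟨p, ⟨hp, fun h => semi_v2 hp h1 h2 (h3 h 2 Nat.prime_two) hj⟩, hj⟩

lemma Inv_eq (s : Bool) (X : ℝ) : Inv s X = jF '' {p | Fam s p ∧ (Rm p : ℝ) ≤ X} := by
  ext j
  constructor
  · rintro ⟨E, h1, h2, h3, rfl, h5⟩
    obtain ⟨p, hp, hj⟩ := fam_of h1 h2 h3
    refine ⟨p, ⟨hp, le_trans ?_ h5⟩, hj.symm⟩
    exact_mod_cast Rm_le hp.1 h1 h2 hj
  · rintro ⟨p, ⟨hp, h⟩, rfl⟩
    obtain ⟨E, h1, h2, h3, h4, h5⟩ := ex_fam hp
    exact ⟨E, h1, h2, h3, h4, by rw [h5]; exact h⟩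

lemma Vio_eq (s : Bool) {φ : ℝ → ℝ} (hφ : MonotoneOn φ (Set.Ici 1)) (X : ℝ) :
    Vio s φ X = jF '' {p | Fam s p ∧ (Rm p : ℝ) ≤ X ∧ φ (Rm p : ℝ) ≤ val p} := by
  ext j
  constructor
  · rintro ⟨E, τ, h1, h2, h3, rfl, h5, h6, h7⟩
    obtain ⟨p, hp, hj⟩ := fam_of h1 h2 h3
    have hle : (Rm p : ℝ) ≤ badProd E := by exact_mod_cast Rm_le hp.1 h1 h2 hj
    have h1R : (1 : ℝ) ≤ Rm p := by exact_mod_cast Rm_pos p
    refine ⟨p, ⟨hp, hle.trans h5, ?_⟩, hj.symm⟩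
    rw [hj] at h6 h7
    unfold ht at h7
    rw [(per_arch hp.1 h6).2] at h7
    have k1 : φ (Rm p : ℝ) ≤ φ (badProd E : ℝ) := hφ h1R (h1R.trans hle) hle
    have k2 : Real.log (Rm p : ℝ) ≤ Real.log (badProd E : ℝ) :=
      Real.log_le_log (by linarith) hle
    unfold val
    linarith
  · rintro ⟨p, ⟨hp, h5, h6⟩, rfl⟩
    obtain ⟨E, h1, h2, h3, h4, h5'⟩ := ex_fam hp
    obtain ⟨τ, hτ, -⟩ := per_ex hp.1
    refine ⟨E, τ, h1, h2, h3, h4, by rw [h5']; exact h5, hτ, ?_⟩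
    unfold ht
    rw [(per_arch hp.1 hτ).2, h5']
    unfold val at h6
    linarith

lemma jF_injOn (s : Bool) : Set.InjOn jF {p | Fam s p} :=
  fun _ hp _ hq h => jF_inj hp.1 hq.1 h

/-- the conductors of the semistable curves -/
def Cnd (X : ℝ) : Set ℕ :=
  {N | (N : ℝ) ≤ X ∧ ∃ E : WeierstrassCurve ℚ, E.Δ ≠ 0 ∧ FullTwo E ∧
    (∀ q : ℕ, q.Prime → SemiAt q E) ∧ badProd E = N}

lemma Cnd_eq (X : ℝ) : Cnd X = Rm '' {p | Fam true p ∧ (Rm p : ℝ) ≤ X} := by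
  ext N
  constructor
  · rintro ⟨h0, E, h1, h2, h3, rfl⟩
    obtain ⟨p, hp, hj⟩ := fam_of (s := true) h1 h2 fun _ => h3
    have e := Rm_semi hp.1 h1 h2 hj h3
    exact ⟨p, ⟨hp, by rw [← e]; exact h0⟩, e.symm⟩
  · rintro ⟨p, ⟨hp, h⟩, rfl⟩
    obtain ⟨E, h1, h2, h3, h4, h5⟩ := ex_fam hp
    exact ⟨h, E, h1, h2, h3 rfl, h5⟩

end Pool.Agent.V7H9.FR
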