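import Mathlib

set_option autoImplicit false

/-!
# From fixed to moving thresholds
-/

namespace Pool.Agent.V7H9.FR

open Finset MeasureTheory

section

variable {Ω : Type*} (S : Set Ω) (R v : Ω → ℝ)

/-- fixed threshold -/
def Ez (z X : ℝ) : Set Ω := {ω | ω ∈ S ∧ R ω ≤ X ∧ z ≤ v ω}

/-- moving threshold -/
def Hi (φ : ℝ → ℝ) (X : ℝ) : Set Ω := {ω | ω ∈ S ∧ R ω ≤ X ∧ φ (R ω) ≤ v ω}

variable {S R v}

lemma mv_block (hfin : ∀ X, ({ω | ω ∈ S ∧ R ω ≤ X} : Set Ω).Finite) {φ : ℝ → ℝ} (hφ : Monotone φ)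
    {Y Z : ℝ} (hYZ : Y ≤ Z) :
    ((Hi S R v φ Z).ncard : ℝ) - (Hi S R v φ Y).ncard ≤
      ((Ez S R v (φ Y) Z).ncard : ℝ) - (Ez S R v (φ Y) Y).ncard ∧
    ((Ez S R v (φ Z) Z).ncard : ℝ) - (Ez S R v (φ Z) Y).ncard ≤
      ((Hi S R v φ Z).ncard : ℝ) - (Hi S R v φ Y).ncard := by
  have hdiff : ∀ {A B : Set Ω}, B ⊆ A → A.Finite →
      ((A \ B).ncard : ℝ) = A.ncard - B.ncard := by
    intro A B h hA
    have h7 := Set.ncard_sdiff_add_ncard_of_subset h hA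
    have : (A.ncard : ℝ) = (A \ B).ncard + B.ncard := by exact_mod_cast h7.symm
    linarith
  have hHi : Hi S R v φ Y ⊆ Hi S R v φ Z := fun p hp => ⟨hp.1, hp.2.1.trans hYZ, hp.2.2⟩
  have hEz : ∀ z, Ez S R v z Y ⊆ Ez S R v z Z := fun z p hp => ⟨hp.1, hp.2.1.trans hYZ, hp.2.2⟩
  have fH : (Hi S R v φ Z).Finite := (hfin Z).subset fun p hp => ⟨hp.1, hp.2.1⟩
  have fE : ∀ z, (Ez S R v z Z).Finite := fun z => (hfin Z).subset fun p hp => ⟨hp.1, hp.2.1⟩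
  constructor
  · rw [← hdiff hHi fH, ← hdiff (hEz _) (fE _)]
    have : Hi S R v φ Z \ Hi S R v φ Y ⊆ Ez S R v (φ Y) Z \ Ez S R v (φ Y) Y := by
      rintro p ⟨⟨h1, h2, h3⟩, h4⟩
      have h5 : Y < R p := by
        by_contra hcon
        push Not at hcon
        exact h4 ⟨h1, hcon, h3⟩
      exact ⟨⟨h1, h2, (hφ h5.le).trans h3⟩, fun h6 => absurd h6.2.1 (not_le.2 h5)⟩
    exact_mod_cast Set.ncard_le_ncard this ((fE _).subset Set.sdiff_subset)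
  · rw [← hdiff hHi fH, ← hdiff (hEz _) (fE _)]
    have : Ez S R v (φ Z) Z \ Ez S R v (φ Z) Y ⊆ Hi S R v φ Z \ Hi S R v φ Y := by
      rintro p ⟨⟨h1, h2, h3⟩, h4⟩
      have h5 : Y < R p := by
        by_contra hcon
        push Not at hcon
        exact h4 ⟨h1, hcon, h3⟩
      exact ⟨⟨h1, h2, (hφ h2).trans h3⟩, fun h6 => absurd h6.2.1 (not_le.2 h5)⟩
    exact_mod_cast Set.ncard_le_ncard this (fH.subset Set.sdiff_subset)

/-- the density -/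
noncomputable def Ph (G φ : ℝ → ℝ) (u : ℝ) : ℝ := G (φ ((max u 0) ^ ((3 : ℝ) / 2)))

lemma Ph_anti {G φ : ℝ → ℝ} (hG : Antitone G) (hφ : Monotone φ) : Antitone (Ph G φ) := by
  intro u v h
  refine hG (hφ ?_)
  exact Real.rpow_le_rpow (le_max_right _ _) (max_le_max h le_rfl) (by norm_num)

/-- **The number of the elements above a moving threshold.** -/
theorem mv_formula (hR : ∀ ω ∈ S, 1 ≤ R ω) (hfin : ∀ X, ({ω | ω ∈ S ∧ R ω ≤ X} : Set Ω).Finite)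
    {G : ℝ → ℝ} (hG : Antitone G) (hG0 : ∀ z, 0 ≤ G z) {M : ℝ} (hM : 0 < M) (hGM : ∀ z, G z ≤ M)
    {C ν : ℝ} (hC : 0 < C) (hν : 0 < ν)
    (h : ∀ z X Y : ℝ, 1 ≤ X → 0 ≤ Y → Y ≤ X →
      |((Ez S R v z Y).ncard : ℝ) - Y ^ ((2 : ℝ) / 3) * G z| ≤ C * X ^ (2 / 3 - ν)) :
    ∀ φ : ℝ → ℝ, Monotone φ → ∀ X : ℝ, 1 ≤ X →
    |((Hi S R v φ X).ncard : ℝ) - ∫ u in (0 : ℝ)..(X ^ ((2 : ℝ) / 3)), Ph G φ u| ≤
      (M + 4 * C) * X ^ (2 / 3 - ν / 2) := by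
  intro φ hφ X hX
  have hX0 : 0 < X := by linarith
  obtain ⟨J, hJ⟩ : ∃ J : ℕ, J = ⌈X ^ (ν / 2)⌉₊ := ⟨_, rfl⟩
  have hJ1 : X ^ (ν / 2) ≤ J := by rw [hJ]; exact Nat.le_ceil _
  have h1X : 1 ≤ X ^ (ν / 2) := Real.one_le_rpow hX (by positivity)
  have hJ2 : (J : ℝ) ≤ 2 * X ^ (ν / 2) := by
    rw [hJ]
    have := Nat.ceil_lt_add_one (by positivity : 0 ≤ X ^ (ν / 2))
    linarith
  have hJ0 : (0 : ℝ) < J := by linarith
  obtain ⟨U, hU⟩ : ∃ U : ℝ, U = X ^ ((2 : ℝ) / 3) := ⟨_, rfl⟩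
  have hU0 : 0 < U := by rw [hU]; positivity
  have hUX : U ^ ((3 : ℝ) / 2) = X := by
    rw [hU, ← Real.rpow_mul hX0.le]
    norm_num
  rw [← hU]
  obtain ⟨d, hd⟩ : ∃ d : ℝ, d = U / J := ⟨_, rfl⟩
  have hd0 : 0 < d := by rw [hd]; positivity
  have hJd : (J : ℝ) * d = U := by rw [hd]; field_simp
  obtain ⟨E, hE⟩ : ∃ E : ℝ, E = C * X ^ (2 / 3 - ν) := ⟨_, rfl⟩
  -- the blocks
  have hblock : ∀ j ∈ range J,
      ((Hi S R v φ ((((j + 1 : ℕ) : ℝ) * d) ^ ((3 : ℝ) / 2))).ncard : ℝ) -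
        (Hi S R v φ (((j : ℝ) * d) ^ ((3 : ℝ) / 2))).ncard ≤ d * Ph G φ ((j : ℝ) * d) + 2 * E ∧
      d * Ph G φ (((j + 1 : ℕ) : ℝ) * d) - 2 * E ≤
        ((Hi S R v φ ((((j + 1 : ℕ) : ℝ) * d) ^ ((3 : ℝ) / 2))).ncard : ℝ) -
          (Hi S R v φ (((j : ℝ) * d) ^ ((3 : ℝ) / 2))).ncard := by
    intro j hj
    rw [mem_range] at hj
    obtain ⟨u, hu⟩ : ∃ u : ℝ, u = (j : ℝ) * d := ⟨_, rfl⟩
    obtain ⟨w, hw⟩ : ∃ w : ℝ, w = ((j + 1 : ℕ) : ℝ) * d := ⟨_, rfl⟩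
    rw [← hu, ← hw]
    have hu0 : 0 ≤ u := by rw [hu]; positivity
    have hvu : w - u = d := by rw [hu, hw]; push_cast; ring
    have huv : u ≤ w := by linarith
    have hv0 : 0 ≤ w := by linarith
    have hvU : w ≤ U := by
      rw [hw, ← hJd]
      refine mul_le_mul_of_nonneg_right ?_ hd0.le
      exact_mod_cast hj
    have hvX : w ^ ((3 : ℝ) / 2) ≤ X := by
      rw [← hUX]
      exact Real.rpow_le_rpow hv0 hvU (by norm_num)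
    have hle : u ^ ((3 : ℝ) / 2) ≤ w ^ ((3 : ℝ) / 2) := Real.rpow_le_rpow hu0 huv (by norm_num)
    have huX : u ^ ((3 : ℝ) / 2) ≤ X := hle.trans hvX
    have e23 : ∀ t : ℝ, 0 ≤ t → (t ^ ((3 : ℝ) / 2)) ^ ((2 : ℝ) / 3) = t := by
      intro t ht
      rw [← Real.rpow_mul ht]
      norm_num
    have hP : ∀ t : ℝ, 0 ≤ t → Ph G φ t = G (φ (t ^ ((3 : ℝ) / 2))) := by
      intro t ht
      unfold Ph
      rw [max_eq_left ht]
    obtain ⟨g1, g2⟩ := mv_block hfin (v := v) hφ hle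
    have k1 := h (φ (u ^ ((3 : ℝ) / 2))) X (u ^ ((3 : ℝ) / 2)) hX (by positivity) huX
    have k2 := h (φ (u ^ ((3 : ℝ) / 2))) X (w ^ ((3 : ℝ) / 2)) hX (by positivity) hvX
    have k3 := h (φ (w ^ ((3 : ℝ) / 2))) X (u ^ ((3 : ℝ) / 2)) hX (by positivity) huX
    have k4 := h (φ (w ^ ((3 : ℝ) / 2))) X (w ^ ((3 : ℝ) / 2)) hX (by positivity) hvX
    rw [e23 u hu0, ← hP u hu0, ← hE] at k1
    rw [e23 w hv0, ← hP u hu0, ← hE] at k2
    rw [e23 u hu0, ← hP w hv0, ← hE] at k3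
    rw [e23 w hv0, ← hP w hv0, ← hE] at k4
    have e1 : d * Ph G φ u = w * Ph G φ u - u * Ph G φ u := by rw [← hvu]; ring
    have e2 : d * Ph G φ w = w * Ph G φ w - u * Ph G φ w := by rw [← hvu]; ring
    rw [e1, e2]
    obtain ⟨a1, a2⟩ := abs_le.1 k1
    obtain ⟨a3, a4⟩ := abs_le.1 k2
    obtain ⟨a5, a6⟩ := abs_le.1 k3
    obtain ⟨a7, a8⟩ := abs_le.1 k4
    constructor <;> linarith
  -- the telescoping
  have htel := sum_range_sub (fun j : ℕ =>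
    ((Hi S R v φ (((j : ℝ) * d) ^ ((3 : ℝ) / 2))).ncard : ℝ)) J
  have hzero : ((Hi S R v φ ((((0 : ℕ) : ℝ) * d) ^ ((3 : ℝ) / 2))).ncard : ℝ) = 0 := by
    rw [Nat.cast_zero, zero_mul, Real.zero_rpow (by norm_num)]
    have : Hi S R v φ 0 = ∅ := by
      rw [Set.eq_empty_iff_forall_notMem]
      rintro p ⟨h1, h2, -⟩
      have := hR p h1
      linarith
    rw [this, Set.ncard_empty, Nat.cast_zero]
  rw [hzero, sub_zero, hJd, hUX] at htel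
  have hup := sum_le_sum fun j hj => (hblock j hj).1
  have hlo := sum_le_sum fun j hj => (hblock j hj).2
  rw [htel, sum_add_distrib, sum_const, card_range, nsmul_eq_mul, ← mul_sum] at hup
  rw [htel, sum_sub_distrib, sum_const, card_range, nsmul_eq_mul, ← mul_sum] at hlo
  -- the integral
  have hganti : Antitone (fun t : ℝ => Ph G φ (t * d)) := by
    intro t t' ht
    exact Ph_anti hG hφ (mul_le_mul_of_nonneg_right ht hd0.le)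
  have i1 := AntitoneOn.integral_le_sum (x₀ := 0) (a := J) (f := fun t : ℝ => Ph G φ (t * d))
    (hganti.antitoneOn _)
  have i2 := AntitoneOn.sum_le_integral (x₀ := 0) (a := J) (f := fun t : ℝ => Ph G φ (t * d))
    (hganti.antitoneOn _)
  simp only [zero_add] at i1 i2
  have hint : ∫ t in (0 : ℝ)..J, Ph G φ (t * d) = d⁻¹ * ∫ u in (0 : ℝ)..U, Ph G φ u := by
    rw [intervalIntegral.integral_comp_mul_right (Ph G φ) hd0.ne', zero_mul, hJd, smul_eq_mul]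
  rw [hint] at i1 i2
  have e := Finset.sum_range_succ' (fun i : ℕ => Ph G φ ((i : ℝ) * d)) J
  have e' := Finset.sum_range_succ (fun i : ℕ => Ph G φ ((i : ℝ) * d)) J
  have n1 : 0 ≤ Ph G φ ((J : ℝ) * d) := hG0 _
  have n2 : Ph G φ (((0 : ℕ) : ℝ) * d) ≤ M := hGM _
  have hS : ∑ i ∈ range J, Ph G φ ((i : ℝ) * d) ≤
      M + ∑ i ∈ range J, Ph G φ (((i + 1 : ℕ) : ℝ) * d) := by linarith
  have hI : ∫ u in (0 : ℝ)..U, Ph G φ u = d * (d⁻¹ * ∫ u in (0 : ℝ)..U, Ph G φ u) := by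
    rw [← mul_assoc, mul_inv_cancel₀ hd0.ne', one_mul]
  have j1 := mul_le_mul_of_nonneg_left i1 hd0.le
  have j2 := mul_le_mul_of_nonneg_left i2 hd0.le
  have j3 := mul_le_mul_of_nonneg_left hS hd0.le
  rw [← hI] at j1 j2
  rw [mul_add] at j3
  -- the errors
  have hdle : d * M ≤ M * X ^ (2 / 3 - ν / 2) := by
    rw [mul_comm]
    refine mul_le_mul_of_nonneg_left ?_ hM.le
    rw [hd, div_le_iff₀ hJ0, hU]
    calc X ^ ((2 : ℝ) / 3) = X ^ (2 / 3 - ν / 2) * X ^ (ν / 2) := by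
          rw [← Real.rpow_add hX0]
          congr 1
          ring
      _ ≤ X ^ (2 / 3 - ν / 2) * J := mul_le_mul_of_nonneg_left hJ1 (by positivity)
  have hJE : (J : ℝ) * (2 * E) ≤ 4 * C * X ^ (2 / 3 - ν / 2) := by
    calc (J : ℝ) * (2 * E) ≤ (2 * X ^ (ν / 2)) * (2 * E) :=
          mul_le_mul_of_nonneg_right hJ2 (by rw [hE]; positivity)
      _ = 4 * C * (X ^ (2 / 3 - ν) * X ^ (ν / 2)) := by rw [hE]; ring
      _ = 4 * C * X ^ (2 / 3 - ν / 2) := by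
          rw [← Real.rpow_add hX0]
          congr 2
          ring
  rw [add_mul, abs_le]
  constructor <;> linarith

/-- thresholds on `[1, ∞)` -/
theorem mv_final (hR : ∀ ω ∈ S, 1 ≤ R ω) (hfin : ∀ X, ({ω | ω ∈ S ∧ R ω ≤ X} : Set Ω).Finite)
    {G : ℝ → ℝ} (hG : Antitone G) (hG0 : ∀ z, 0 ≤ G z) {M : ℝ} (hM : 0 < M) (hGM : ∀ z, G z ≤ M)
    {C ν : ℝ} (hC : 0 < C) (hν : 0 < ν) (hν1 : ν ≤ 2 / 3)
    (h : ∀ z X Y : ℝ, 1 ≤ X → 0 ≤ Y → Y ≤ X →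
      |((Ez S R v z Y).ncard : ℝ) - Y ^ ((2 : ℝ) / 3) * G z| ≤ C * X ^ (2 / 3 - ν)) :
    ∀ φ : ℝ → ℝ, MonotoneOn φ (Set.Ici 1) → ∀ X : ℝ, 1 ≤ X →
    |((Hi S R v φ X).ncard : ℝ) -
      ∫ u in (1 : ℝ)..(X ^ ((2 : ℝ) / 3)), G (φ (u ^ ((3 : ℝ) / 2)))| ≤
      (2 * M + 4 * C) * X ^ (2 / 3 - ν / 2) := by
  intro φ hφ X hX
  have hX0 : 0 < X := by linarith
  obtain ⟨ψ, hψ⟩ : ∃ ψ : ℝ → ℝ, ∀ t, ψ t = φ (max t 1) := ⟨fun t => φ (max t 1), fun _ => rfl⟩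
  have hψm : Monotone ψ := by
    intro t t' ht
    rw [hψ, hψ]
    exact hφ (Set.mem_Ici.2 (le_max_right t 1)) (Set.mem_Ici.2 (le_max_right t' 1))
      (max_le_max ht le_rfl)
  have h1 := mv_formula hR hfin hG hG0 hM hGM hC hν h ψ hψm X hX
  have hHi : Hi S R v ψ X = Hi S R v φ X := by
    ext p
    unfold Hi
    rw [Set.mem_ofPred_eq, Set.mem_ofPred_eq]
    refine and_congr_right fun hp => ?_
    rw [hψ, max_eq_left (hR p hp)]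
  rw [hHi] at h1
  have hU1 : 1 ≤ X ^ ((2 : ℝ) / 3) := Real.one_le_rpow hX (by norm_num)
  have hi : ∀ a b : ℝ, IntervalIntegrable (Ph G ψ) volume a b :=
    fun a b => (Ph_anti hG hψm).intervalIntegrable
  have hsplit := intervalIntegral.integral_add_adjacent_intervals (hi 0 1)
    (hi 1 (X ^ ((2 : ℝ) / 3)))
  have hcongr : ∫ u in (1 : ℝ)..(X ^ ((2 : ℝ) / 3)), Ph G ψ u =
      ∫ u in (1 : ℝ)..(X ^ ((2 : ℝ) / 3)), G (φ (u ^ ((3 : ℝ) / 2))) := by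
    refine intervalIntegral.integral_congr fun u hu => ?_
    rw [Set.uIcc_of_le hU1] at hu
    have hu1 : 1 ≤ u := hu.1
    simp only [Ph]
    rw [max_eq_left (by linarith : (0 : ℝ) ≤ u), hψ,
      max_eq_left (Real.one_le_rpow hu1 (by norm_num))]
  have hP0 : ∀ u, 0 ≤ Ph G ψ u := fun u => hG0 _
  have hPM : ∀ u, Ph G ψ u ≤ M := fun u => hGM _
  have hsmall : |∫ u in (0 : ℝ)..1, Ph G ψ u| ≤ M := by
    rw [abs_of_nonneg (intervalIntegral.integral_nonneg zero_le_one fun u _ => hP0 u)]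
    have h3 : ∫ u in (0 : ℝ)..1, Ph G ψ u ≤ ∫ _u in (0 : ℝ)..1, M :=
      intervalIntegral.integral_mono_on zero_le_one (hi 0 1) intervalIntegrable_const
        fun u _ => hPM u
    rw [intervalIntegral.integral_const, sub_zero, one_smul] at h3
    exact h3
  rw [← hcongr]
  rw [← hsplit] at h1
  have h1X : 1 ≤ X ^ (2 / 3 - ν / 2) := Real.one_le_rpow hX (by linarith)
  have h4 : M * 1 ≤ M * X ^ (2 / 3 - ν / 2) := mul_le_mul_of_nonneg_left h1X hM.le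
  obtain ⟨a1, a2⟩ := abs_le.1 h1
  obtain ⟨a3, a4⟩ := abs_le.1 hsmall
  have e : (2 * M + 4 * C) * X ^ (2 / 3 - ν / 2) =
      (M + 4 * C) * X ^ (2 / 3 - ν / 2) + M * X ^ (2 / 3 - ν / 2) := by ring
  rw [e, abs_le]
  constructor <;> linarith

end

end Pool.Agent.V7H9.FR
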