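import Pool.Agent.V7H9.FR.Cls
import Pool.Agent.V7H9.FR.Mov

set_option autoImplicit false

/-!
# The law of the height
-/

namespace Pool.Agent.V7H9.FR

open Finset Filter Topology
open Pool.Agent.TH498.AR (psi3)
open Pool.Agent.R465.FH (ar)
open Pool.Agent.V7H9.AL (C0 C0_pos wgt wgt_nonneg wgt_summable wgt_zero Hf Hf_nonneg Hf_bd Hf_ge
  Hf_le Hf_mono' TS law_t_eff kap kap_pos kap_eq)
open Pool.Agent.Results.MP_1ea25c_nt.AlmostAllTriples (triples rad3)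

/-- the arithmetic factor -/
noncomputable def mw (w : ℕ) : ℝ :=
  (w : ℝ) * (if v2 w = 3 then 2 else 1) / 2 ^ min 4 (v2 w + 1)

lemma mw_pos {w : ℕ} (hw : 0 < w) : 0 < mw w := by
  have : (0 : ℝ) < w := by exact_mod_cast hw
  unfold mw
  split_ifs <;> positivity

lemma val_eq {p : ℕ × ℕ} (hp : IsT p) :
    val p = (2 * Real.log (mw (psi3 ∅ p)) + At (tt p)) / 12 := by
  obtain ⟨w, hw⟩ : ∃ w, w = psi3 ∅ p := ⟨_, rfl⟩
  have hw0 : 0 < w := by rw [hw]; exact w_pos hp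
  have hwr : (0 : ℝ) < w := by exact_mod_cast hw0
  have hr0 : (0 : ℝ) < rad3 p := by exact_mod_cast rad3_pos' p
  have hR0 : (0 : ℝ) < Rm p := by exact_mod_cast Rm_pos p
  have ht0 : (0 : ℝ) < tri p := by exact_mod_cast tri_pos hp
  have hd0 : (0 : ℝ) < (jF p).den := by exact_mod_cast (jF p).den_pos
  have h1 : (w : ℝ) * rad3 p = tri p := by rw [hw]; exact_mod_cast w_mul hp
  have h2 : ((jF p).den : ℝ) * 2 ^ min 8 (2 * v2 (tri p)) = (tri p : ℝ) ^ 2 := by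
    exact_mod_cast jF_den hp
  have h3 := v2_tri hp
  rw [← hw] at h3
  have h4 : min 8 (2 * v2 (tri p)) = 2 * min 4 (v2 w + 1) := by omega
  have e1 : Real.log (jF p).den = 2 * Real.log (tri p) - 2 * min 4 (v2 w + 1) * Real.log 2 := by
    have := congrArg Real.log h2
    rw [Real.log_mul hd0.ne' (by positivity), Real.log_pow, Real.log_pow, h4] at this
    push_cast at this ⊢
    linarith
  have e2 : Real.log (tri p) = Real.log w + Real.log (rad3 p) := by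
    rw [← h1, Real.log_mul hwr.ne' hr0.ne']
  have hv := Rm_val hp
  rw [← hw] at hv
  unfold val
  rw [e1, e2, ← hw]
  unfold mw
  by_cases h5 : v2 w = 3
  · have h6 : (2 : ℝ) * Rm p = rad3 p := by exact_mod_cast hv.1 h5
    have h7 : Real.log (rad3 p) = Real.log 2 + Real.log (Rm p) := by
      rw [← h6, Real.log_mul (by norm_num) hR0.ne']
    rw [if_pos h5, h5, h7, Real.log_div (by positivity) (by positivity),
      Real.log_mul hwr.ne' (by norm_num), Real.log_pow]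
    norm_num
    ring
  · have h6 : Rm p = rad3 p := hv.2 h5
    rw [if_neg h5, h6, mul_one, Real.log_div hwr.ne' (by positivity), Real.log_pow]
    push_cast
    ring

/-- the share of the repeated part -/
noncomputable def sh (s : Bool) (w : ℕ) : ℝ :=
  if v2 w = 3 then 2 ^ ((2 : ℝ) / 3) else if s = true ∧ v2 w < 3 then 0 else 1

lemma sh_nonneg (s : Bool) (w : ℕ) : 0 ≤ sh s w := by
  unfold sh
  split_ifs <;> positivity

lemma sh_le (s : Bool) (w : ℕ) : sh s w ≤ 2 := by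
  unfold sh
  have : (2 : ℝ) ^ ((2 : ℝ) / 3) ≤ 2 ^ (1 : ℝ) :=
    Real.rpow_le_rpow_of_exponent_le (by norm_num) (by norm_num)
  rw [Real.rpow_one] at this
  split_ifs <;> linarith

/-- the threshold for `a / c` -/
noncomputable def thw (z : ℝ) (w : ℕ) : ℝ := Tx (12 * z - 2 * Real.log (mw w))

lemma thw_bd (z : ℝ) (w : ℕ) : 0 < thw z w ∧ thw z w ≤ 1 / 2 := ⟨Tx_pos _, Tx_le _⟩

lemma thw_anti {z z' : ℝ} (h : z ≤ z') (w : ℕ) : thw z' w ≤ thw z w := Tx_anti (by linarith)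

lemma val_iff {p : ℕ × ℕ} (hp : IsT p) {z : ℝ} : z ≤ val p ↔ tt p ≤ thw z (psi3 ∅ p) := by
  unfold thw
  rw [← Tx_iff (tt_pos hp) (tt_le hp), val_eq hp]
  constructor
  · intro h
    linarith
  · intro h
    linarith

/-- the limit law -/
noncomputable def Gs (s : Bool) (z : ℝ) : ℝ := ∑' w : ℕ, C0 * wgt w * (sh s w * Hf (thw z w))

lemma Gs_term_nonneg (s : Bool) (z : ℝ) (w : ℕ) : 0 ≤ C0 * wgt w * (sh s w * Hf (thw z w)) :=
  mul_nonneg (mul_nonneg C0_pos.le (wgt_nonneg w))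
    (mul_nonneg (sh_nonneg s w) (Hf_nonneg (thw_bd z w).1.le (thw_bd z w).2))

lemma Gs_summable (s : Bool) (z : ℝ) : Summable fun w : ℕ => C0 * wgt w * (sh s w * Hf (thw z w)) := by
  have h : Summable fun w : ℕ => C0 * 6 * wgt w := wgt_summable.mul_left _
  refine Summable.of_nonneg_of_le (Gs_term_nonneg s z) (fun w => ?_) h
  have h1 : sh s w * Hf (thw z w) ≤ 2 * 3 :=
    mul_le_mul (sh_le s w) (Hf_bd (thw_bd z w).1.le (thw_bd z w).2)
      (Hf_nonneg (thw_bd z w).1.le (thw_bd z w).2) (by norm_num)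
  have h2 := mul_le_mul_of_nonneg_left h1 (mul_nonneg C0_pos.le (wgt_nonneg w))
  linarith

lemma Gs_nonneg (s : Bool) (z : ℝ) : 0 ≤ Gs s z := tsum_nonneg (Gs_term_nonneg s z)

lemma Gs_anti (s : Bool) : Antitone (Gs s) := by
  intro z z' h
  refine (Gs_summable s z').tsum_le_tsum (fun w => ?_) (Gs_summable s z)
  refine mul_le_mul_of_nonneg_left ?_ (mul_nonneg C0_pos.le (wgt_nonneg w))
  refine mul_le_mul_of_nonneg_left ?_ (sh_nonneg s w)
  exact Hf_mono' (thw_bd z' w).1.le (thw_anti h w) (thw_bd z w).2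

/-- the constant -/
noncomputable def ks (s : Bool) : ℝ := ∑' w : ℕ, C0 * wgt w * (sh s w * Hf (1 / 2))

lemma ks_summable (s : Bool) : Summable fun w : ℕ => C0 * wgt w * (sh s w * Hf (1 / 2)) := by
  have h : Summable fun w : ℕ => C0 * 6 * wgt w := wgt_summable.mul_left _
  have hH : 0 ≤ Hf (1 / 2) := Hf_nonneg (by norm_num) le_rfl
  refine Summable.of_nonneg_of_le (fun w => mul_nonneg (mul_nonneg C0_pos.le (wgt_nonneg w))
    (mul_nonneg (sh_nonneg s w) hH)) (fun w => ?_) h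
  have h1 : sh s w * Hf (1 / 2) ≤ 2 * 3 :=
    mul_le_mul (sh_le s w) (Hf_bd (by norm_num) le_rfl) hH (by norm_num)
  have h2 := mul_le_mul_of_nonneg_left h1 (mul_nonneg C0_pos.le (wgt_nonneg w))
  linarith

lemma Gs_le (s : Bool) (z : ℝ) : Gs s z ≤ ks s := by
  refine (Gs_summable s z).tsum_le_tsum (fun w => ?_) (ks_summable s)
  refine mul_le_mul_of_nonneg_left ?_ (mul_nonneg C0_pos.le (wgt_nonneg w))
  refine mul_le_mul_of_nonneg_left ?_ (sh_nonneg s w)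
  exact Hf_mono' (thw_bd z w).1.le (thw_bd z w).2 le_rfl

lemma mem_TS {p : ℕ × ℕ} {f : ℕ → ℝ} {Y : ℝ} : p ∈ TS f Y ↔
    IsT p ∧ (rad3 p : ℝ) ≤ Y ∧ tt p ≤ f (psi3 ∅ p) := by
  unfold TS IsT tt
  rw [Set.mem_ofPred_eq]
  constructor
  · rintro ⟨⟨a1, a2, a3, a4⟩, a5⟩
    refine ⟨⟨a1, a2, a3⟩, a4, ?_⟩
    rw [div_le_iff₀ (by exact_mod_cast (by omega : 0 < p.1 + p.2))]
    exact a5
  · rintro ⟨⟨a1, a2, a3⟩, a4, a5⟩
    refine ⟨⟨a1, a2, a3, a4⟩, ?_⟩
    rw [div_le_iff₀ (by exact_mod_cast (by omega : 0 < p.1 + p.2))] at a5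
    exact a5

/-- the split of the family: a general threshold -/
lemma split_gen {s : Bool} {X : ℝ} {th : ℕ → ℝ} (hth : ∀ w, 0 < th w) :
    {p | Fam s p ∧ (Rm p : ℝ) ≤ X ∧ tt p ≤ th (psi3 ∅ p)} =
      TS (fun w => if v2 w = 3 then th w else 0) (2 * X) ∪
      TS (fun w => if v2 w = 3 then 0 else if s = true ∧ v2 w < 3 then 0 else th w) X := by
  ext p
  rw [Set.mem_union, mem_TS, mem_TS, Set.mem_ofPred_eq]
  constructor
  · rintro ⟨⟨hT, hs⟩, h1, h2⟩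
    obtain ⟨v1, v2'⟩ := Rm_val hT
    by_cases h3 : v2 (psi3 ∅ p) = 3
    · left
      refine ⟨hT, ?_, ?_⟩
      · have : (2 : ℝ) * Rm p = rad3 p := by exact_mod_cast v1 h3
        rw [← this]
        linarith
      · rw [if_pos h3]
        exact h2
    · right
      refine ⟨hT, ?_, ?_⟩
      · rw [← v2' h3]
        exact h1
      · rw [if_neg h3, if_neg]
        · exact h2
        · rintro ⟨h4, h5⟩
          have h6 := hs h4
          rw [v2_tri hT] at h6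
          omega
  · rintro (⟨hT, h1, h2⟩ | ⟨hT, h1, h2⟩)
    · have hpos := tt_pos hT
      obtain ⟨v1, v2'⟩ := Rm_val hT
      by_cases h3 : v2 (psi3 ∅ p) = 3
      · rw [if_pos h3] at h2
        refine ⟨⟨hT, fun _ => by rw [v2_tri hT, h3]⟩, ?_, h2⟩
        have : (2 : ℝ) * Rm p = rad3 p := by exact_mod_cast v1 h3
        linarith
      · rw [if_neg h3] at h2
        linarith
    · have hpos := tt_pos hT
      obtain ⟨v1, v2'⟩ := Rm_val hT
      by_cases h3 : v2 (psi3 ∅ p) = 3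
      · rw [if_pos h3] at h2
        linarith
      · rw [if_neg h3] at h2
        by_cases h4 : s = true ∧ v2 (psi3 ∅ p) < 3
        · rw [if_pos h4] at h2
          linarith
        · rw [if_neg h4] at h2
          refine ⟨⟨hT, fun hs => ?_⟩, by rw [v2' h3]; exact h1, h2⟩
          rw [v2_tri hT]
          by_contra hcon
          exact h4 ⟨hs, by omega⟩

lemma TS_finite (f : ℕ → ℝ) (X : ℝ) : (TS f X).Finite :=
  (Pool.Agent.Y911.AA.triples_finite' X).subset fun _ hp => hp.1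

lemma Hf_zero : Hf 0 = 0 := by
  unfold Pool.Agent.V7H9.AL.Hf
  rw [intervalIntegral.integral_same, mul_zero]

/-- the count with a general threshold -/
theorem cnt_gen : ∃ C ν : ℝ, 0 < C ∧ 0 < ν ∧ ν ≤ 1 / 3 ∧ ∀ (s : Bool) (th : ℕ → ℝ),
    (∀ w, 0 < th w ∧ th w ≤ 1 / 2) → ∀ X : ℝ, 1 ≤ X →
    |(({p | Fam s p ∧ (Rm p : ℝ) ≤ X ∧ tt p ≤ th (psi3 ∅ p)} : Set (ℕ × ℕ)).ncard : ℝ) -
      X ^ ((2 : ℝ) / 3) * ∑' w : ℕ, C0 * wgt w * (sh s w * Hf (th w))| ≤ C * X ^ (2 / 3 - ν) := by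
  obtain ⟨C1, ν1, hC1, hν1, h⟩ := law_t_eff
  refine ⟨3 * C1, min (1 / 3) ν1, by positivity, lt_min (by norm_num) hν1, min_le_left _ _,
    fun s th hth X hX => ?_⟩
  have hX0 : 0 < X := by linarith
  obtain ⟨ν, hν⟩ : ∃ ν : ℝ, ν = min (1 / 3) ν1 := ⟨_, rfl⟩
  have hn1 : ν ≤ ν1 := by rw [hν]; exact min_le_right _ _
  have hn0 : 0 < ν := by rw [hν]; exact lt_min (by norm_num) hν1
  rw [← hν]
  obtain ⟨f1, hf1⟩ : ∃ f1 : ℕ → ℝ, f1 = fun w => if v2 w = 3 then th w else 0 := ⟨_, rfl⟩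
  obtain ⟨f2, hf2⟩ : ∃ f2 : ℕ → ℝ,
    f2 = fun w => if v2 w = 3 then 0 else if s = true ∧ v2 w < 3 then 0 else th w := ⟨_, rfl⟩
  have b1 : ∀ w, 0 ≤ f1 w ∧ f1 w ≤ 1 / 2 := by
    intro w
    rw [hf1]
    beta_reduce
    split_ifs
    · exact ⟨(hth w).1.le, (hth w).2⟩
    · norm_num
  have b2 : ∀ w, 0 ≤ f2 w ∧ f2 w ≤ 1 / 2 := by
    intro w
    rw [hf2]
    beta_reduce
    split_ifs
    · norm_num
    · norm_num
    · exact ⟨(hth w).1.le, (hth w).2⟩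
  have k1 := h f1 b1 (2 * X) (by linarith)
  have k2 := h f2 b2 X hX
  rw [split_gen (fun w => (hth w).1), ← hf1, ← hf2]
  -- disjoint
  have hdis : Disjoint (TS f1 (2 * X)) (TS f2 X) := by
    rw [Set.disjoint_left]
    intro p hp hq
    rw [mem_TS] at hp hq
    have hpos := tt_pos hp.1
    have g1 := hp.2.2
    have g2 := hq.2.2
    rw [hf1] at g1
    rw [hf2] at g2
    beta_reduce at g1 g2
    by_cases h3 : v2 (psi3 ∅ p) = 3
    · rw [if_pos h3] at g2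
      linarith
    · rw [if_neg h3] at g1
      linarith
  have hcard : ((TS f1 (2 * X) ∪ TS f2 X).ncard : ℝ) = (TS f1 (2 * X)).ncard + (TS f2 X).ncard := by
    exact_mod_cast Set.ncard_union_eq hdis (TS_finite _ _) (TS_finite _ _)
  rw [hcard]
  -- the main terms
  have hsum : ∀ f : ℕ → ℝ, (∀ w, 0 ≤ f w ∧ f w ≤ 1 / 2) → Summable fun w => C0 * wgt w * Hf (f w) := by
    intro f hf
    have h : Summable fun w : ℕ => C0 * 3 * wgt w := wgt_summable.mul_left _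
    refine Summable.of_nonneg_of_le (fun w => mul_nonneg (mul_nonneg C0_pos.le (wgt_nonneg w))
      (Hf_nonneg (hf w).1 (hf w).2)) (fun w => ?_) h
    have h2 := mul_le_mul_of_nonneg_left (Hf_bd (hf w).1 (hf w).2)
      (mul_nonneg C0_pos.le (wgt_nonneg w))
    linarith
  have e1 : ∑' w : ℕ, C0 * wgt w * (sh s w * Hf (th w)) =
      2 ^ ((2 : ℝ) / 3) * ∑' w : ℕ, C0 * wgt w * Hf (f1 w) + ∑' w : ℕ, C0 * wgt w * Hf (f2 w) := by
    rw [← tsum_mul_left, ← ((hsum f1 b1).mul_left _).tsum_add (hsum f2 b2)]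
    refine tsum_congr fun w => ?_
    rw [hf1, hf2]
    beta_reduce
    unfold sh
    by_cases h3 : v2 w = 3
    · rw [if_pos h3, if_pos h3, if_pos h3, Hf_zero]
      ring
    · rw [if_neg h3, if_neg h3, if_neg h3, Hf_zero]
      by_cases h4 : s = true ∧ v2 w < 3
      · rw [if_pos h4, if_pos h4, Hf_zero]
        ring
      · rw [if_neg h4, if_neg h4]
        ring
  have e2 : (2 * X) ^ ((2 : ℝ) / 3) = 2 ^ ((2 : ℝ) / 3) * X ^ ((2 : ℝ) / 3) :=
    Real.mul_rpow (by norm_num) hX0.le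
  have e3 : (2 * X) ^ (2 / 3 - ν1) ≤ 2 * X ^ (2 / 3 - ν1) := by
    rw [Real.mul_rpow (by norm_num) hX0.le]
    refine mul_le_mul_of_nonneg_right ?_ (by positivity)
    calc (2 : ℝ) ^ (2 / 3 - ν1) ≤ 2 ^ (1 : ℝ) :=
          Real.rpow_le_rpow_of_exponent_le (by norm_num) (by linarith)
      _ = 2 := Real.rpow_one 2
  have e4 : X ^ (2 / 3 - ν1) ≤ X ^ (2 / 3 - ν) :=
    Real.rpow_le_rpow_of_exponent_le hX (by linarith)
  rw [e2] at k1
  have e5 := mul_le_mul_of_nonneg_left e3 hC1.le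
  have e6 := mul_le_mul_of_nonneg_left e4 hC1.le
  obtain ⟨a1, a2⟩ := abs_le.1 k1
  obtain ⟨a3, a4⟩ := abs_le.1 k2
  have e7 : X ^ ((2 : ℝ) / 3) * ∑' w : ℕ, C0 * wgt w * (sh s w * Hf (th w)) =
      2 ^ ((2 : ℝ) / 3) * X ^ ((2 : ℝ) / 3) * ∑' w : ℕ, C0 * wgt w * Hf (f1 w) +
        X ^ ((2 : ℝ) / 3) * ∑' w : ℕ, C0 * wgt w * Hf (f2 w) := by
    rw [e1]
    ring
  rw [e7, abs_le]
  constructor <;> linarith

lemma fam_finite (s : Bool) (X : ℝ) : ({p | Fam s p ∧ (Rm p : ℝ) ≤ X} : Set (ℕ × ℕ)).Finite := by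
  have h := (TS_finite (fun w => if v2 w = 3 then (fun _ => (1 / 2 : ℝ)) w else 0) (2 * X)).union
    (TS_finite (fun w => if v2 w = 3 then 0 else if s = true ∧ v2 w < 3 then 0 else
      (fun _ => (1 / 2 : ℝ)) w) X)
  rw [← split_gen (s := s) (X := X) (th := fun _ => 1 / 2) (fun _ => by norm_num)] at h
  exact h.subset fun p hp => ⟨hp.1, hp.2, tt_le hp.1.1⟩

/-- the total count -/
theorem tot_eff : ∃ C ν : ℝ, 0 < C ∧ 0 < ν ∧ ν ≤ 1 / 3 ∧ ∀ (s : Bool) (X : ℝ), 1 ≤ X →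
    |(({p | Fam s p ∧ (Rm p : ℝ) ≤ X} : Set (ℕ × ℕ)).ncard : ℝ) - ks s * X ^ ((2 : ℝ) / 3)| ≤
      C * X ^ (2 / 3 - ν) := by
  obtain ⟨C, ν, hC, hν, hν1, h⟩ := cnt_gen
  refine ⟨C, ν, hC, hν, hν1, fun s X hX => ?_⟩
  have h1 := h s (fun _ => 1 / 2) (fun _ => by norm_num) X hX
  have e : {p : ℕ × ℕ | Fam s p ∧ (Rm p : ℝ) ≤ X ∧ tt p ≤ (fun _ => 1 / 2 : ℕ → ℝ) (psi3 ∅ p)} =
      {p | Fam s p ∧ (Rm p : ℝ) ≤ X} := by
    ext p
    exact ⟨fun h => ⟨h.1, h.2.1⟩, fun h => ⟨h.1, h.2, tt_le h.1.1⟩⟩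
  rw [e] at h1
  rw [mul_comm (ks s)]
  exact h1

/-- the law, uniformly -/
theorem law_eff' : ∃ C ν : ℝ, 0 < C ∧ 0 < ν ∧ ν ≤ 1 / 3 ∧ ∀ (s : Bool) (z X Y : ℝ), 1 ≤ X →
    0 ≤ Y → Y ≤ X →
    |((Ez {p | Fam s p} (fun p => (Rm p : ℝ)) val z Y).ncard : ℝ) - Y ^ ((2 : ℝ) / 3) * Gs s z| ≤
      C * X ^ (2 / 3 - ν) := by
  obtain ⟨C, ν, hC, hν, hν1, h⟩ := cnt_gen
  refine ⟨C + |ks true| + |ks false|, ν, by positivity, hν, hν1, fun s z X Y hX hY0 hYX => ?_⟩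
  have hX0 : 0 < X := by linarith
  have h1X : 1 ≤ X ^ (2 / 3 - ν) := Real.one_le_rpow hX (by linarith)
  have hks : ks s ≤ |ks true| + |ks false| := by
    cases s
    · linarith [le_abs_self (ks false), abs_nonneg (ks true)]
    · linarith [le_abs_self (ks true), abs_nonneg (ks false)]
  have hK : 0 ≤ |ks true| + |ks false| := by positivity
  rcases le_or_gt 1 Y with hY | hY
  · have h1 := h s (thw z) (thw_bd z) Y hY
    have e : Ez {p | Fam s p} (fun p => (Rm p : ℝ)) val z Y =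
        {p : ℕ × ℕ | Fam s p ∧ (Rm p : ℝ) ≤ Y ∧ tt p ≤ thw z (psi3 ∅ p)} := by
      ext p
      unfold Ez
      rw [Set.mem_ofPred_eq, Set.mem_ofPred_eq]
      refine and_congr_right fun hp => and_congr_right fun _ => ?_
      exact val_iff (show Fam s p from hp).1
    rw [e]
    have h2 : Y ^ (2 / 3 - ν) ≤ X ^ (2 / 3 - ν) := Real.rpow_le_rpow hY0 hYX (by linarith)
    have h3 := mul_le_mul_of_nonneg_left h2 hC.le
    have h4 : 0 ≤ (|ks true| + |ks false|) * X ^ (2 / 3 - ν) := by positivity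
    have e5 : (C + |ks true| + |ks false|) * X ^ (2 / 3 - ν) =
        C * X ^ (2 / 3 - ν) + (|ks true| + |ks false|) * X ^ (2 / 3 - ν) := by ring
    have h1' : |(({p : ℕ × ℕ | Fam s p ∧ (Rm p : ℝ) ≤ Y ∧ tt p ≤ thw z (psi3 ∅ p)} :
        Set (ℕ × ℕ)).ncard : ℝ) - Y ^ ((2 : ℝ) / 3) * Gs s z| ≤ C * Y ^ (2 / 3 - ν) := h1
    rw [e5]
    linarith
  · have h1 : Ez {p | Fam s p} (fun p => (Rm p : ℝ)) val z Y = ∅ := by
      rw [Set.eq_empty_iff_forall_notMem]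
      rintro p ⟨-, h2, -⟩
      have : (1 : ℝ) ≤ Rm p := by exact_mod_cast Rm_pos p
      linarith
    rw [h1, Set.ncard_empty, Nat.cast_zero, zero_sub, abs_neg,
      abs_of_nonneg (mul_nonneg (by positivity) (Gs_nonneg s z))]
    have h2 : Y ^ ((2 : ℝ) / 3) ≤ 1 := Real.rpow_le_one hY0 hY.le (by norm_num)
    have h3 : Y ^ ((2 : ℝ) / 3) * Gs s z ≤ 1 * (|ks true| + |ks false|) :=
      mul_le_mul h2 ((Gs_le s z).trans hks) (Gs_nonneg s z) zero_le_one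
    have h4 : (|ks true| + |ks false|) * 1 ≤ (|ks true| + |ks false|) * X ^ (2 / 3 - ν) :=
      mul_le_mul_of_nonneg_left h1X hK
    have h5 : 0 ≤ C * X ^ (2 / 3 - ν) := by positivity
    have e5 : (C + |ks true| + |ks false|) * X ^ (2 / 3 - ν) =
        C * X ^ (2 / 3 - ν) + (|ks true| + |ks false|) * X ^ (2 / 3 - ν) := by ring
    rw [e5]
    linarith

end Pool.Agent.V7H9.FR
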