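import Pool.Agent.V7H9.FR.Cnt

set_option autoImplicit false

/-!
# The constants and the size of the limit law
-/

namespace Pool.Agent.V7H9.FR

open Finset Filter Topology
open Pool.Agent.TH498.AR (psi3)
open Pool.Agent.TH876.FH (jInv arch)
open Pool.Agent.R465.FH (ar J pt jInv_pt arch_pt)
open Pool.Agent.V7H9.AL (C0 C0_pos wgt wgt_nonneg wgt_summable wgt_zero Hf Hf_nonneg Hf_bd Hf_ge
  Hf_le Hf_mono' kap kap_pos kap_eq rr rr_pos fr fr_nonneg fr_summable fr_one)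

lemma rr_two : rr 2 = 1 := by
  unfold Pool.Agent.V7H9.AL.rr
  norm_num

lemma wgt_two (w : ℕ) : wgt (2 * w) = 2 ^ (-(1 / 3) : ℝ) * wgt w := by
  rcases Nat.eq_zero_or_pos w with h | h
  · rw [h, mul_zero, wgt_zero, mul_zero]
  · unfold Pool.Agent.V7H9.AL.wgt
    have hpf : (2 * w).primeFactors = insert 2 w.primeFactors := by
      rw [Nat.primeFactors_mul (by norm_num) h.ne', Nat.prime_two.primeFactors]
      rfl
    have hprod : ∏ q ∈ insert 2 w.primeFactors, rr q = ∏ q ∈ w.primeFactors, rr q := by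
      by_cases h2 : 2 ∈ w.primeFactors
      · rw [insert_eq_of_mem h2]
      · rw [prod_insert h2, rr_two, one_mul]
    rw [hpf, hprod]
    push_cast
    rw [Real.mul_rpow (by norm_num) (Nat.cast_nonneg _)]
    ring

lemma wgt_pow (k w : ℕ) : wgt (2 ^ k * w) = (2 ^ (-(1 / 3) : ℝ)) ^ k * wgt w := by
  induction k with
  | zero => rw [pow_zero, pow_zero, one_mul, one_mul]
  | succ k ih =>
    have : 2 ^ (k + 1) * w = 2 * (2 ^ k * w) := by ring
    rw [this, wgt_two, ih]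
    ring

lemma tsum_dvd (k : ℕ) : ∑' w : ℕ, (if 2 ^ k ∣ w then wgt w else 0) =
    (2 ^ (-(1 / 3) : ℝ)) ^ k * ∑' w, wgt w := by
  rw [← tsum_mul_left]
  have hg : Function.Injective (fun w : ℕ => 2 ^ k * w) := fun a b h =>
    Nat.eq_of_mul_eq_mul_left (by positivity) h
  have h := hg.tsum_eq (f := fun w : ℕ => if 2 ^ k ∣ w then wgt w else 0) (by
    intro w hw
    rw [Function.mem_support] at hw
    by_cases hd : 2 ^ k ∣ w
    · obtain ⟨c, hc⟩ := hd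
      exact ⟨c, hc.symm⟩
    · rw [if_neg hd] at hw
      exact absurd rfl hw)
  rw [← h]
  refine tsum_congr fun w => ?_
  rw [if_pos (dvd_mul_right _ _), wgt_pow]

lemma dvd_iff {k w : ℕ} (hw : 0 < w) : 2 ^ k ∣ w ↔ k ≤ v2 w :=
  Nat.prime_two.pow_dvd_iff_le_factorization hw.ne'

lemma dvd_summable (k : ℕ) : Summable fun w : ℕ => if 2 ^ k ∣ w then wgt w else 0 := by
  refine Summable.of_nonneg_of_le (fun w => ?_) (fun w => ?_) wgt_summable
  · split_ifs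
    · exact wgt_nonneg w
    · exact le_rfl
  · split_ifs
    · exact le_rfl
    · exact wgt_nonneg w

/-- the factor of the constant -/
noncomputable def fac (s : Bool) : ℝ :=
  if s = true then 2 ^ (-(1 / 3) : ℝ) * (1 - 2 ^ (-(1 / 3) : ℝ)) + (2 : ℝ) ^ (-(4 / 3) : ℝ)
  else 1 + (2 ^ ((2 : ℝ) / 3) - 1) * (1 - 2 ^ (-(1 / 3) : ℝ)) / 2

lemma sh_eq (s : Bool) {w : ℕ} (hw : 0 < w) : wgt w * sh s w =
    (if s = true then 0 else wgt w) +
      (2 ^ ((2 : ℝ) / 3) - (if s = true then 0 else 1)) *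
        ((if 2 ^ 3 ∣ w then wgt w else 0) - (if 2 ^ 4 ∣ w then wgt w else 0)) +
      (if s = true then (if 2 ^ 4 ∣ w then wgt w else 0) else 0) := by
  have h3 := dvd_iff (k := 3) hw
  have h4 := dvd_iff (k := 4) hw
  obtain ⟨A, hA⟩ : ∃ A : ℝ, A = if 2 ^ 3 ∣ w then wgt w else 0 := ⟨_, rfl⟩
  obtain ⟨B, hB⟩ : ∃ B : ℝ, B = if 2 ^ 4 ∣ w then wgt w else 0 := ⟨_, rfl⟩
  rw [← hA, ← hB]
  unfold sh
  rcases lt_trichotomy (v2 w) 3 with h | h | h
  · rw [if_neg (fun hd => by have := h3.1 hd; omega)] at hA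
    rw [if_neg (fun hd => by have := h4.1 hd; omega)] at hB
    rw [if_neg (by omega : ¬ v2 w = 3), hA, hB]
    cases s
    · simp
    · simp [h]
  · rw [if_pos (h3.2 (by omega))] at hA
    rw [if_neg (fun hd => by have := h4.1 hd; omega)] at hB
    rw [if_pos h, hA, hB]
    cases s
    · simp
      ring
    · simp
      ring
  · rw [if_pos (h3.2 (by omega))] at hA
    rw [if_pos (h4.2 (by omega))] at hB
    rw [if_neg (by omega : ¬ v2 w = 3), hA, hB, if_neg (fun hh => by omega)]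
    cases s
    · simp
    · simp

lemma ks_eq (s : Bool) : ks s = kap * fac s := by
  obtain ⟨x, hx⟩ : ∃ x : ℝ, x = (2 : ℝ) ^ (-(1 / 3) : ℝ) := ⟨_, rfl⟩
  obtain ⟨S, hS⟩ : ∃ S : ℝ, S = ∑' w, wgt w := ⟨_, rfl⟩
  have h3 := tsum_dvd 3
  have h4 := tsum_dvd 4
  rw [← hx, ← hS] at h3 h4
  have hx3 : x ^ 3 = 1 / 2 := by
    rw [hx, ← Real.rpow_natCast, ← Real.rpow_mul (by norm_num)]
    norm_num
  have hx4 : x ^ 4 = (2 : ℝ) ^ (-(4 / 3) : ℝ) := by
    rw [hx, ← Real.rpow_natCast, ← Real.rpow_mul (by norm_num)]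
    norm_num
  have hx4' : x ^ 4 = x / 2 := by
    calc x ^ 4 = x ^ 3 * x := by ring
      _ = x / 2 := by rw [hx3]; ring
  have hkap : kap = C0 * S * Hf (1 / 2) := by
    rw [← kap_eq, hS, tsum_mul_right, tsum_mul_left]
  have e1 : ks s = C0 * Hf (1 / 2) * ∑' w : ℕ, wgt w * sh s w := by
    unfold ks
    rw [← tsum_mul_left]
    refine tsum_congr fun w => ?_
    ring
  obtain ⟨δ, hδ⟩ : ∃ δ : ℝ, δ = if s = true then 0 else 1 := ⟨_, rfl⟩
  have e2 : ∑' w : ℕ, wgt w * sh s w = δ * S + (2 ^ ((2 : ℝ) / 3) - δ) * (x ^ 3 * S - x ^ 4 * S) +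
      (1 - δ) * (x ^ 4 * S) := by
    have hsum : HasSum (fun w : ℕ => δ * wgt w + (2 ^ ((2 : ℝ) / 3) - δ) *
        ((if 2 ^ 3 ∣ w then wgt w else 0) - (if 2 ^ 4 ∣ w then wgt w else 0)) +
        (1 - δ) * (if 2 ^ 4 ∣ w then wgt w else 0))
        (δ * S + (2 ^ ((2 : ℝ) / 3) - δ) * (x ^ 3 * S - x ^ 4 * S) + (1 - δ) * (x ^ 4 * S)) := by
      have g0 : HasSum wgt S := by rw [hS]; exact wgt_summable.hasSum
      have g3 : HasSum (fun w : ℕ => if 2 ^ 3 ∣ w then wgt w else 0) (x ^ 3 * S) := by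
        rw [← h3]
        exact (dvd_summable 3).hasSum
      have g4 : HasSum (fun w : ℕ => if 2 ^ 4 ∣ w then wgt w else 0) (x ^ 4 * S) := by
        rw [← h4]
        exact (dvd_summable 4).hasSum
      exact ((g0.mul_left δ).add ((g3.sub g4).mul_left _)).add (g4.mul_left (1 - δ))
    rw [← hsum.tsum_eq]
    refine tsum_congr fun w => ?_
    rcases Nat.eq_zero_or_pos w with h | h
    · rw [h, wgt_zero]
      simp
    · rw [sh_eq s h, hδ]
      cases s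
      · simp
      · simp
  rw [e1, e2, hkap, hx3, hx4']
  unfold fac
  rw [← hx, ← hx4, hx4', hδ]
  cases s
  · simp
    ring
  · have h23 : (2 : ℝ) ^ ((2 : ℝ) / 3) = 2 * x := by
      rw [hx]
      calc (2 : ℝ) ^ ((2 : ℝ) / 3) = (2 : ℝ) ^ ((1 : ℝ) + -(1 / 3)) := by norm_num
        _ = (2 : ℝ) ^ (1 : ℝ) * (2 : ℝ) ^ (-(1 / 3) : ℝ) := Real.rpow_add (by norm_num) _ _
        _ = _ := by rw [Real.rpow_one]
    rw [h23]
    simp
    ring

lemma fac_pos (s : Bool) : 0 < fac s := by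
  have h1 : (2 : ℝ) ^ (-(1 / 3) : ℝ) < 1 := Real.rpow_lt_one_of_one_lt_of_neg (by norm_num)
    (by norm_num)
  have h0 : 0 < (2 : ℝ) ^ (-(1 / 3) : ℝ) := by positivity
  have h2 : (1 : ℝ) ≤ 2 ^ ((2 : ℝ) / 3) := Real.one_le_rpow (by norm_num) (by norm_num)
  unfold fac
  cases s
  · simp only [Bool.false_eq_true, if_false]
    have : 0 ≤ ((2 : ℝ) ^ ((2 : ℝ) / 3) - 1) * (1 - (2 : ℝ) ^ (-(1 / 3) : ℝ)) :=
      mul_nonneg (by linarith) (by linarith)
    linarith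
  · simp only [if_true]
    have h3 : 0 < (2 : ℝ) ^ (-(4 / 3) : ℝ) := by positivity
    have : 0 < (2 : ℝ) ^ (-(1 / 3) : ℝ) * (1 - 2 ^ (-(1 / 3) : ℝ)) := mul_pos h0 (by linarith)
    linarith

lemma ks_pos (s : Bool) : 0 < ks s := by
  rw [ks_eq]
  exact mul_pos kap_pos (fac_pos s)

/-- the archimedean mass -/
noncomputable def mass (x : ℝ) : ℝ :=
  1 / 2 * ∫ t in {t : ℝ | 0 < t ∧ t ≤ 1 / 2 ∧ ∃ τ : UpperHalfPlane, τ.re = 0 ∧ 1 ≤ τ.im ∧
    jInv τ = ((256 * (1 - t + t ^ 2) ^ 3 / (t * (1 - t)) ^ 2 : ℝ) : ℂ) ∧ x ≤ arch τ},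
    (t * (1 - t)) ^ (-(2 / 3) : ℝ)

lemma mass_eq (x : ℝ) : mass x = Hf (Tx x) := by
  unfold mass Pool.Agent.V7H9.AL.Hf
  congr 1
  rw [intervalIntegral.integral_of_le (Tx_pos x).le]
  congr 1
  have e : {t : ℝ | 0 < t ∧ t ≤ 1 / 2 ∧ ∃ τ : UpperHalfPlane, τ.re = 0 ∧ 1 ≤ τ.im ∧
      jInv τ = ((256 * (1 - t + t ^ 2) ^ 3 / (t * (1 - t)) ^ 2 : ℝ) : ℂ) ∧ x ≤ arch τ} =
      Set.Ioc 0 (Tx x) := by
    ext t
    rw [Set.mem_Ioc, Set.mem_ofPred_eq]
    constructor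
    · rintro ⟨h1, h2, τ, h3, h4, h5, h6⟩
      refine ⟨h1, (Tx_iff h1 h2).1 ?_⟩
      have h7 := pt_of h3
      rw [h7, jInv_pt] at h5
      have h8 : J τ.im = jl t := by exact_mod_cast h5
      have h9 := Yt_eq h1 h2 h4 h8
      rw [h7, arch_pt] at h6
      unfold At
      rw [← h9]
      exact h6
    · rintro ⟨h1, h2⟩
      have h2' := h2.trans (Tx_le x)
      obtain ⟨k1, k2⟩ := Yt_spec h1 h2'
      refine ⟨h1, h2', pt (Yt t) (lt_of_lt_of_le one_pos k1), rfl, k1, ?_, ?_⟩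
      · rw [jInv_pt, k2]
        rfl
      · rw [arch_pt]
        exact (Tx_iff h1 h2').2 h2
  rw [e]

/-- lower bound -/
lemma Gs_low (s : Bool) {ε : ℝ} (hε : 0 < ε) : ∃ c : ℝ, 0 < c ∧ ∀ z : ℝ, 0 ≤ z →
    c * Real.exp (-((2 + ε) * z)) ≤ Gs s z := by
  obtain ⟨c, hc, h⟩ := Tx_low (ε := ε / (2 + ε)) (by positivity)
    ((div_lt_one (by linarith)).2 (by linarith))
  have hw8 : 0 < wgt 8 := by
    unfold Pool.Agent.V7H9.AL.wgt
    refine mul_pos (by positivity) (prod_pos fun q hq => rr_pos (Nat.prime_of_mem_primeFactors hq))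
  have hC0 := C0_pos
  refine ⟨C0 * wgt 8 * (3 / 2 * c ^ ((1 : ℝ) / 3)), by positivity, fun z hz => ?_⟩
  have hv : v2 8 = 3 := by
    unfold v2
    have : (8 : ℕ) = 2 ^ 3 := by norm_num
    rw [this, Nat.Prime.factorization_pow Nat.prime_two]
    simp
  have hm : mw 8 = 1 := by
    unfold mw
    rw [hv]
    norm_num
  have hth : thw z 8 = Tx (12 * z) := by
    unfold thw
    rw [hm, Real.log_one]
    ring_nf
  have h1 : C0 * wgt 8 * (sh s 8 * Hf (thw z 8)) ≤ Gs s z :=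
    (Gs_summable s z).le_tsum 8 fun w _ => Gs_term_nonneg s z w
  refine le_trans ?_ h1
  have h2 := h (12 * z) (by positivity)
  have e : 12 * z / (2 * (1 - ε / (2 + ε))) = 3 * ((2 + ε) * z) := by
    have : 1 - ε / (2 + ε) = 2 / (2 + ε) := by
      have : (2 + ε) ≠ 0 := by positivity
      field_simp
      ring
    rw [this]
    have : (2 + ε) ≠ 0 := by positivity
    field_simp
    ring
  rw [e] at h2
  have h3 : (c * Real.exp (-(3 * ((2 + ε) * z)))) ^ ((1 : ℝ) / 3) ≤ (Tx (12 * z)) ^ ((1 : ℝ) / 3) :=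
    Real.rpow_le_rpow (by positivity) h2 (by norm_num)
  rw [Real.mul_rpow hc.le (Real.exp_pos _).le, ← Real.exp_mul] at h3
  have e2 : -(3 * ((2 + ε) * z)) * (1 / 3) = -((2 + ε) * z) := by ring
  rw [e2] at h3
  have h4 := Hf_ge (Tx_pos (12 * z)).le (Tx_le (12 * z))
  have h5 : 1 ≤ sh s 8 := by
    unfold sh
    rw [if_pos hv]
    exact Real.one_le_rpow (by norm_num) (by norm_num)
  have h6 : 0 ≤ Hf (thw z 8) := Hf_nonneg (thw_bd z 8).1.le (thw_bd z 8).2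
  have h7 : 3 / 2 * (c ^ ((1 : ℝ) / 3) * Real.exp (-((2 + ε) * z))) ≤ sh s 8 * Hf (thw z 8) := by
    calc 3 / 2 * (c ^ ((1 : ℝ) / 3) * Real.exp (-((2 + ε) * z)))
        ≤ 3 / 2 * (Tx (12 * z)) ^ ((1 : ℝ) / 3) := by linarith
      _ ≤ Hf (thw z 8) := by rw [hth]; exact h4
      _ ≤ sh s 8 * Hf (thw z 8) := by nlinarith
  calc C0 * wgt 8 * (3 / 2 * c ^ ((1 : ℝ) / 3)) * Real.exp (-((2 + ε) * z))
      = C0 * wgt 8 * (3 / 2 * (c ^ ((1 : ℝ) / 3) * Real.exp (-((2 + ε) * z)))) := by ring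
    _ ≤ _ := mul_le_mul_of_nonneg_left h7 (by positivity)

lemma mw_le (w : ℕ) : mw w ≤ w := by
  unfold mw
  rw [div_le_iff₀ (by positivity)]
  have h0 : (0 : ℝ) ≤ w := Nat.cast_nonneg _
  have h1 : (2 : ℝ) ^ 1 ≤ 2 ^ min 4 (v2 w + 1) := pow_le_pow_right₀ (by norm_num) (by omega)
  rw [pow_one] at h1
  refine mul_le_mul_of_nonneg_left ?_ h0
  split_ifs <;> linarith

/-- upper bound -/
lemma Gs_up (s : Bool) {ε : ℝ} (hε : 0 < ε) (hε1 : ε ≤ 1) : ∃ C : ℝ, 0 < C ∧ ∀ z : ℝ,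
    Gs s z ≤ C * Real.exp (-(2 * (1 - ε) * z)) := by
  obtain ⟨C, hC, h⟩ := Tx_up
  have hsm := fr_summable (τ := ε / 3) (by positivity)
  obtain ⟨D, hD⟩ : ∃ D : ℝ, D = C ^ ((1 - ε) / 3) := ⟨_, rfl⟩
  have hD0 : 0 < D := by rw [hD]; positivity
  have hC0 := C0_pos
  have hS0 : 0 < ∑' w, fr (ε / 3) w := by
    have h1 : fr (ε / 3) 1 ≤ ∑' w, fr (ε / 3) w := hsm.le_tsum 1 fun w _ => fr_nonneg _ _
    rw [fr_one] at h1
    linarith
  refine ⟨6 * C0 * D * ∑' w, fr (ε / 3) w, by positivity, fun z => ?_⟩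
  have hterm : ∀ w : ℕ, C0 * wgt w * (sh s w * Hf (thw z w)) ≤
      6 * C0 * D * Real.exp (-(2 * (1 - ε) * z)) * fr (ε / 3) w := by
    intro w
    rcases Nat.eq_zero_or_pos w with hw | hw
    · rw [hw, wgt_zero, mul_zero, zero_mul]
      have := fr_nonneg (ε / 3) 0
      positivity
    · have hwr : (0 : ℝ) < w := by exact_mod_cast hw
      have hb := thw_bd z w
      have hm := mw_pos hw
      -- the threshold
      have h1 : thw z w ≤ C * Real.exp (-(6 * z)) * w := by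
        have h2 := h (12 * z - 2 * Real.log (mw w))
        have e : Real.exp (-((12 * z - 2 * Real.log (mw w)) / 2)) = Real.exp (-(6 * z)) * mw w := by
          have : -((12 * z - 2 * Real.log (mw w)) / 2) = -(6 * z) + Real.log (mw w) := by ring
          rw [this, Real.exp_add, Real.exp_log hm]
        rw [e] at h2
        calc thw z w ≤ C * (Real.exp (-(6 * z)) * mw w) := h2
          _ = C * Real.exp (-(6 * z)) * mw w := by ring
          _ ≤ C * Real.exp (-(6 * z)) * w := mul_le_mul_of_nonneg_left (mw_le w) (by positivity)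
      have h2 : (thw z w) ^ ((1 : ℝ) / 3) ≤ (thw z w) ^ ((1 - ε) / 3) :=
        Real.rpow_le_rpow_of_exponent_ge hb.1 (by linarith [hb.2]) (by linarith)
      have h3 : (thw z w) ^ ((1 - ε) / 3) ≤ (C * Real.exp (-(6 * z)) * w) ^ ((1 - ε) / 3) :=
        Real.rpow_le_rpow hb.1.le h1 (by linarith)
      have h4 : (C * Real.exp (-(6 * z)) * w) ^ ((1 - ε) / 3) =
          D * Real.exp (-(2 * (1 - ε) * z)) * (w : ℝ) ^ ((1 - ε) / 3) := by
        rw [Real.mul_rpow (by positivity) hwr.le, Real.mul_rpow hC.le (Real.exp_pos _).le,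
          ← Real.exp_mul, hD]
        congr 3
        ring
      have h5 : Hf (thw z w) ≤ 3 * (D * Real.exp (-(2 * (1 - ε) * z)) * (w : ℝ) ^ ((1 - ε) / 3)) := by
        refine (Hf_le hb.1.le hb.2).trans ?_
        rw [← h4]
        linarith
      have h6 : sh s w * Hf (thw z w) ≤
          2 * (3 * (D * Real.exp (-(2 * (1 - ε) * z)) * (w : ℝ) ^ ((1 - ε) / 3))) :=
        mul_le_mul (sh_le s w) h5 (Hf_nonneg hb.1.le hb.2) (by norm_num)
      have h7 : wgt w * (w : ℝ) ^ ((1 - ε) / 3) = fr (ε / 3) w := by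
        unfold Pool.Agent.V7H9.AL.wgt Pool.Agent.V7H9.AL.fr
        have : (w : ℝ) ^ (-(ε / 3)) = (w : ℝ) ^ (-(1 / 3) : ℝ) * (w : ℝ) ^ ((1 - ε) / 3) := by
          rw [← Real.rpow_add hwr]
          congr 1
          ring
        rw [this]
        ring
      have h8 := mul_le_mul_of_nonneg_left h6 (mul_nonneg hC0.le (wgt_nonneg w))
      refine h8.trans (le_of_eq ?_)
      rw [← h7]
      ring
  calc Gs s z ≤ ∑' w, 6 * C0 * D * Real.exp (-(2 * (1 - ε) * z)) * fr (ε / 3) w :=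
        (Gs_summable s z).tsum_le_tsum hterm (hsm.mul_left _)
    _ = 6 * C0 * D * Real.exp (-(2 * (1 - ε) * z)) * ∑' w, fr (ε / 3) w := tsum_mul_left
    _ = _ := by ring

end Pool.Agent.V7H9.FR
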