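import Pool.Agent.V7H9.FR.Loc

set_option autoImplicit false

/-!
# The curves with full two-torsion and their triples
-/

namespace Pool.Agent.V7H9.FR

open WeierstrassCurve
open Pool.Agent.TH498.AR (psi3)
open Pool.Agent.Results.MP_1ea25c_nt.AlmostAllTriples (triples rad3)

/-- every curve with full two-torsion comes from a triple -/
lemma ex_tri {E : WeierstrassCurve ℚ} (hE : E.Δ ≠ 0) (h : FullTwo E) :
    ∃ p : ℕ × ℕ, IsT p ∧ E.c₄ ^ 3 / E.Δ = jF p := by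
  obtain ⟨e, hinj, he⟩ := h
  have h01 : e 0 ≠ e 1 := fun h => absurd (hinj h) (by decide)
  have h02 : e 0 ≠ e 2 := fun h => absurd (hinj h) (by decide)
  have h12 : e 1 ≠ e 2 := fun h => absurd (hinj h) (by decide)
  -- sort the roots
  obtain ⟨x, y, z, hxy, hyz, hx, hy, hz⟩ : ∃ x y z : ℚ, x < y ∧ y < z ∧
      4 * x ^ 3 + E.b₂ * x ^ 2 + 2 * E.b₄ * x + E.b₆ = 0 ∧
      4 * y ^ 3 + E.b₂ * y ^ 2 + 2 * E.b₄ * y + E.b₆ = 0 ∧
      4 * z ^ 3 + E.b₂ * z ^ 2 + 2 * E.b₄ * z + E.b₆ = 0 := by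
    rcases lt_or_gt_of_ne h01 with a | a <;> rcases lt_or_gt_of_ne h02 with b | b <;>
      rcases lt_or_gt_of_ne h12 with c | c
    · exact ⟨_, _, _, a, c, he 0, he 1, he 2⟩
    · exact ⟨_, _, _, b, c, he 0, he 2, he 1⟩
    · exact absurd (a.trans c) (not_lt.2 b.le)
    · exact ⟨_, _, _, b, a, he 2, he 0, he 1⟩
    · exact ⟨_, _, _, a, b, he 1, he 0, he 2⟩
    · exact absurd (c.trans a) (not_lt.2 b.le)
    · exact ⟨_, _, _, c, b, he 1, he 2, he 0⟩
    · exact ⟨_, _, _, c, a, he 2, he 1, he 0⟩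
  -- the coefficients
  have k1 : 4 * (x ^ 2 + x * y + y ^ 2) + E.b₂ * (x + y) + 2 * E.b₄ = 0 := by
    have : (x - y) * (4 * (x ^ 2 + x * y + y ^ 2) + E.b₂ * (x + y) + 2 * E.b₄) = 0 := by
      linear_combination hx - hy
    exact (mul_eq_zero.1 this).resolve_left (by linarith)
  have k2 : 4 * (y ^ 2 + y * z + z ^ 2) + E.b₂ * (y + z) + 2 * E.b₄ = 0 := by
    have : (y - z) * (4 * (y ^ 2 + y * z + z ^ 2) + E.b₂ * (y + z) + 2 * E.b₄) = 0 := by
      linear_combination hy - hz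
    exact (mul_eq_zero.1 this).resolve_left (by linarith)
  have k3 : E.b₂ = -4 * (x + y + z) := by
    have : (x - z) * (4 * (x + y + z) + E.b₂) = 0 := by linear_combination k1 - k2
    have := (mul_eq_zero.1 this).resolve_left (by linarith)
    linarith
  have k4 : E.b₄ = 2 * (x * y + y * z + z * x) := by
    rw [k3] at k1
    linear_combination (1 / 2) * k1
  have k6 : E.b₆ = -4 * (x * y * z) := by
    rw [k3, k4] at hx
    linear_combination hx
  obtain ⟨u, hu⟩ : ∃ u : ℚ, u = y - x := ⟨_, rfl⟩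
  obtain ⟨v, hv⟩ : ∃ v : ℚ, v = z - y := ⟨_, rfl⟩
  have hu0 : 0 < u := by rw [hu]; linarith
  have hv0 : 0 < v := by rw [hv]; linarith
  have c4 : E.c₄ = 16 * (u ^ 2 + u * v + v ^ 2) := by
    unfold WeierstrassCurve.c₄
    rw [k3, k4, hu, hv]
    ring
  have hD : E.Δ = 16 * (u * v * (u + v)) ^ 2 := by
    have h4 : 4 * E.Δ = 4 * (16 * (u * v * (u + v)) ^ 2) := by
      have e8 := E.b_relation
      unfold WeierstrassCurve.Δ
      have : 4 * (-E.b₂ ^ 2 * E.b₈ - 8 * E.b₄ ^ 3 - 27 * E.b₆ ^ 2 + 9 * E.b₂ * E.b₄ * E.b₆) =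
          -E.b₂ ^ 2 * (E.b₂ * E.b₆ - E.b₄ ^ 2) - 32 * E.b₄ ^ 3 - 108 * E.b₆ ^ 2 +
            36 * E.b₂ * E.b₄ * E.b₆ := by
        linear_combination (-E.b₂ ^ 2) * e8
      rw [this, k3, k4, k6, hu, hv]
      ring
    linarith
  -- the coprime pair
  obtain ⟨r, hr⟩ : ∃ r : ℚ, r = u / v := ⟨_, rfl⟩
  have hr0 : 0 < r := by rw [hr]; positivity
  obtain ⟨a, ha⟩ : ∃ a : ℕ, a = r.num.natAbs := ⟨_, rfl⟩
  obtain ⟨b, hb⟩ : ∃ b : ℕ, b = r.den := ⟨_, rfl⟩
  have hnum : 0 < r.num := Rat.num_pos.2 hr0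
  have ha0 : 0 < a := by rw [ha]; exact Int.natAbs_pos.2 hnum.ne'
  have hb0 : 0 < b := by rw [hb]; exact r.den_pos
  have hab : Nat.Coprime a b := by rw [ha, hb]; exact r.reduced
  have hrab : r = (a : ℚ) / b := by
    have h1 : (a : ℤ) = r.num := by rw [ha]; exact Int.natAbs_of_nonneg hnum.le
    have h2 : (a : ℚ) = (r.num : ℚ) := by exact_mod_cast h1
    rw [h2, hb]
    exact (Rat.num_div_den r).symm
  have hb0' : (0 : ℚ) < b := by exact_mod_cast hb0
  have ha0' : (0 : ℚ) < a := by exact_mod_cast ha0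
  have huv : u = a * (v / b) := by
    have : u = r * v := by rw [hr]; field_simp
    rw [this, hrab]
    field_simp
  obtain ⟨g, hg⟩ : ∃ g : ℚ, g = v / b := ⟨_, rfl⟩
  have hg0 : 0 < g := by rw [hg]; positivity
  have hvg : v = b * g := by rw [hg]; field_simp
  rw [← hg] at huv
  have hj : E.c₄ ^ 3 / E.Δ = 256 * ((a : ℚ) ^ 2 + a * b + b ^ 2) ^ 3 / (a * b * (a + b)) ^ 2 := by
    rw [c4, hD, huv, hvg]
    field_simp
    ring
  rw [hj]
  rcases le_total a b with h | h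
  · refine ⟨(a, b), ⟨ha0, h, hab⟩, ?_⟩
    unfold jF nor tri
    push_cast
    rfl
  · refine ⟨(b, a), ⟨hb0, h, hab.symm⟩, ?_⟩
    unfold jF nor tri
    push_cast
    congr 2
    · ring
    · ring

lemma pn_nat {q : ℕ} [Fact q.Prime] (n : ℕ) : padicNorm q n ≤ 1 := by
  have := padicNorm.of_int (p := q) (n : ℤ)
  exact_mod_cast this

/-- the norm of the invariant at an odd prime -/
lemma jF_odd {q : ℕ} (hq : q.Prime) (h2 : q ≠ 2) {p : ℕ × ℕ} (hp : IsT p) (hd : q ∣ tri p) :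
    1 < padicNorm q (jF p) := by
  have : Fact q.Prime := ⟨hq⟩
  unfold jF
  have e1 : padicNorm q (256 : ℚ) = 1 := by
    have := (padicNorm.nat_eq_one_iff (p := q) 256).2 (fun h => by
      have h3 : q ∣ 2 ^ 8 := by norm_num; exact h
      have := (Nat.prime_dvd_prime_iff_eq hq Nat.prime_two).1 (hq.dvd_of_dvd_pow h3)
      exact h2 this)
    exact_mod_cast this
  have e2 : padicNorm q (nor p : ℚ) = 1 := (padicNorm.nat_eq_one_iff (p := q) _).2 (fun h => by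
    have := Nat.dvd_gcd h hd
    rw [(nor_cop hp).gcd_eq_one] at this
    exact hq.one_lt.ne' (Nat.dvd_one.1 this))
  have e3 : padicNorm q (tri p : ℚ) < 1 := by
    have := (padicNorm.int_lt_one_iff (p := q) (tri p : ℤ)).2 (by exact_mod_cast hd)
    exact_mod_cast this
  have e4 : 0 < padicNorm q (tri p : ℚ) := by
    refine lt_of_le_of_ne (padicNorm.nonneg _) (padicNorm.nonzero ?_).symm
    exact_mod_cast (tri_pos hp).ne'
  rw [padicNorm.div, padicNorm.mul, pn_pow, pn_pow, e1, e2, one_pow, one_mul,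
    lt_div_iff₀ (by positivity), one_mul]
  exact pow_lt_one₀ e4.le e3 two_ne_zero

lemma pn_two (n : ℕ) (hn : n ≠ 0) : padicNorm 2 (n : ℚ) = (2 : ℚ) ^ (-(v2 n : ℤ)) := by
  rw [padicNorm.eq_zpow_of_nonzero (by exact_mod_cast hn)]
  norm_num
  rw [v2, Nat.factorization_def _ Nat.prime_two]

/-- the norm at `2` -/
lemma jF_two {p : ℕ × ℕ} (hp : IsT p) :
    padicNorm 2 (jF p) = (2 : ℚ) ^ (2 * (v2 (tri p) : ℤ) - 8) := by
  have : Fact (Nat.Prime 2) := ⟨Nat.prime_two⟩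
  unfold jF
  have e1 : padicNorm 2 (256 : ℚ) = (2 : ℚ) ^ (-8 : ℤ) := by
    have h := padicNorm.padicNorm_p (p := 2) (by norm_num)
    have : (256 : ℚ) = ((2 : ℕ) : ℚ) ^ 8 := by norm_num
    rw [this, pn_pow, h]
    norm_num
  have e2 : padicNorm 2 (nor p : ℚ) = 1 := (padicNorm.nat_eq_one_iff (p := 2) _).2 (nor_odd hp)
  rw [padicNorm.div, padicNorm.mul, pn_pow, pn_pow, e1, e2, one_pow, mul_one,
    pn_two _ (tri_pos hp).ne', ← zpow_natCast, ← zpow_mul, ← zpow_sub₀ (by norm_num)]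
  congr 1
  push_cast
  ring

/-- the bad primes of the triple -/
def BadT (p : ℕ × ℕ) (q : ℕ) : Prop := q ∣ tri p ∧ ¬ (q = 2 ∧ v2 (tri p) = 4)

/-- they are bad for every curve -/
lemma bad_of {q : ℕ} (hq : q.Prime) {p : ℕ × ℕ} (hp : IsT p) (hb : BadT p q)
    {E : WeierstrassCurve ℚ} (h : FullTwo E) (hj : E.c₄ ^ 3 / E.Δ = jF p) : ¬ GoodAt q E := by
  have : Fact q.Prime := ⟨hq⟩
  intro hg
  by_cases h2 : q = 2
  · subst h2
    have hv : v2 (tri p) ≠ 4 := fun h => hb.2 ⟨rfl, h⟩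
    rcases lt_or_gt_of_ne hv with hv | hv
    · refine bad_two h ?_ hg
      rw [hj, jF_two hp]
      exact zpow_lt_one_of_neg₀ (by norm_num) (by omega)
    · have h3 := good_int hg
      rw [hj, jF_two hp] at h3
      exact absurd (one_lt_zpow₀ (by norm_num : (1 : ℚ) < 2) (by omega :
        0 < 2 * (v2 (tri p) : ℤ) - 8)) (not_lt.2 h3)
  · have h3 := good_int hg
    rw [hj] at h3
    exact absurd (jF_odd hq h2 hp hb.1) (not_lt.2 h3)

/-- semistable curves have `16 ∣ abc` -/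
lemma semi_v2 {p : ℕ × ℕ} (hp : IsT p) {E : WeierstrassCurve ℚ} (hE : E.Δ ≠ 0) (h : FullTwo E)
    (hs : SemiAt 2 E) (hj : E.c₄ ^ 3 / E.Δ = jF p) : 4 ≤ v2 (tri p) := by
  have h1 := semi_two hE h hs
  rw [hj, jF_two hp] at h1
  by_contra hc
  push Not at hc
  exact absurd (zpow_lt_one_of_neg₀ (by norm_num : (1 : ℚ) < 2) (by omega :
    2 * (v2 (tri p) : ℤ) - 8 < 0)) (not_lt.2 h1)

/-- an integral curve -/
lemma int_at {q : ℕ} (hq : q.Prime) (W : WeierstrassCurve ℤ) :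
    IntAt q ((1 : VariableChange ℚ) • W.map (Int.castRingHom ℚ)) := by
  have : Fact q.Prime := ⟨hq⟩
  rw [one_smul]
  exact ⟨padicNorm.of_int _, padicNorm.of_int _, padicNorm.of_int _, padicNorm.of_int _,
    padicNorm.of_int _⟩

lemma good_at {q : ℕ} (hq : q.Prime) (W : WeierstrassCurve ℤ) (h : ¬ (q : ℤ) ∣ W.Δ) :
    GoodAt q (W.map (Int.castRingHom ℚ)) := by
  have : Fact q.Prime := ⟨hq⟩
  refine ⟨1, int_at hq W, ?_⟩
  rw [one_smul, map_Δ]
  exact (padicNorm.int_eq_one_iff _).2 h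

lemma semi_at {q : ℕ} (hq : q.Prime) (W : WeierstrassCurve ℤ)
    (h : (q : ℤ) ∣ W.Δ → ¬ (q : ℤ) ∣ W.c₄) : SemiAt q (W.map (Int.castRingHom ℚ)) := by
  have : Fact q.Prime := ⟨hq⟩
  refine ⟨1, int_at hq W, ?_⟩
  by_cases hd : (q : ℤ) ∣ W.Δ
  · right
    rw [one_smul, map_c₄]
    exact (padicNorm.int_eq_one_iff _).2 (h hd)
  · left
    rw [one_smul, map_Δ]
    exact (padicNorm.int_eq_one_iff _).2 hd

/-- the Frey curve -/
lemma ex_frey {p : ℕ × ℕ} (hp : IsT p) : ∃ E : WeierstrassCurve ℚ, E.Δ ≠ 0 ∧ FullTwo E ∧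
    E.c₄ ^ 3 / E.Δ = jF p ∧ ∀ q : ℕ, q.Prime → ¬ GoodAt q E → q ∣ tri p := by
  obtain ⟨a, ha⟩ : ∃ a : ℤ, a = (p.1 : ℤ) := ⟨_, rfl⟩
  obtain ⟨b, hb⟩ : ∃ b : ℤ, b = (p.2 : ℤ) := ⟨_, rfl⟩
  have ha0 : 0 < a := by rw [ha]; exact_mod_cast hp.1
  have hb0 : 0 < b := by rw [hb]; exact_mod_cast (lt_of_lt_of_le hp.1 hp.2.1)
  have htri : ((tri p : ℕ) : ℤ) = a * b * (a + b) := by
    unfold tri
    rw [ha, hb]
    push_cast
    rfl
  have hnor : ((nor p : ℕ) : ℤ) = a ^ 2 + a * b + b ^ 2 := by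
    unfold nor
    rw [ha, hb]
    push_cast
    rfl
  obtain ⟨W, hW⟩ : ∃ W : WeierstrassCurve ℤ, W = ⟨0, b - a, 0, -(a * b), 0⟩ := ⟨_, rfl⟩
  have hc4 : W.c₄ = 16 * (nor p : ℤ) := by
    rw [hW, hnor]
    simp only [WeierstrassCurve.c₄, WeierstrassCurve.b₂, WeierstrassCurve.b₄]
    ring
  have hD : W.Δ = 16 * (tri p : ℤ) ^ 2 := by
    rw [hW, htri]
    simp only [WeierstrassCurve.Δ, WeierstrassCurve.b₂, WeierstrassCurve.b₄, WeierstrassCurve.b₆,
      WeierstrassCurve.b₈]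
    ring
  have ht0 : (0 : ℚ) < tri p := by exact_mod_cast tri_pos hp
  have hb2 : W.b₂ = 4 * (b - a) := by
    rw [hW]
    simp only [WeierstrassCurve.b₂]
    ring
  have hb4 : W.b₄ = -2 * (a * b) := by
    rw [hW]
    simp only [WeierstrassCurve.b₄]
    ring
  have hb6 : W.b₆ = 0 := by
    rw [hW]
    simp only [WeierstrassCurve.b₆]
    ring
  refine ⟨W.map (Int.castRingHom ℚ), ?_, ?_, ?_, fun q hq hbad => ?_⟩
  · rw [map_Δ, hD]
    simp only [eq_intCast]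
    push_cast
    positivity
  · refine ⟨![0, (a : ℚ), -(b : ℚ)], ?_, ?_⟩
    · have ha' : (0 : ℚ) < a := by exact_mod_cast ha0
      have hb' : (0 : ℚ) < b := by exact_mod_cast hb0
      intro i j hij
      fin_cases i <;> fin_cases j <;> simp at hij ⊢ <;> linarith
    · rw [map_b₂, map_b₄, map_b₆, hb2, hb4, hb6]
      intro i
      fin_cases i
      · simp
      · simp
        ring
      · simp
        ring
  · rw [map_Δ, map_c₄, hD, hc4]
    simp only [eq_intCast]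
    push_cast
    unfold jF
    field_simp
    ring
  · by_contra hcon
    refine hbad (good_at hq W ?_)
    rw [hD]
    intro hdvd
    have hqp : Prime (q : ℤ) := Nat.prime_iff_prime_int.1 hq
    have hd2 : (q : ℤ) ∣ tri p := by
      rcases hqp.dvd_or_dvd hdvd with h | h
      · have h16 : (q : ℤ) ∣ 2 ^ 4 := by norm_num; exact h
        have h2 : (q : ℤ) ∣ 2 := hqp.dvd_of_dvd_pow h16
        have h3 : q ∣ 2 := by exact_mod_cast h2
        exact_mod_cast h3.trans (two_dvd_tri p)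
      · exact hqp.dvd_of_dvd_pow h
    exact hcon (by exact_mod_cast hd2)

/-- the signs -/
lemma signs {p : ℕ × ℕ} (hp : IsT p) (hv : 4 ≤ v2 (tri p)) : ∃ k l : ℤ, l ≠ 0 ∧
    4 * k + 3 + 16 * l ≠ 0 ∧
    (4 * k + 3) ^ 2 + (4 * k + 3) * (16 * l) + (16 * l) ^ 2 = (nor p : ℤ) ∧
    ((4 * k + 3) * (16 * l) * (4 * k + 3 + 16 * l)) ^ 2 = (tri p : ℤ) ^ 2 := by
  obtain ⟨h1, h2, h3⟩ := id hp
  have h16 : 16 ∣ tri p := by
    have : 2 ^ 4 ∣ tri p := (Nat.prime_two.pow_dvd_iff_le_factorization (tri_pos hp).ne').2 hv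
    norm_num at this
    exact this
  obtain ⟨a, ha⟩ : ∃ a : ℤ, a = (p.1 : ℤ) := ⟨_, rfl⟩
  obtain ⟨b, hb⟩ : ∃ b : ℤ, b = (p.2 : ℤ) := ⟨_, rfl⟩
  have ha0 : 0 < a := by rw [ha]; exact_mod_cast hp.1
  have hb0 : 0 < b := by rw [hb]; exact_mod_cast (lt_of_lt_of_le hp.1 hp.2.1)
  have htri : ((tri p : ℕ) : ℤ) = a * b * (a + b) := by
    unfold tri
    rw [ha, hb]
    push_cast
    rfl
  have hnor : ((nor p : ℕ) : ℤ) = a ^ 2 + a * b + b ^ 2 := by
    unfold nor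
    rw [ha, hb]
    push_cast
    rfl
  -- an odd number up to sign
  have hodd : ∀ x : ℤ, ¬ 2 ∣ x → ∃ (k ε : ℤ), ε ^ 2 = 1 ∧ 4 * k + 3 = ε * x := by
    intro x hx
    rcases (by omega : x % 4 = 3 ∨ x % 4 = 1) with h | h
    · exact ⟨x / 4, 1, by norm_num, by omega⟩
    · exact ⟨(-x) / 4, -1, by norm_num, by omega⟩
  -- the general case
  have gen : ∀ x y : ℤ, x ≠ 0 → y ≠ 0 → x + y ≠ 0 → ¬ 2 ∣ x → 16 ∣ y →
      x ^ 2 + x * y + y ^ 2 = (nor p : ℤ) → (x * y * (x + y)) ^ 2 = (tri p : ℤ) ^ 2 →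
      ∃ k l : ℤ, l ≠ 0 ∧ 4 * k + 3 + 16 * l ≠ 0 ∧
        (4 * k + 3) ^ 2 + (4 * k + 3) * (16 * l) + (16 * l) ^ 2 = (nor p : ℤ) ∧
        ((4 * k + 3) * (16 * l) * (4 * k + 3 + 16 * l)) ^ 2 = (tri p : ℤ) ^ 2 := by
    intro x y hx hy hxy hx2 hy16 e1 e2
    obtain ⟨k, ε, hε, hk⟩ := hodd x hx2
    obtain ⟨m, hm⟩ := hy16
    have hε0 : ε ≠ 0 := by
      rintro rfl
      norm_num at hε
    refine ⟨k, ε * m, ?_, ?_, ?_, ?_⟩
    · refine mul_ne_zero hε0 ?_
      rintro rfl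
      exact hy (by rw [hm]; ring)
    · have : 4 * k + 3 + 16 * (ε * m) = ε * (x + y) := by
        rw [hk, hm]
        ring
      rw [this]
      exact mul_ne_zero hε0 hxy
    · rw [hk, ← e1, hm]
      linear_combination (x ^ 2 + x * (16 * m) + (16 * m) ^ 2) * hε
    · rw [hk, ← e2, hm]
      have : (ε * x * (16 * (ε * m)) * (ε * x + 16 * (ε * m))) ^ 2 =
          (ε ^ 2) ^ 3 * (x * (16 * m) * (x + 16 * m)) ^ 2 := by ring
      rw [this, hε]
      ring
  have hcab : IsCoprime a b := by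
    rw [ha, hb]
    exact Nat.isCoprime_iff_coprime.2 h3
  have hnot : ∀ x y : ℤ, IsCoprime x y → 2 ∣ x → ¬ 2 ∣ y := by
    intro x y hxy hx hy
    have := hxy.isUnit_of_dvd' hx hy
    norm_num [Int.isUnit_iff] at this
  have hpow : ∀ x y : ℤ, ¬ 2 ∣ y → 16 ∣ x * y → 16 ∣ x := by
    intro x y hy h
    have h2 : IsCoprime (16 : ℤ) y := by
      have : IsCoprime (2 : ℤ) y := (Int.prime_two.coprime_iff_not_dvd).2 hy
      have := this.pow_left (m := 4)
      norm_num at this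
      exact this
    exact h2.dvd_of_dvd_mul_right h
  have h16' : (16 : ℤ) ∣ a * b * (a + b) := by
    rw [← htri]
    exact_mod_cast h16
  by_cases hb2 : 2 ∣ b
  · have ha2 : ¬ 2 ∣ a := hnot b a hcab.symm hb2
    have hc2 : ¬ 2 ∣ a + b := fun h => ha2 ((Int.dvd_iff_dvd_of_dvd_add h).2 hb2)
    have hb16 : 16 ∣ b := by
      refine hpow b (a * (a + b)) ?_ (by rw [show b * (a * (a + b)) = a * b * (a + b) by ring]
                                         exact h16')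
      intro h
      rcases Int.prime_two.dvd_or_dvd h with h | h
      · exact ha2 h
      · exact hc2 h
    exact gen a b ha0.ne' hb0.ne' (by linarith) ha2 hb16 hnor.symm (by rw [htri])
  · by_cases ha2 : 2 ∣ a
    · have hc2 : ¬ 2 ∣ a + b := fun h => hb2 ((Int.dvd_iff_dvd_of_dvd_add h).1 ha2)
      have ha16 : 16 ∣ a := by
        refine hpow a (b * (a + b)) ?_ (by rw [show a * (b * (a + b)) = a * b * (a + b) by ring]
                                           exact h16')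
        intro h
        rcases Int.prime_two.dvd_or_dvd h with h | h
        · exact hb2 h
        · exact hc2 h
      refine gen b a hb0.ne' ha0.ne' (by linarith) hb2 ha16 (by rw [hnor]; ring) (by rw [htri]; ring)
    · have hc16 : 16 ∣ a + b := by
        refine hpow (a + b) (a * b) ?_ (by rw [show (a + b) * (a * b) = a * b * (a + b) by ring]
                                           exact h16')
        intro h
        rcases Int.prime_two.dvd_or_dvd h with h | h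
        · exact ha2 h
        · exact hb2 h
      refine gen a (-(a + b)) ha0.ne' (by linarith) (by linarith) ha2 (hc16.neg_right)
        (by rw [hnor]; ring) (by rw [htri]; ring)

/-- the semistable Frey curve -/
lemma ex_semi {p : ℕ × ℕ} (hp : IsT p) (hv : 4 ≤ v2 (tri p)) : ∃ E : WeierstrassCurve ℚ,
    E.Δ ≠ 0 ∧ FullTwo E ∧ E.c₄ ^ 3 / E.Δ = jF p ∧ (∀ q : ℕ, q.Prime → SemiAt q E) ∧
    ∀ q : ℕ, q.Prime → ¬ GoodAt q E → BadT p q := by
  obtain ⟨k, l, hl, hkl, hn, ht⟩ := signs hp hv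
  obtain ⟨W, hW⟩ : ∃ W : WeierstrassCurve ℤ, W = ⟨1, 4 * l - k - 1, 0, -((4 * k + 3) * l), 0⟩ :=
    ⟨_, rfl⟩
  have hc4 : W.c₄ = (nor p : ℤ) := by
    rw [hW, ← hn]
    simp only [WeierstrassCurve.c₄, WeierstrassCurve.b₂, WeierstrassCurve.b₄]
    ring
  have hD : W.Δ = ((4 * k + 3) * l * (4 * k + 3 + 16 * l)) ^ 2 := by
    rw [hW]
    simp only [WeierstrassCurve.Δ, WeierstrassCurve.b₂, WeierstrassCurve.b₄, WeierstrassCurve.b₆,
      WeierstrassCurve.b₈]
    ring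
  have hD2 : 256 * W.Δ = (tri p : ℤ) ^ 2 := by
    rw [hD, ← ht]
    ring
  have hb2 : W.b₂ = 16 * l - (4 * k + 3) := by
    rw [hW]
    simp only [WeierstrassCurve.b₂]
    ring
  have hb4 : W.b₄ = -2 * ((4 * k + 3) * l) := by
    rw [hW]
    simp only [WeierstrassCurve.b₄]
    ring
  have hb6 : W.b₆ = 0 := by
    rw [hW]
    simp only [WeierstrassCurve.b₆]
    ring
  have ht0 : (0 : ℚ) < tri p := by exact_mod_cast tri_pos hp
  have hDq : (256 : ℚ) * (W.Δ : ℚ) = (tri p : ℚ) ^ 2 := by exact_mod_cast hD2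
  have hDq0 : (W.Δ : ℚ) ≠ 0 := by
    intro h
    rw [h, mul_zero] at hDq
    have : (0 : ℚ) < (tri p : ℚ) ^ 2 := by positivity
    linarith
  have hdiv : ∀ q : ℕ, q.Prime → (q : ℤ) ∣ W.Δ → q ∣ tri p := by
    intro q hq h
    have hqp : Prime (q : ℤ) := Nat.prime_iff_prime_int.1 hq
    have : (q : ℤ) ∣ (tri p : ℤ) ^ 2 := by
      rw [← hD2]
      exact h.mul_left _
    exact_mod_cast hqp.dvd_of_dvd_pow this
  have h3k : (4 * k + 3 : ℤ) ≠ 0 := by omega
  refine ⟨W.map (Int.castRingHom ℚ), ?_, ?_, ?_, fun q hq => ?_, fun q hq hbad => ?_⟩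
  · rw [map_Δ]
    exact hDq0
  · refine ⟨![0, ((4 * k + 3 : ℤ) : ℚ) / 4, -(4 * (l : ℚ))], ?_, ?_⟩
    · have g1 : ((4 * k + 3 : ℤ) : ℚ) / 4 ≠ 0 := by
        have : ((4 * k + 3 : ℤ) : ℚ) ≠ 0 := by exact_mod_cast h3k
        positivity
      have g2 : (4 * (l : ℚ)) ≠ 0 := by
        have : (l : ℚ) ≠ 0 := by exact_mod_cast hl
        positivity
      have g3 : ((4 * k + 3 : ℤ) : ℚ) / 4 + 4 * (l : ℚ) ≠ 0 := by
        have : ((4 * k + 3 + 16 * l : ℤ) : ℚ) ≠ 0 := by exact_mod_cast hkl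
        intro h
        apply this
        push_cast at h ⊢
        linarith
      obtain ⟨x, hx⟩ : ∃ x : ℚ, x = ((4 * k + 3 : ℤ) : ℚ) / 4 := ⟨_, rfl⟩
      obtain ⟨y, hy⟩ : ∃ y : ℚ, y = 4 * (l : ℚ) := ⟨_, rfl⟩
      rw [← hx] at g1 g3 ⊢
      rw [← hy] at g2 g3 ⊢
      intro i j hij
      fin_cases i <;> fin_cases j
      · rfl
      · exact absurd hij.symm g1
      · exact absurd (neg_eq_zero.1 hij.symm) g2
      · exact absurd hij g1
      · rfl
      · exact absurd (show x + y = 0 by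
          have : x = -y := hij
          linarith) g3
      · exact absurd (neg_eq_zero.1 hij) g2
      · exact absurd (show x + y = 0 by
          have : -y = x := hij
          linarith) g3
      · rfl
    · rw [map_b₂, map_b₄, map_b₆, hb2, hb4, hb6]
      intro i
      fin_cases i
      · simp
      · simp
        ring
      · simp
        ring
  · rw [map_Δ, map_c₄, hc4]
    simp only [eq_intCast, Int.cast_natCast]
    unfold jF
    rw [← hDq]
    field_simp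
  · refine semi_at hq W fun h => ?_
    rw [hc4]
    intro h2
    have h3 : q ∣ nor p := by exact_mod_cast h2
    have := Nat.dvd_gcd h3 (hdiv q hq h)
    rw [(nor_cop hp).gcd_eq_one] at this
    exact hq.one_lt.ne' (Nat.dvd_one.1 this)
  · have hd : (q : ℤ) ∣ W.Δ := by
      by_contra hcon
      exact hbad (good_at hq W hcon)
    refine ⟨hdiv q hq hd, ?_⟩
    rintro ⟨rfl, h4⟩
    -- `W.Δ` is odd
    have h1 : (2 * 256 : ℤ) ∣ (tri p : ℤ) ^ 2 := by
      rw [← hD2, mul_comm]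
      exact mul_dvd_mul_left _ (by exact_mod_cast hd)
    have h2 : 2 ^ 9 ∣ (tri p) ^ 2 := by
      have : ((2 ^ 9 : ℕ) : ℤ) ∣ ((tri p ^ 2 : ℕ) : ℤ) := by
        push_cast
        norm_num at h1 ⊢
        exact h1
      exact_mod_cast this
    have h3 := (Nat.prime_two.pow_dvd_iff_le_factorization
      (pow_ne_zero 2 (tri_pos hp).ne')).1 h2
    rw [Nat.factorization_pow] at h3
    have h5 : (2 • (tri p).factorization) 2 = 2 * v2 (tri p) := by
      rw [Finsupp.smul_apply, smul_eq_mul]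
      rfl
    rw [h5, h4] at h3
    omega

end Pool.Agent.V7H9.FR
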