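import Pool.Agent.V7H9.FR.Tri

set_option autoImplicit false

/-!
# Reduction of elliptic curves over `ℚ` with full rational two-torsion
-/

namespace Pool.Agent.V7H9.FR

open WeierstrassCurve

/-- full rational two-torsion -/
def FullTwo (E : WeierstrassCurve ℚ) : Prop :=
  ∃ e : Fin 3 → ℚ, Function.Injective e ∧
    ∀ i, 4 * e i ^ 3 + E.b₂ * e i ^ 2 + 2 * E.b₄ * e i + E.b₆ = 0

/-- integral at `q` -/
def IntAt (q : ℕ) (V : WeierstrassCurve ℚ) : Prop :=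
  padicNorm q V.a₁ ≤ 1 ∧ padicNorm q V.a₂ ≤ 1 ∧ padicNorm q V.a₃ ≤ 1 ∧
    padicNorm q V.a₄ ≤ 1 ∧ padicNorm q V.a₆ ≤ 1

/-- good reduction -/
def GoodAt (q : ℕ) (E : WeierstrassCurve ℚ) : Prop :=
  ∃ C : VariableChange ℚ, IntAt q (C • E) ∧ padicNorm q (C • E).Δ = 1

/-- semistable reduction -/
def SemiAt (q : ℕ) (E : WeierstrassCurve ℚ) : Prop :=
  ∃ C : VariableChange ℚ, IntAt q (C • E) ∧
    (padicNorm q (C • E).Δ = 1 ∨ padicNorm q (C • E).c₄ = 1)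

lemma pn_pow {q : ℕ} [Fact q.Prime] (x : ℚ) (n : ℕ) : padicNorm q (x ^ n) = padicNorm q x ^ n := by
  induction n with
  | zero => rw [pow_zero, pow_zero, padicNorm.one]
  | succ n ih => rw [pow_succ, padicNorm.mul, ih, pow_succ]

lemma lift {q : ℕ} [Fact q.Prime] {V : WeierstrassCurve ℚ} (h : IntAt q V) :
    ∃ W : WeierstrassCurve ℤ_[q], W.map (PadicInt.Coe.ringHom (p := q)) =
      V.map (Rat.castHom ℚ_[q]) := by
  obtain ⟨h1, h2, h3, h4, h6⟩ := h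
  have key : ∀ x : ℚ, padicNorm q x ≤ 1 → ‖(x : ℚ_[q])‖ ≤ 1 := by
    intro x hx
    rw [Padic.eq_padicNorm]
    exact_mod_cast hx
  exact ⟨⟨⟨V.a₁, key _ h1⟩, ⟨V.a₂, key _ h2⟩, ⟨V.a₃, key _ h3⟩, ⟨V.a₄, key _ h4⟩,
    ⟨V.a₆, key _ h6⟩⟩, rfl⟩

lemma lift_c4 {q : ℕ} [Fact q.Prime] {V : WeierstrassCurve ℚ} {W : WeierstrassCurve ℤ_[q]}
    (h : W.map (PadicInt.Coe.ringHom (p := q)) = V.map (Rat.castHom ℚ_[q])) :
    (W.c₄ : ℚ_[q]) = (V.c₄ : ℚ_[q]) := by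
  have h1 := congrArg WeierstrassCurve.c₄ h
  rw [map_c₄, map_c₄] at h1
  exact h1

lemma lift_D {q : ℕ} [Fact q.Prime] {V : WeierstrassCurve ℚ} {W : WeierstrassCurve ℤ_[q]}
    (h : W.map (PadicInt.Coe.ringHom (p := q)) = V.map (Rat.castHom ℚ_[q])) :
    (W.Δ : ℚ_[q]) = (V.Δ : ℚ_[q]) := by
  have h1 := congrArg WeierstrassCurve.Δ h
  rw [map_Δ, map_Δ] at h1
  exact h1

lemma norm_lift {q : ℕ} [Fact q.Prime] {x : ℤ_[q]} {y : ℚ} (h : (x : ℚ_[q]) = (y : ℚ_[q])) :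
    ‖x‖ = (padicNorm q y : ℝ) := by
  rw [PadicInt.norm_def, h, Padic.eq_padicNorm]

lemma c4_int {q : ℕ} [Fact q.Prime] {V : WeierstrassCurve ℚ} (h : IntAt q V) :
    padicNorm q V.c₄ ≤ 1 := by
  obtain ⟨W, hW⟩ := lift h
  have h1 := norm_lift (lift_c4 hW)
  have h2 := PadicInt.norm_le_one W.c₄
  rw [h1] at h2
  exact_mod_cast h2

lemma D_int {q : ℕ} [Fact q.Prime] {V : WeierstrassCurve ℚ} (h : IntAt q V) :
    padicNorm q V.Δ ≤ 1 := by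
  obtain ⟨W, hW⟩ := lift h
  have h1 := norm_lift (lift_D hW)
  have h2 := PadicInt.norm_le_one W.Δ
  rw [h1] at h2
  exact_mod_cast h2

lemma j_change (E : WeierstrassCurve ℚ) (C : VariableChange ℚ) :
    (C • E).c₄ ^ 3 / (C • E).Δ = E.c₄ ^ 3 / E.Δ := by
  rw [variableChange_c₄, variableChange_Δ, mul_pow, ← pow_mul]
  have hu : ((C.u⁻¹ : ℚˣ) : ℚ) ^ 12 ≠ 0 := pow_ne_zero _ (Units.ne_zero _)
  exact mul_div_mul_left _ _ hu

lemma good_int {q : ℕ} [Fact q.Prime] {E : WeierstrassCurve ℚ} (h : GoodAt q E) :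
    padicNorm q (E.c₄ ^ 3 / E.Δ) ≤ 1 := by
  obtain ⟨C, h1, h2⟩ := h
  rw [← j_change E C, padicNorm.div, h2, div_one, pn_pow]
  exact pow_le_one₀ (padicNorm.nonneg _) (c4_int h1)

lemma mult_ge {q : ℕ} [Fact q.Prime] {E : WeierstrassCurve ℚ} (hD : E.Δ ≠ 0)
    {C : VariableChange ℚ} (h1 : IntAt q (C • E)) (h2 : padicNorm q (C • E).c₄ = 1) :
    1 ≤ padicNorm q (E.c₄ ^ 3 / E.Δ) := by
  rw [← j_change E C, padicNorm.div, pn_pow, h2, one_pow]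
  have h3 : (C • E).Δ ≠ 0 := by
    rw [variableChange_Δ]
    exact mul_ne_zero (pow_ne_zero _ (Units.ne_zero _)) hD
  have h4 : 0 < padicNorm q (C • E).Δ :=
    lt_of_le_of_ne (padicNorm.nonneg _) (padicNorm.nonzero h3).symm
  rw [le_div_iff₀ h4, one_mul]
  exact D_int h1

/-- no two-torsion for good supersingular reduction at `2` -/
lemma no_root {R : Type*} [CommRing R] [IsDomain R] (h2 : Prime (2 : R)) (W : WeierstrassCurve R)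
    (hc : 2 ∣ W.c₄) (hD : ¬ 2 ∣ W.Δ) (f : R)
    (hf : f ^ 3 + W.b₂ * f ^ 2 + 8 * W.b₄ * f + 16 * W.b₆ = 0) : False := by
  have two0 : (2 : R) ≠ 0 := h2.ne_zero
  have a1 : 2 ∣ W.b₂ := by
    have : 2 ∣ W.b₂ ^ 2 := by
      have e : W.b₂ ^ 2 = W.c₄ + 2 * (12 * W.b₄) := by
        unfold WeierstrassCurve.c₄
        ring
      rw [e]
      exact dvd_add hc (dvd_mul_right _ _)
    exact h2.dvd_of_dvd_pow this
  have a2 : 2 ∣ W.a₁ := by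
    have : 2 ∣ W.a₁ ^ 2 := by
      have e : W.a₁ ^ 2 = W.b₂ - 2 * (2 * W.a₂) := by
        unfold WeierstrassCurve.b₂
        ring
      rw [e]
      exact dvd_sub a1 (dvd_mul_right _ _)
    exact h2.dvd_of_dvd_pow this
  obtain ⟨α, hα⟩ := a2
  obtain ⟨β, hβ⟩ : ∃ β, W.b₂ = 4 * β := ⟨α ^ 2 + W.a₂, by
    unfold WeierstrassCurve.b₂
    rw [hα]
    ring⟩
  obtain ⟨γ, hγ⟩ : ∃ γ, W.b₄ = 2 * γ := ⟨W.a₄ + α * W.a₃, by
    unfold WeierstrassCurve.b₄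
    rw [hα]
    ring⟩
  have hb6 : ¬ 2 ∣ W.b₆ := by
    rintro ⟨δ, hδ⟩
    apply hD
    refine ⟨-8 * β ^ 2 * W.b₈ - 4 * W.b₄ ^ 3 - 54 * δ ^ 2 + 9 * W.b₂ * W.b₄ * δ, ?_⟩
    unfold WeierstrassCurve.Δ
    rw [hδ, hβ]
    ring
  rw [hβ, hγ] at hf
  obtain ⟨g, hg⟩ : 2 ∣ f := by
    refine h2.dvd_of_dvd_pow (n := 3) ⟨-(2 * β * f ^ 2 + 8 * γ * f + 8 * W.b₆), ?_⟩
    linear_combination hf
  have e1 : g ^ 3 + 2 * β * g ^ 2 + 4 * γ * g + 2 * W.b₆ = 0 := by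
    have : (2 : R) ^ 3 * (g ^ 3 + 2 * β * g ^ 2 + 4 * γ * g + 2 * W.b₆) = 0 := by
      rw [hg] at hf
      linear_combination hf
    exact (mul_eq_zero.1 this).resolve_left (pow_ne_zero _ two0)
  obtain ⟨h, hh⟩ : 2 ∣ g := by
    refine h2.dvd_of_dvd_pow (n := 3) ⟨-(β * g ^ 2 + 2 * γ * g + W.b₆), ?_⟩
    linear_combination e1
  apply hb6
  refine ⟨-(2 * h ^ 3 + 2 * β * h ^ 2 + 2 * γ * h), ?_⟩
  have : (2 : R) * (W.b₆ - 2 * -(2 * h ^ 3 + 2 * β * h ^ 2 + 2 * γ * h)) = 0 := by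
    rw [hh] at e1
    linear_combination e1
  have := (mul_eq_zero.1 this).resolve_left two0
  linear_combination this

lemma root_change {E : WeierstrassCurve ℚ} (h : FullTwo E) (C : VariableChange ℚ) :
    ∃ x : ℚ, 4 * x ^ 3 + (C • E).b₂ * x ^ 2 + 2 * (C • E).b₄ * x + (C • E).b₆ = 0 := by
  obtain ⟨e, -, he⟩ := h
  have h0 := he 0
  refine ⟨((C.u⁻¹ : ℚˣ) : ℚ) ^ 2 * (e 0 - C.r), ?_⟩
  rw [variableChange_b₂, variableChange_b₄, variableChange_b₆]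
  linear_combination ((C.u⁻¹ : ℚˣ) : ℚ) ^ 6 * h0

/-- a monic cubic over `ℤ_p`: roots are integral -/
lemma root_int {q : ℕ} [Fact q.Prime] {a b c : ℤ_[q]} {f : ℚ_[q]}
    (h : f ^ 3 + a * f ^ 2 + b * f + c = 0) : ‖f‖ ≤ 1 := by
  by_contra hc
  push Not at hc
  have hf0 : 0 < ‖f‖ := by linarith
  have e : f ^ 3 = -(a * f ^ 2 + (b * f + c)) := by linear_combination h
  have h1 : ‖f‖ ^ 3 ≤ ‖f‖ ^ 2 := by
    calc ‖f‖ ^ 3 = ‖-((a : ℚ_[q]) * f ^ 2 + (b * f + c))‖ := by rw [← e, norm_pow]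
      _ = ‖(a : ℚ_[q]) * f ^ 2 + (b * f + c)‖ := norm_neg _
      _ ≤ max ‖(a : ℚ_[q]) * f ^ 2‖ ‖(b : ℚ_[q]) * f + c‖ := Padic.nonarchimedean _ _
      _ ≤ ‖f‖ ^ 2 := by
          refine max_le ?_ ?_
          · rw [norm_mul, norm_pow]
            exact mul_le_of_le_one_left (by positivity) (PadicInt.norm_le_one a)
          · refine (Padic.nonarchimedean _ _).trans (max_le ?_ ?_)
            · rw [norm_mul]
              calc ‖(b : ℚ_[q])‖ * ‖f‖ ≤ 1 * ‖f‖ :=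
                    mul_le_mul_of_nonneg_right (PadicInt.norm_le_one b) hf0.le
                _ ≤ ‖f‖ ^ 2 := by nlinarith
            · refine (PadicInt.norm_le_one c).trans ?_
              nlinarith
  have h2 : ‖f‖ ^ 2 * ‖f‖ ≤ ‖f‖ ^ 2 * 1 := by
    calc ‖f‖ ^ 2 * ‖f‖ = ‖f‖ ^ 3 := by ring
      _ ≤ ‖f‖ ^ 2 * 1 := by rw [mul_one]; exact h1
  have := le_of_mul_le_mul_left h2 (by positivity)
  linarith

/-- bad reduction at `2` when `2` divides the numerator of `j` -/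
lemma bad_two {E : WeierstrassCurve ℚ} (h : FullTwo E)
    (hj : padicNorm 2 (E.c₄ ^ 3 / E.Δ) < 1) : ¬ GoodAt 2 E := by
  have : Fact (Nat.Prime 2) := ⟨Nat.prime_two⟩
  rintro ⟨C, h1, h2⟩
  obtain ⟨W, hW⟩ := lift h1
  obtain ⟨x, hx⟩ := root_change h C
  have hp : Prime ((2 : ℕ) : ℤ_[2]) := PadicInt.prime_p
  have hp2 : Prime (2 : ℤ_[2]) := by exact_mod_cast hp
  have hc : (2 : ℤ_[2]) ∣ W.c₄ := by
    have k1 : padicNorm 2 (C • E).c₄ < 1 := by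
      rw [← j_change E C, padicNorm.div, h2, div_one, pn_pow] at hj
      by_contra hcon
      push Not at hcon
      exact absurd (one_le_pow₀ hcon) (not_le.2 hj)
    have k2 : ‖W.c₄‖ < 1 := by
      rw [norm_lift (lift_c4 hW)]
      exact_mod_cast k1
    have := (PadicInt.norm_lt_one_iff_dvd _).1 k2
    exact_mod_cast this
  have hD : ¬ (2 : ℤ_[2]) ∣ W.Δ := by
    intro hcon
    have k1 : ((2 : ℕ) : ℤ_[2]) ∣ W.Δ := by exact_mod_cast hcon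
    have k2 := (PadicInt.norm_lt_one_iff_dvd _).2 k1
    rw [norm_lift (lift_D hW), h2] at k2
    norm_num at k2
  -- the root
  have b2 : (W.b₂ : ℚ_[2]) = ((C • E).b₂ : ℚ_[2]) := by
    have h1 := congrArg WeierstrassCurve.b₂ hW
    rw [map_b₂, map_b₂] at h1
    exact h1
  have b4 : (W.b₄ : ℚ_[2]) = ((C • E).b₄ : ℚ_[2]) := by
    have h1 := congrArg WeierstrassCurve.b₄ hW
    rw [map_b₄, map_b₄] at h1
    exact h1
  have b6 : (W.b₆ : ℚ_[2]) = ((C • E).b₆ : ℚ_[2]) := by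
    have h1 := congrArg WeierstrassCurve.b₆ hW
    rw [map_b₆, map_b₆] at h1
    exact h1
  have hx' : (4 : ℚ_[2]) * (x : ℚ_[2]) ^ 3 + W.b₂ * (x : ℚ_[2]) ^ 2 + 2 * W.b₄ * x + W.b₆ = 0 := by
    rw [b2, b4, b6]
    exact_mod_cast congrArg (fun z : ℚ => (z : ℚ_[2])) hx
  have hf : ((4 * x : ℚ_[2])) ^ 3 + ((W.b₂ : ℤ_[2]) : ℚ_[2]) * (4 * x) ^ 2 +
      ((8 * W.b₄ : ℤ_[2]) : ℚ_[2]) * (4 * x) + ((16 * W.b₆ : ℤ_[2]) : ℚ_[2]) = 0 := by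
    have e8 : ((8 : ℤ_[2]) : ℚ_[2]) = 8 := rfl
    have e16 : ((16 : ℤ_[2]) : ℚ_[2]) = 16 := rfl
    push_cast
    rw [e8, e16]
    linear_combination 16 * hx'
  have hn := root_int hf
  obtain ⟨f, hf'⟩ : ∃ f : ℤ_[2], (f : ℚ_[2]) = 4 * x := ⟨⟨_, hn⟩, rfl⟩
  refine no_root hp2 W hc hD f ?_
  rw [← hf'] at hf
  refine PadicInt.ext ?_
  push_cast
  push_cast at hf
  exact hf

lemma semi_two {E : WeierstrassCurve ℚ} (hE : E.Δ ≠ 0) (h : FullTwo E) (hs : SemiAt 2 E) :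
    1 ≤ padicNorm 2 (E.c₄ ^ 3 / E.Δ) := by
  have : Fact (Nat.Prime 2) := ⟨Nat.prime_two⟩
  by_contra hc
  push Not at hc
  obtain ⟨C, h1, h2 | h2⟩ := hs
  · exact bad_two h hc ⟨C, h1, h2⟩
  · exact absurd (mult_ge hE h1 h2) (not_le.2 hc)

end Pool.Agent.V7H9.FR
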