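import Pool.Agent.V7H9.AL.Eff5
import Pool.Agent.V7H9.FR.Arc

set_option autoImplicit false

/-!
# The invariant of a triple `a + b = c`
-/

namespace Pool.Agent.V7H9.FR

open Finset Pool.Agent.TH498.AR
open Pool.Agent.Results.MP_1ea25c_nt.AlmostAllTriples (triples rad3)

/-- the triples `a + b = c`, `a ≤ b` coprime -/
def IsT (p : ℕ × ℕ) : Prop := 0 < p.1 ∧ p.1 ≤ p.2 ∧ Nat.Coprime p.1 p.2

/-- `abc` -/
def tri (p : ℕ × ℕ) : ℕ := p.1 * p.2 * (p.1 + p.2)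

/-- `a² + ab + b²` -/
def nor (p : ℕ × ℕ) : ℕ := p.1 ^ 2 + p.1 * p.2 + p.2 ^ 2

lemma tri_pos {p : ℕ × ℕ} (h : IsT p) : 0 < tri p := by
  obtain ⟨h1, h2, -⟩ := h
  unfold tri
  have : 0 < p.2 := by omega
  positivity

lemma nor_pos {p : ℕ × ℕ} (h : IsT p) : 0 < nor p := by
  obtain ⟨h1, h2, -⟩ := h
  unfold nor
  positivity

lemma two_dvd_tri (p : ℕ × ℕ) : 2 ∣ tri p := by
  unfold tri
  rcases Nat.even_or_odd p.1 with h | h
  · exact (h.two_dvd.mul_right _).mul_right _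
  · rcases Nat.even_or_odd p.2 with h' | h'
    · exact (h'.two_dvd.mul_left _).mul_right _
    · exact (h.add_odd h').two_dvd.mul_left _

lemma nor_cop {p : ℕ × ℕ} (h : IsT p) : Nat.Coprime (nor p) (tri p) := by
  obtain ⟨h1, h2, h3⟩ := h
  obtain ⟨a, ha⟩ : ∃ a : ℤ, a = (p.1 : ℤ) := ⟨_, rfl⟩
  obtain ⟨b, hb⟩ : ∃ b : ℤ, b = (p.2 : ℤ) := ⟨_, rfl⟩
  have hab : IsCoprime a b := by
    rw [ha, hb]
    exact Nat.isCoprime_iff_coprime.2 h3
  rw [← Nat.isCoprime_iff_coprime]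
  have e1 : ((nor p : ℕ) : ℤ) = a ^ 2 + a * b + b ^ 2 := by
    unfold nor
    rw [ha, hb]
    push_cast
    rfl
  have e2 : ((tri p : ℕ) : ℤ) = a * b * (a + b) := by
    unfold tri
    rw [ha, hb]
    push_cast
    rfl
  rw [e1, e2]
  have g1 : IsCoprime (a ^ 2 + a * b + b ^ 2) a := by
    have : a ^ 2 + a * b + b ^ 2 = b ^ 2 + a * (a + b) := by ring
    rw [this]
    exact (hab.symm.pow_left (m := 2)).add_mul_left_left _
  have g2 : IsCoprime (a ^ 2 + a * b + b ^ 2) b := by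
    have : a ^ 2 + a * b + b ^ 2 = a ^ 2 + b * (a + b) := by ring
    rw [this]
    exact (hab.pow_left (m := 2)).add_mul_left_left _
  have g3 : IsCoprime (a ^ 2 + a * b + b ^ 2) (a + b) := by
    have : a ^ 2 + a * b + b ^ 2 = -(a * b) + (a + b) * (a + b) := by ring
    rw [this]
    refine IsCoprime.add_mul_left_left ?_ _
    refine IsCoprime.neg_left ?_
    have k1 : IsCoprime a (a + b) := by
      have := (hab.add_mul_left_right 1)
      rw [mul_one, add_comm b a] at this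
      exact this
    have k2 : IsCoprime b (a + b) := by
      have := (hab.symm.add_mul_left_right 1)
      rw [mul_one] at this
      exact this
    exact IsCoprime.mul_left k1 k2
  exact (g1.mul_right g2).mul_right g3

lemma nor_odd {p : ℕ × ℕ} (h : IsT p) : ¬ 2 ∣ nor p := by
  intro h1
  have h2 := Nat.dvd_gcd h1 (two_dvd_tri p)
  rw [(nor_cop h).gcd_eq_one] at h2
  omega

/-- the modular invariant of `y² = x (x - a) (x + b)` -/
def jF (p : ℕ × ℕ) : ℚ := 256 * (nor p : ℚ) ^ 3 / (tri p : ℚ) ^ 2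

/-- `a / c` -/
noncomputable def tt (p : ℕ × ℕ) : ℝ := (p.1 : ℝ) / ((p.1 + p.2 : ℕ) : ℝ)

lemma tt_pos {p : ℕ × ℕ} (h : IsT p) : 0 < tt p := by
  have h1 : (0 : ℝ) < p.1 := by exact_mod_cast h.1
  unfold tt
  push_cast
  positivity

lemma tt_le {p : ℕ × ℕ} (h : IsT p) : tt p ≤ 1 / 2 := by
  have h1 : (0 : ℝ) < p.1 := by exact_mod_cast h.1
  have h2 : (p.1 : ℝ) ≤ p.2 := by exact_mod_cast h.2.1
  unfold tt
  push_cast
  rw [div_le_div_iff₀ (by linarith) (by norm_num)]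
  linarith

lemma jF_cast {p : ℕ × ℕ} (h : IsT p) : ((jF p : ℚ) : ℝ) = jl (tt p) := by
  have h1 : (0 : ℝ) < p.1 := by exact_mod_cast h.1
  have h2 : (p.1 : ℝ) ≤ p.2 := by exact_mod_cast h.2.1
  have h3 : (0 : ℝ) < p.2 := by linarith
  have h4 : (0 : ℝ) < (p.1 : ℝ) + p.2 := by linarith
  unfold jF jl tt nor tri
  push_cast
  have e : (1 : ℝ) - p.1 / (p.1 + p.2) = p.2 / (p.1 + p.2) := by
    field_simp
    ring
  rw [e]
  have e2 : (p.2 : ℝ) / (p.1 + p.2) + (p.1 / (p.1 + p.2)) ^ 2 =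
      ((p.1 : ℝ) ^ 2 + p.1 * p.2 + p.2 ^ 2) / (p.1 + p.2) ^ 2 := by
    field_simp
    ring
  rw [e2]
  field_simp

lemma jF_inj {p q : ℕ × ℕ} (hp : IsT p) (hq : IsT q) (h : jF p = jF q) : p = q := by
  have h1 : jl (tt p) = jl (tt q) := by rw [← jF_cast hp, ← jF_cast hq, h]
  have h2 := jl_inj (tt_pos hp) (tt_le hp) (tt_pos hq) (tt_le hq) h1
  obtain ⟨a1, a2, a3⟩ := hp
  obtain ⟨b1, b2, b3⟩ := hq
  have c1 : (0 : ℝ) < ((p.1 + p.2 : ℕ) : ℝ) := by exact_mod_cast (by omega : 0 < p.1 + p.2)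
  have c2 : (0 : ℝ) < ((q.1 + q.2 : ℕ) : ℝ) := by exact_mod_cast (by omega : 0 < q.1 + q.2)
  unfold tt at h2
  rw [div_eq_div_iff c1.ne' c2.ne'] at h2
  have e4 : p.1 * (q.1 + q.2) = q.1 * (p.1 + p.2) := by exact_mod_cast h2
  have e5 : p.1 * q.2 = q.1 * p.2 := by
    rw [mul_add, mul_add, mul_comm q.1 p.1] at e4
    omega
  have d1 : p.1 ∣ q.1 := a3.dvd_of_dvd_mul_right ⟨q.2, e5.symm⟩
  have d2 : q.1 ∣ p.1 := b3.dvd_of_dvd_mul_right ⟨p.2, e5⟩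
  have d3 : p.1 = q.1 := Nat.dvd_antisymm d1 d2
  rw [d3] at e5
  have d4 : q.2 = p.2 := Nat.eq_of_mul_eq_mul_left b1 e5
  exact Prod.ext d3 d4.symm

/-- `v₂` -/
def v2 (n : ℕ) : ℕ := n.factorization 2

lemma gcd_two (k n : ℕ) (hn : n ≠ 0) : Nat.gcd (2 ^ k) (n ^ 2) = 2 ^ min k (2 * v2 n) := by
  obtain ⟨m, hm⟩ : ∃ m, m = n / 2 ^ v2 n := ⟨_, rfl⟩
  have h1 : 2 ^ v2 n * m = n := by
    rw [hm]
    exact Nat.ordProj_mul_ordCompl_eq_self n 2
  have h2 : Nat.Coprime 2 m := by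
    rw [hm]
    exact Nat.coprime_ordCompl Nat.prime_two hn
  have h3 : n ^ 2 = 2 ^ (2 * v2 n) * m ^ 2 := by
    conv_lhs => rw [← h1]
    ring
  rw [h3, Nat.Coprime.gcd_mul_right_cancel_right _ (Nat.Coprime.pow 2 k h2.symm)]
  rcases le_total k (2 * v2 n) with h | h
  · rw [min_eq_left h]
    exact Nat.gcd_eq_left (pow_dvd_pow 2 h)
  · rw [min_eq_right h]
    exact Nat.gcd_eq_right (pow_dvd_pow 2 h)

lemma jF_den {p : ℕ × ℕ} (h : IsT p) :
    (jF p).den * 2 ^ min 8 (2 * v2 (tri p)) = (tri p) ^ 2 := by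
  have ht := tri_pos h
  have hg : Nat.gcd (256 * nor p ^ 3) (tri p ^ 2) = 2 ^ min 8 (2 * v2 (tri p)) := by
    rw [← gcd_two 8 (tri p) ht.ne']
    have h1 : Nat.Coprime (nor p ^ 3) (tri p ^ 2) := Nat.Coprime.pow 3 2 (nor_cop h)
    have := Nat.Coprime.gcd_mul_right_cancel (256 : ℕ) h1
    rw [this]
    norm_num
  obtain ⟨g, hg'⟩ : ∃ g : ℕ, g = 2 ^ min 8 (2 * v2 (tri p)) := ⟨_, rfl⟩
  rw [← hg'] at hg ⊢
  have hg0 : 0 < g := by rw [hg']; positivity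
  have d1 : g ∣ 256 * nor p ^ 3 := by rw [← hg]; exact Nat.gcd_dvd_left _ _
  have d2 : g ∣ tri p ^ 2 := by rw [← hg]; exact Nat.gcd_dvd_right _ _
  obtain ⟨A, hA⟩ := d1
  obtain ⟨B, hB⟩ := d2
  have hB0 : 0 < B := by
    rcases Nat.eq_zero_or_pos B with h0 | h0
    · rw [h0, mul_zero] at hB
      have : 0 < tri p ^ 2 := by positivity
      omega
    · exact h0
  have hcop : Nat.Coprime A B := by
    have h2 : g * Nat.gcd A B = g * 1 := by
      rw [← Nat.gcd_mul_left, ← hA, ← hB, hg, mul_one]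
    exact Nat.eq_of_mul_eq_mul_left hg0 h2
  have e : jF p = ((A : ℤ) : ℚ) / ((B : ℤ) : ℚ) := by
    unfold jF
    have k1 : (256 : ℚ) * (nor p : ℚ) ^ 3 = (g : ℚ) * A := by exact_mod_cast hA
    have k2 : (tri p : ℚ) ^ 2 = (g : ℚ) * B := by exact_mod_cast hB
    rw [k1, k2, mul_div_mul_left _ _ (by exact_mod_cast hg0.ne')]
    push_cast
    rfl
  have h3 := Rat.den_div_eq_of_coprime (a := (A : ℤ)) (b := (B : ℤ)) (by exact_mod_cast hB0)
    (by simpa using hcop)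
  rw [← e] at h3
  have h4 : (jF p).den = B := by exact_mod_cast h3
  rw [h4, hB, mul_comm]

/-- the repeated part -/
lemma w_mul {p : ℕ × ℕ} (h : IsT p) : psi3 ∅ p * rad3 p = tri p := by
  have h1 := coprime3 (P := ∅) h.2.2
  rw [← rd_eq] at h1
  exact h1

lemma w_pos {p : ℕ × ℕ} (h : IsT p) : 0 < psi3 ∅ p := psi3_pos h.1 (by have := h.2.1; have := h.1; omega)

lemma rad3_pos' (p : ℕ × ℕ) : 0 < rad3 p := rd_pos _

lemma rad3_sq (p : ℕ × ℕ) : Squarefree (rad3 p) := by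
  show Squarefree (∏ q ∈ (p.1 * p.2 * (p.1 + p.2)).primeFactors, q)
  refine Finset.squarefree_prod_of_pairwise_isCoprime ?_ ?_
  · intro q hq r hr hne
    exact (Nat.coprime_iff_isRelPrime.1 ((Nat.coprime_primes (Nat.prime_of_mem_primeFactors hq)
      (Nat.prime_of_mem_primeFactors hr)).2 hne))
  · exact fun q hq => (Nat.prime_of_mem_primeFactors hq).squarefree

lemma two_dvd_rad {p : ℕ × ℕ} (h : IsT p) : 2 ∣ rad3 p := by
  show 2 ∣ ∏ q ∈ (p.1 * p.2 * (p.1 + p.2)).primeFactors, q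
  refine Finset.dvd_prod_of_mem (fun q : ℕ => q) ?_
  rw [Nat.mem_primeFactors]
  exact ⟨Nat.prime_two, two_dvd_tri p, (tri_pos h).ne'⟩

lemma v2_rad {p : ℕ × ℕ} (h : IsT p) : v2 (rad3 p) = 1 := by
  have h1 : v2 (rad3 p) ≤ 1 := (Nat.squarefree_iff_factorization_le_one (rad3_pos' p).ne').1
    (rad3_sq p) 2
  have h2 : 0 < v2 (rad3 p) := Nat.prime_two.factorization_pos_of_dvd (rad3_pos' p).ne'
    (two_dvd_rad h)
  omega

lemma v2_tri {p : ℕ × ℕ} (h : IsT p) : v2 (tri p) = v2 (psi3 ∅ p) + 1 := by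
  have h1 := v2_rad h
  unfold v2 at *
  rw [← w_mul h, Nat.factorization_mul (w_pos h).ne' (rad3_pos' p).ne', Finsupp.add_apply, h1]

end Pool.Agent.V7H9.FR
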